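import Pool.Agent.Lib.P28c.Fd

set_option autoImplicit false

/-!
# At most `E / c` balls with energy at least `c`

Take a largest family of points of `CP n` with mutual distances `≥ 2 s` and energy `≥ c` in the balls of radius `s`.
-/

open MeasureTheory Set Metric
open scoped ENNReal ContDiff

namespace Pool.Agent.Lib.P28c

open Pool.Agent.P28b04d Pool.Agent.Lib.P28e

variable {n : ℕ} {Φ : W n → W n}

/-- a separated family of `k` points with energy at least `c` -/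
private def Adm (Φ : W n → W n) (c s : ℝ) (k : ℕ) : Prop :=
  ∃ Q : Fin k → Mat n, (∀ j, Q j ∈ CP n) ∧
    (∀ i j, i ≠ j → 2 * s ≤ fd (Q i) (Q j)) ∧ (∀ j, ENNReal.ofReal c ≤ eOn Φ (Q j) s)

private lemma adm_le {E c s : ℝ} (hE0 : 0 ≤ E) (hE : energy Φ ≤ ENNReal.ofReal E)
    (hc : 0 < c) {k : ℕ} (h : Adm Φ c s k) : (k : ℝ) * c ≤ E := by
  obtain ⟨Q, -, h2, h3⟩ := h
  have hm : ∀ j, MeasurableSet (ball (0 : W n) 1 ∩ PB (Q j) s) := fun j =>
    measurableSet_ball.inter (measurableSet_PB _ _)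
  have hd : Pairwise (Function.onFun Disjoint fun j => ball (0 : W n) 1 ∩ PB (Q j) s) := by
    intro i j hij
    rw [Function.onFun, Set.disjoint_left]
    rintro x ⟨-, hx1⟩ ⟨-, hx2⟩
    have h4 := h2 i j hij
    have h5 := fd_triangle (Q i) (pt x) (Q j)
    have h6 : fd (pt x) (Q i) < s := hx1
    have h7 : fd (pt x) (Q j) < s := hx2
    rw [fd_comm] at h6
    linarith
  have h4 := lintegral_iUnion (μ := volume) hm hd (fun x => ‖conn Φ x‖ₑ ^ (2 * n))
  rw [tsum_fintype] at h4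
  have h5 : ∫⁻ x in ⋃ j, (ball (0 : W n) 1 ∩ PB (Q j) s), ‖conn Φ x‖ₑ ^ (2 * n) ≤ energy Φ :=
    lintegral_mono_set (Set.iUnion_subset fun j => Set.inter_subset_left)
  rw [h4] at h5
  have h6 : ∑ _j : Fin k, ENNReal.ofReal c ≤
      ∑ j : Fin k, ∫⁻ x in ball (0 : W n) 1 ∩ PB (Q j) s, ‖conn Φ x‖ₑ ^ (2 * n) :=
    Finset.sum_le_sum fun j _ => h3 j
  have h7 : ∑ _j : Fin k, ENNReal.ofReal c = ENNReal.ofReal (k * c) := by
    rw [Finset.sum_const, Finset.card_univ, Fintype.card_fin, nsmul_eq_mul,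
      ENNReal.ofReal_mul (Nat.cast_nonneg k), ENNReal.ofReal_natCast]
  rw [h7] at h6
  exact (ENNReal.ofReal_le_ofReal_iff hE0).mp (h6.trans (h5.trans hE))

theorem cover {E c s : ℝ} (hE0 : 0 ≤ E) (hE : energy Φ ≤ ENNReal.ofReal E)
    (hc : 0 < c) (hs : 0 < s) : ∃ (k : ℕ) (Q : Fin k → Mat n), (∀ j, Q j ∈ CP n) ∧
      (∀ i j, i ≠ j → 2 * s ≤ fd (Q i) (Q j)) ∧ (∀ j, ENNReal.ofReal c ≤ eOn Φ (Q j) s) ∧
      (k : ℝ) * c ≤ E ∧
      ∀ P ∈ CP n, (∀ j, 2 * s ≤ fd P (Q j)) → eOn Φ P s < ENNReal.ofReal c := by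
  classical
  have hb : ∀ k, Adm Φ c s k → k ≤ ⌊E / c⌋₊ := by
    intro k hk
    refine Nat.le_floor ?_
    rw [le_div_iff₀ hc]
    exact adm_le hE0 hE hc hk
  have h0 : Adm Φ c s 0 := ⟨fun j => j.elim0, fun j => j.elim0, fun j => j.elim0, fun j => j.elim0⟩
  set k := Nat.findGreatest (Adm Φ c s) ⌊E / c⌋₊ with hk
  have h1 : Adm Φ c s k := Nat.findGreatest_spec (Nat.zero_le _) h0
  have h2 : ¬ Adm Φ c s (k + 1) := by
    intro h
    have := Nat.le_findGreatest (hb _ h) h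
    omega
  have h3 := adm_le hE0 hE hc h1
  obtain ⟨Q, hQ1, hQ2, hQ3⟩ := h1
  refine ⟨k, Q, hQ1, hQ2, hQ3, h3, fun P hP hPQ => ?_⟩
  by_contra hcon
  push Not at hcon
  refine h2 ⟨Fin.cons P Q, ?_, ?_, ?_⟩
  · intro j
    refine Fin.cases ?_ (fun j => ?_) j
    · simpa using hP
    · simpa using hQ1 j
  · intro i j
    refine Fin.cases ?_ (fun i => ?_) i
    · refine Fin.cases ?_ (fun j => ?_) j
      · intro h
        exact absurd rfl h
      · intro _
        simpa using hPQ j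
    · refine Fin.cases ?_ (fun j => ?_) j
      · intro _
        have := hPQ i
        rw [fd_comm] at this
        simpa using this
      · intro hij
        have : i ≠ j := fun h => hij (by rw [h])
        simpa using hQ2 i j this
  · intro j
    refine Fin.cases ?_ (fun j => ?_) j
    · simpa using hcon
    · simpa using hQ3 j

end Pool.Agent.Lib.P28c
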