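import Pool.Agent.Lib.P28c.Fd

set_option autoImplicit false

/-!
# Smooth cut-off functions on the cone over CP^n

PROOF SKETCH. `χ z = smoothTransition (∑ p ∈ P, smoothTransition (2 - fd (pt z) p ^ 2 / t ^ 2))`; smooth off `0` by `contDiffOn_fd_sq`; invariant because
`pt (c • z) = pt z` (`pt_smul`). If `fd (pt z) p ≤ t` the inner argument is `≥ 1`, the inner value is `1`, the sum is `≥ 1`, so `χ z = 1`; if all
`fd (pt z) p ≥ 2 t` every inner argument is `≤ -2 < 0`, the sum is `0` and `χ z = 0`.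
Bound of the derivative: `fderiv χ (r • z) = r⁻¹ • fderiv χ z` for real `r > 0` (chain rule with `χ (r • z) = χ z`), and `‖fderiv χ‖` is bounded on the compact
sphere of radius one (`ContDiffOn.continuousOn_fderiv_of_isOpen`); `z = ‖z‖ • (‖z‖⁻¹ • z)`.
`tau_cut`: `τ z = r * χ z * rad z` is admissible for small `r`: `rad` is smooth off `0` (`AvgSmoothAux.rad_smooth`), Lipschitz with constant `n + 1`
(`Close46.rad_lipschitz`), `rad z ≤ (n + 1) ‖z‖`; `‖fderiv τ z‖ ≤ r (L / ‖z‖ * (n + 1) ‖z‖ + (n + 1)) = r (n + 1)(L + 1) ≤ 1`, `τ z ≤ r (n + 1) ‖z‖ ≤ ‖z‖ / 8`.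
-/

open MeasureTheory Set Metric
open scoped ENNReal ContDiff

namespace Pool.Agent.Lib.P28c

open Pool.Agent.P28b04d Pool.Agent.Lib.P28e

namespace CutFAux

variable {n : ℕ}

/-- the cut-off function -/
noncomputable def chi (P : Finset (Mat n)) (t : ℝ) (z : W n) : ℝ :=
  Real.smoothTransition (∑ p ∈ P, Real.smoothTransition (2 - fd (pt z) p ^ 2 / t ^ 2))

theorem chi_smooth (P : Finset (Mat n)) (t : ℝ) : ContDiffOn ℝ ∞ (chi P t) {0}ᶜ := by
  have h1 : ContDiffOn ℝ ∞ (fun z : W n => ∑ p ∈ P,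
      Real.smoothTransition (2 - fd (pt z) p ^ 2 / t ^ 2)) {0}ᶜ := by
    refine ContDiffOn.sum fun p _ => ?_
    have h2 : ContDiffOn ℝ ∞ (fun z : W n => 2 - fd (pt z) p ^ 2 / t ^ 2) {0}ᶜ :=
      contDiffOn_const.sub ((contDiffOn_fd_sq p).div_const _)
    exact Real.smoothTransition.contDiff.comp_contDiffOn h2
  exact Real.smoothTransition.contDiff.comp_contDiffOn h1

theorem chi_hom (P : Finset (Mat n)) (t : ℝ) (c : ℂ) (z : W n) (hc : c ≠ 0) :
    chi P t (c • z) = chi P t z := by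
  unfold chi
  rw [pt_smul hc]

theorem chi_one (P : Finset (Mat n)) {t : ℝ} (ht : 0 < t) (z : W n)
    (h : ∃ p ∈ P, fd (pt z) p ≤ t) : chi P t z = 1 := by
  obtain ⟨p, hp, hpt⟩ := h
  unfold chi
  apply Real.smoothTransition.one_of_one_le
  have h1 : Real.smoothTransition (2 - fd (pt z) p ^ 2 / t ^ 2) = 1 := by
    apply Real.smoothTransition.one_of_one_le
    have h2 : fd (pt z) p ^ 2 ≤ t ^ 2 := pow_le_pow_left₀ (fd_nonneg _ _) hpt 2
    have h3 : fd (pt z) p ^ 2 / t ^ 2 ≤ 1 := (div_le_one (by positivity)).2 h2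
    linarith
  calc (1 : ℝ) = Real.smoothTransition (2 - fd (pt z) p ^ 2 / t ^ 2) := h1.symm
    _ ≤ ∑ p ∈ P, Real.smoothTransition (2 - fd (pt z) p ^ 2 / t ^ 2) :=
      Finset.single_le_sum (f := fun p => Real.smoothTransition (2 - fd (pt z) p ^ 2 / t ^ 2))
        (fun i _ => Real.smoothTransition.nonneg _) hp

theorem chi_zero (P : Finset (Mat n)) {t : ℝ} (ht : 0 < t) (z : W n)
    (h : ∀ p ∈ P, 2 * t ≤ fd (pt z) p) : chi P t z = 0 := by
  unfold chi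
  have h0 : ∑ p ∈ P, Real.smoothTransition (2 - fd (pt z) p ^ 2 / t ^ 2) = 0 := by
    apply Finset.sum_eq_zero
    intro p hp
    apply Real.smoothTransition.zero_of_nonpos
    have h2 : (2 * t) ^ 2 ≤ fd (pt z) p ^ 2 := pow_le_pow_left₀ (by positivity) (h p hp) 2
    have h3 : 4 ≤ fd (pt z) p ^ 2 / t ^ 2 := by
      rw [le_div_iff₀ (by positivity)]
      linarith
    linarith
  rw [h0, Real.smoothTransition.zero]

theorem der_bound (χ : W n → ℝ) (hs : ContDiffOn ℝ ∞ χ {0}ᶜ)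
    (hh : ∀ (c : ℂ) (z : W n), c ≠ 0 → χ (c • z) = χ z) :
    ∃ L : ℝ, 0 ≤ L ∧ ∀ z, z ≠ 0 → ‖fderiv ℝ χ z‖ * ‖z‖ ≤ L := by
  have hc : ContinuousOn (fderiv ℝ χ) {0}ᶜ :=
    hs.continuousOn_fderiv_of_isOpen isOpen_compl_singleton (by simp)
  have hK : IsCompact (sphere (0 : W n) 1) := isCompact_sphere _ _
  have hsub : sphere (0 : W n) 1 ⊆ {0}ᶜ := by
    intro z hz hz0
    rw [mem_singleton_iff] at hz0
    rw [hz0, mem_sphere, dist_self] at hz
    exact zero_ne_one hz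
  obtain ⟨C, hC⟩ := hK.exists_bound_of_continuousOn (hc.mono hsub)
  refine ⟨max C 0, le_max_right _ _, ?_⟩
  intro z hz
  have hn : 0 < ‖z‖ := norm_pos_iff.2 hz
  have hr : (‖z‖⁻¹ : ℝ) ≠ 0 := inv_ne_zero hn.ne'
  have e : (fun x : W n => χ ((‖z‖⁻¹ : ℝ) • x)) = χ := by
    funext x
    rw [Hom46.smul_real]
    exact hh _ x (by exact_mod_cast hr)
  have h1 := fderiv_comp_smul (𝕜 := ℝ) (f := χ) (x := z) (‖z‖⁻¹ : ℝ)
  rw [e] at h1
  have h2 : ‖(‖z‖⁻¹ : ℝ) • z‖ = 1 := by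
    rw [norm_smul, norm_inv, norm_norm, inv_mul_cancel₀ hn.ne']
  have h3 := hC ((‖z‖⁻¹ : ℝ) • z) (by rw [mem_sphere, dist_zero_right, h2])
  rw [h1, norm_smul, norm_inv, norm_norm]
  calc ‖z‖⁻¹ * ‖fderiv ℝ χ ((‖z‖⁻¹ : ℝ) • z)‖ * ‖z‖
      = ‖fderiv ℝ χ ((‖z‖⁻¹ : ℝ) • z)‖ := by field_simp
    _ ≤ C := h3
    _ ≤ max C 0 := le_max_left _ _

end CutFAux

open CutFAux

theorem exists_cut (n : ℕ) (P : Finset (Mat n)) {t : ℝ} (ht : 0 < t) :
    ∃ (χ : W n → ℝ) (L : ℝ), 0 ≤ L ∧ Cut χ L ∧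
      (∀ z : W n, z ≠ 0 → (∃ p ∈ P, fd (pt z) p ≤ t) → χ z = 1) ∧
      (∀ z : W n, z ≠ 0 → (∀ p ∈ P, 2 * t ≤ fd (pt z) p) → χ z = 0) := by
  obtain ⟨L, hL0, hL⟩ := der_bound (chi P t) (chi_smooth P t) (chi_hom P t)
  refine ⟨chi P t, L, hL0, ⟨chi_smooth P t, chi_hom P t, ?_, ?_, hL⟩, ?_, ?_⟩
  · exact fun z => Real.smoothTransition.nonneg _
  · exact fun z => Real.smoothTransition.le_one _
  · exact fun z _ h => chi_one P ht z h
  · exact fun z _ h => chi_zero P ht z h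

theorem tau_cut {n : ℕ} {χ : W n → ℝ} {L : ℝ} (hL : 0 ≤ L) (hχ : Cut χ L) {r : ℝ} (hr : 0 < r)
    (hr1 : r * (8 * ((n : ℝ) + 1) * (L + 1)) ≤ 1) : Tau (fun z => r * χ z * rad z) := by
  have hn0 : (0 : ℝ) ≤ n := Nat.cast_nonneg n
  have hrad0 : ∀ z : W n, 0 ≤ rad z := fun z => Real.sqrt_nonneg _
  have hrn : r * (8 * ((n : ℝ) + 1)) ≤ 1 := by
    refine le_trans ?_ hr1
    apply mul_le_mul_of_nonneg_left _ hr.le
    have : 0 ≤ 8 * ((n : ℝ) + 1) := by positivity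
    nlinarith
  refine ⟨?_, ?_, ?_, ?_, ?_⟩
  · exact (contDiffOn_const.mul hχ.smooth).mul AvgSmoothAux.rad_smooth
  · intro c z
    show r * χ (c • z) * rad (c • z) = ‖c‖ * (r * χ z * rad z)
    rw [AvgSmoothAux.rad_smul]
    by_cases hc : c = 0
    · rw [hc, norm_zero]; ring
    · rw [hχ.hom c z hc]; ring
  · intro z
    exact mul_nonneg (mul_nonneg hr.le (hχ.nonneg z)) (hrad0 z)
  · intro z
    have h1 := hχ.nonneg z
    have h2 := hχ.le_one z
    have h3 := rad_le z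
    calc r * χ z * rad z ≤ r * 1 * (((n : ℝ) + 1) * ‖z‖) := by
          apply mul_le_mul (mul_le_mul_of_nonneg_left h2 hr.le) h3 (hrad0 z)
          positivity
      _ = (r * (8 * ((n : ℝ) + 1))) * (‖z‖ / 8) := by ring
      _ ≤ 1 * (‖z‖ / 8) := mul_le_mul_of_nonneg_right hrn (by positivity)
      _ = ‖z‖ / 8 := one_mul _
  · intro z hz
    have hmem : ({0}ᶜ : Set (W n)) ∈ nhds z := isOpen_compl_singleton.mem_nhds hz
    have d1 : HasFDerivAt χ (fderiv ℝ χ z) z :=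
      ((hχ.smooth.contDiffAt hmem).differentiableAt (by simp)).hasFDerivAt
    have d2 : HasFDerivAt (fun z : W n => rad z) (fderiv ℝ (fun z : W n => rad z) z) z :=
      ((AvgSmoothAux.rad_smooth.contDiffAt hmem).differentiableAt (by simp)).hasFDerivAt
    have d3 := ((d1.const_mul r).mul d2)
    have e : fderiv ℝ (fun z => r * χ z * rad z) z =
        (r * χ z) • fderiv ℝ (fun z : W n => rad z) z + rad z • (r • fderiv ℝ χ z) := d3.fderiv
    rw [e]
    have h1 := hχ.nonneg z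
    have h2 := hχ.le_one z
    have h3 := rad_le z
    have hLz := hχ.der z hz
    have hrl : ‖fderiv ℝ (fun z : W n => rad z) z‖ ≤ (n : ℝ) + 1 := by
      have h := norm_fderiv_le_of_lipschitz ℝ (x₀ := z) (Close46.rad_lipschitz (n := n))
      push_cast at h
      exact h
    refine (norm_add_le _ _).trans ?_
    rw [norm_smul, norm_smul, norm_smul, Real.norm_eq_abs, Real.norm_eq_abs, Real.norm_eq_abs,
      abs_of_nonneg (mul_nonneg hr.le h1), abs_of_nonneg (hrad0 z), abs_of_pos hr]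
    have a1 : r * χ z * ‖fderiv ℝ (fun z : W n => rad z) z‖ ≤ r * 1 * ((n : ℝ) + 1) := by
      apply mul_le_mul (mul_le_mul_of_nonneg_left h2 hr.le) hrl (norm_nonneg _)
      positivity
    have a2 : rad z * (r * ‖fderiv ℝ χ z‖) ≤ r * (((n : ℝ) + 1) * L) := by
      calc rad z * (r * ‖fderiv ℝ χ z‖) ≤ (((n : ℝ) + 1) * ‖z‖) * (r * ‖fderiv ℝ χ z‖) :=
            mul_le_mul_of_nonneg_right h3 (by positivity)
        _ = r * (((n : ℝ) + 1) * (‖fderiv ℝ χ z‖ * ‖z‖)) := by ring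
        _ ≤ r * (((n : ℝ) + 1) * L) := by
            apply mul_le_mul_of_nonneg_left _ hr.le
            exact mul_le_mul_of_nonneg_left hLz (by positivity)
    have a3 : 0 ≤ r * (((n : ℝ) + 1) * (L + 1)) := by positivity
    nlinarith

end Pool.Agent.Lib.P28c
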