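import Pool.Agent.Lib.P28c.Defs

set_option autoImplicit false

/-!
# Interpolation between two lifts

PROOF SKETCH. `Φ₃ z = (1 - χ z) • Φ₂ z + χ z • Φ₁ z` for `z ≠ 0`, `Φ₃ 0 = 0` (the formula gives this as `Φᵢ 0 = 0`; note `χ 0` is arbitrary). Homogeneous
(`χ (c • z) = χ z` for `c ≠ 0`). The family `Λ (t, z) = (1 - σ t * χ z) • Φ₂ z + (σ t * χ z) • Φ₁ z`, `σ = smoothTransition`, is a `Fam`: its derivative in `z` is
`(1 - σ χ) dΦ₂ + σ χ dΦ₁ + σ (dχ ·) • (Φ₁ z - Φ₂ z)`; where `χ z = 0` then also `dχ_z = 0` (minimum of a nonnegative function), so it is `dΦ₂`, injective;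
where `χ z ≠ 0` take `c`, `A` from the hypothesis: at `c • z` the composition with `A⁻¹` differs from `1` by at most `(1 - σχ)/4 + σχ/4 + 1/4 ≤ 1/2 < 1`, hence
injective at `c • z`, hence at `z` (`f (c • x) = c • f x` gives `fderiv f (c • z) (c • v) = c • fderiv f z v`).
`Φ₃ = Λ (1, ·)`.
-/

open MeasureTheory Set Metric
open scoped ENNReal ContDiff

namespace Pool.Agent.Lib.P28c

open Pool.Agent.P28b04d Pool.Agent.Lib.P28e

private lemma fderiv_hom {n : ℕ} {G : W n → W n} (hom : ∀ (c : ℂ) (z : W n), G (c • z) = c • G z)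
    {z : W n} {c : ℂ} (hz : DifferentiableAt ℝ G z) (hcz : DifferentiableAt ℝ G (c • z)) (v : W n) :
    fderiv ℝ G (c • z) (c • v) = c • fderiv ℝ G z v := by
  have h1 : HasDerivAt (fun s : ℝ => z + s • v) v 0 := by
    simpa using ((hasDerivAt_id (0 : ℝ)).smul_const v).const_add z
  have h2 : HasDerivAt (fun s : ℝ => G (z + s • v)) (fderiv ℝ G z v) 0 := by
    have hd : HasFDerivAt G (fderiv ℝ G z) (z + (0 : ℝ) • v) := by simpa using hz.hasFDerivAt
    exact hd.comp_hasDerivAt (0 : ℝ) h1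
  have h3 : HasDerivAt (fun s : ℝ => c • z + s • (c • v)) (c • v) 0 := by
    simpa using ((hasDerivAt_id (0 : ℝ)).smul_const (c • v)).const_add (c • z)
  have h4 : HasDerivAt (fun s : ℝ => G (c • z + s • (c • v))) (fderiv ℝ G (c • z) (c • v)) 0 := by
    have hd : HasFDerivAt G (fderiv ℝ G (c • z)) (c • z + (0 : ℝ) • (c • v)) := by
      simpa using hcz.hasFDerivAt
    exact hd.comp_hasDerivAt (0 : ℝ) h3
  have h5 : (fun s : ℝ => G (c • z + s • (c • v))) = fun s : ℝ => c • G (z + s • v) := by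
    funext s
    rw [← hom, smul_add, smul_comm s c v]
  rw [h5] at h4
  exact h4.unique (h2.fun_const_smul c)

/-- the derivative of the interpolation -/
private lemma hasFDerivAt_interp {n : ℕ} {Φ₁ Φ₂ : W n → W n} (h1 : HLoc Φ₁) (h2 : HLoc Φ₂)
    {χ : W n → ℝ} {L : ℝ} (hχ : Cut χ L) (a : ℝ) {z : W n} (hz : z ≠ 0) (v : W n) :
    DifferentiableAt ℝ (fun w => (1 - a * χ w) • Φ₂ w + (a * χ w) • Φ₁ w) z ∧
    fderiv ℝ (fun w => (1 - a * χ w) • Φ₂ w + (a * χ w) • Φ₁ w) z v =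
      (1 - a * χ z) • fderiv ℝ Φ₂ z v + (a * χ z) • fderiv ℝ Φ₁ z v +
        (a * fderiv ℝ χ z v) • (Φ₁ z - Φ₂ z) := by
  have d1 : HasFDerivAt Φ₁ (fderiv ℝ Φ₁ z) z :=
    ((h1.contDiffAt hz).differentiableAt (by simp)).hasFDerivAt
  have d2 : HasFDerivAt Φ₂ (fderiv ℝ Φ₂ z) z :=
    ((h2.contDiffAt hz).differentiableAt (by simp)).hasFDerivAt
  have dχ : HasFDerivAt χ (fderiv ℝ χ z) z :=
    ((hχ.smooth.contDiffAt (isOpen_compl_singleton.mem_nhds hz)).differentiableAt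
      (by simp)).hasFDerivAt
  have e1 : HasFDerivAt (fun w => a * χ w) (a • fderiv ℝ χ z) z := dχ.const_mul a
  have e2 : HasFDerivAt (fun w => 1 - a * χ w) (-(a • fderiv ℝ χ z)) z := e1.const_sub 1
  have d4 := (e2.fun_smul d2).fun_add (e1.fun_smul d1)
  refine ⟨d4.differentiableAt, ?_⟩
  rw [d4.fderiv]
  simp only [add_apply, smul_apply,
    ContinuousLinearMap.smulRight_apply, neg_apply, smul_eq_mul, neg_smul,
    smul_sub]
  abel

theorem interp {n : ℕ} {Φ₁ Φ₂ : W n → W n} (h1 : HLoc Φ₁) (h2 : HLoc Φ₂) {χ : W n → ℝ} {L : ℝ}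
    (hχ : Cut χ L) (H : ∀ z : W n, z ≠ 0 → χ z ≠ 0 → ∃ c : ℂ, c ≠ 0 ∧ ∃ A : (EndW n)ˣ,
      ‖(↑A⁻¹ : EndW n) * fderiv ℝ Φ₁ (c • z) - 1‖ ≤ 1 / 4 ∧
      ‖(↑A⁻¹ : EndW n) * fderiv ℝ Φ₂ (c • z) - 1‖ ≤ 1 / 4 ∧
      ‖fderiv ℝ χ (c • z)‖ * ‖(↑A⁻¹ : EndW n) (Φ₁ (c • z) - Φ₂ (c • z))‖ ≤ 1 / 4) :
    ∃ Φ₃ : W n → W n, HLoc Φ₃ ∧ Conn Φ₂ Φ₃ ∧ ∀ z : W n, z ≠ 0 → χ z = 1 → Φ₃ z = Φ₁ z := by
  set Λ : ℝ × (Fin (n + 1) → ℂ) → (Fin (n + 1) → ℂ) := fun q =>
    (1 - Real.smoothTransition q.1 * χ q.2) • Φ₂ q.2 +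
      (Real.smoothTransition q.1 * χ q.2) • Φ₁ q.2 with hΛ
  have hhom : ∀ (t : ℝ) (c : ℂ) (z : Fin (n + 1) → ℂ), Λ (t, c • z) = c • Λ (t, z) := by
    intro t c z
    simp only [hΛ]
    by_cases hc : c = 0
    · subst hc
      simp [h1.zero, h2.zero]
    · rw [h1.hom, h2.hom, hχ.hom c z hc, smul_add, smul_comm c (_ : ℝ) (Φ₂ z), smul_comm c (_ : ℝ) (Φ₁ z)]
  have hΛf : Fam Λ := by
    refine ⟨?_, hhom, ?_⟩
    · rintro ⟨t, z⟩ ⟨-, hz⟩
      apply ContDiffAt.contDiffWithinAt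
      have a1 : ContDiffAt ℝ ∞ (fun q : ℝ × (Fin (n + 1) → ℂ) => Φ₁ q.2) (t, z) :=
        (h1.contDiffAt hz).comp (t, z) contDiffAt_snd
      have a2 : ContDiffAt ℝ ∞ (fun q : ℝ × (Fin (n + 1) → ℂ) => Φ₂ q.2) (t, z) :=
        (h2.contDiffAt hz).comp (t, z) contDiffAt_snd
      have a3 : ContDiffAt ℝ ∞ (fun q : ℝ × (Fin (n + 1) → ℂ) => Real.smoothTransition q.1)
          (t, z) := (Real.smoothTransition.contDiff.comp contDiff_fst).contDiffAt
      have a4 : ContDiffAt ℝ ∞ (fun q : ℝ × (Fin (n + 1) → ℂ) => χ q.2) (t, z) :=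
        (hχ.smooth.contDiffAt (isOpen_compl_singleton.mem_nhds hz)).comp (t, z) contDiffAt_snd
      have a5 := a3.mul a4
      exact ((contDiffAt_const.sub a5).fun_smul a2).add (a5.fun_smul a1)
    · intro t z hz v hv
      have hσ0 := Real.smoothTransition.nonneg t
      have hσ1 := Real.smoothTransition.le_one t
      by_cases hχz : χ z = 0
      · have hdχ : fderiv ℝ χ z = 0 := by
          apply IsLocalMin.fderiv_eq_zero
          refine Filter.Eventually.of_forall fun w => ?_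
          rw [hχz]
          exact hχ.nonneg w
        have h3 := (hasFDerivAt_interp h1 h2 hχ (Real.smoothTransition t) hz v).2
        have h4 : fderiv ℝ (fun w => Λ (t, w)) z v = fderiv ℝ Φ₂ z v := by
          refine h3.trans ?_
          rw [hχz, hdχ]
          simp
        rw [h4] at hv
        exact h2.inj z hz v hv
      · obtain ⟨c, hc, A, hA1, hA2, hA3⟩ := H z hz hχz
        have hcz : c • z ≠ 0 := smul_ne_zero hc hz
        obtain ⟨hdz, -⟩ := hasFDerivAt_interp h1 h2 hχ (Real.smoothTransition t) hz v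
        obtain ⟨hdcz, h3⟩ := hasFDerivAt_interp h1 h2 hχ (Real.smoothTransition t) hcz (c • v)
        have h4 : fderiv ℝ (fun w => Λ (t, w)) (c • z) (c • v) = 0 := by
          rw [fderiv_hom (G := fun w => Λ (t, w)) (hhom t) hdz hdcz v, hv, smul_zero]
        have h5 := h3.symm.trans h4
        clear h3 h4
        set u := c • v with hu
        set y := c • z with hy
        set s := Real.smoothTransition t * χ y with hs
        have hs0 : 0 ≤ s := mul_nonneg hσ0 (hχ.nonneg y)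
        have hs1 : s ≤ 1 := by
          have := hχ.le_one y
          have := hχ.nonneg y
          nlinarith
        clear_value s
        have hm : ∀ B : EndW n, ((↑A⁻¹ : EndW n) * B) u = (↑A⁻¹ : EndW n) (B u) := fun _ => rfl
        have h6 : u = -((1 - s) • (((↑A⁻¹ : EndW n) * fderiv ℝ Φ₂ y - 1) u) +
            s • (((↑A⁻¹ : EndW n) * fderiv ℝ Φ₁ y - 1) u) +
            (Real.smoothTransition t * fderiv ℝ χ y u) •
              (↑A⁻¹ : EndW n) (Φ₁ y - Φ₂ y)) := by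
          have h7 := congrArg (fun w => (↑A⁻¹ : EndW n) w) h5
          simp only [map_add, map_smul, map_zero] at h7
          simp only [sub_apply, one_apply_eq_self, hm, smul_sub]
          simp only [map_sub, smul_sub] at h7
          simp only [map_sub, smul_sub]
          rw [eq_neg_iff_add_eq_zero, ← h7]
          rw [show (1 - s) • u = u - s • u by rw [sub_smul, one_smul]]
          abel
        have h8 : ‖u‖ ≤ 1 / 2 * ‖u‖ := by
          conv_lhs => rw [h6]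
          rw [norm_neg]
          refine (norm_add₃_le).trans ?_
          rw [norm_smul, norm_smul, norm_smul, norm_mul, Real.norm_of_nonneg hs0,
            Real.norm_of_nonneg (by linarith : (0 : ℝ) ≤ 1 - s), Real.norm_of_nonneg hσ0]
          have i1 : ‖((↑A⁻¹ : EndW n) * fderiv ℝ Φ₂ y - 1) u‖ ≤ 1 / 4 * ‖u‖ :=
            (ContinuousLinearMap.le_opNorm _ _).trans
              (mul_le_mul_of_nonneg_right hA2 (norm_nonneg _))
          have i2 : ‖((↑A⁻¹ : EndW n) * fderiv ℝ Φ₁ y - 1) u‖ ≤ 1 / 4 * ‖u‖ :=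
            (ContinuousLinearMap.le_opNorm _ _).trans
              (mul_le_mul_of_nonneg_right hA1 (norm_nonneg _))
          have i3 : ‖fderiv ℝ χ y u‖ * ‖(↑A⁻¹ : EndW n) (Φ₁ y - Φ₂ y)‖ ≤ 1 / 4 * ‖u‖ := by
            calc ‖fderiv ℝ χ y u‖ * ‖(↑A⁻¹ : EndW n) (Φ₁ y - Φ₂ y)‖
                ≤ (‖fderiv ℝ χ y‖ * ‖u‖) * ‖(↑A⁻¹ : EndW n) (Φ₁ y - Φ₂ y)‖ :=
                  mul_le_mul_of_nonneg_right (ContinuousLinearMap.le_opNorm _ _) (norm_nonneg _)
              _ = (‖fderiv ℝ χ y‖ * ‖(↑A⁻¹ : EndW n) (Φ₁ y - Φ₂ y)‖) * ‖u‖ := by ring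
              _ ≤ 1 / 4 * ‖u‖ := mul_le_mul_of_nonneg_right hA3 (norm_nonneg _)
          have i4 : Real.smoothTransition t * ‖fderiv ℝ χ y u‖ *
              ‖(↑A⁻¹ : EndW n) (Φ₁ y - Φ₂ y)‖ ≤ 1 / 4 * ‖u‖ := by
            rw [mul_assoc]
            have : 0 ≤ ‖fderiv ℝ χ y u‖ * ‖(↑A⁻¹ : EndW n) (Φ₁ y - Φ₂ y)‖ := by positivity
            nlinarith
          nlinarith [mul_le_mul_of_nonneg_left i1 (by linarith : (0 : ℝ) ≤ 1 - s),
            mul_le_mul_of_nonneg_left i2 hs0, norm_nonneg u]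
        have h9 : ‖u‖ = 0 := by
          have := norm_nonneg u
          linarith
        rw [norm_eq_zero, hu] at h9
        exact (smul_eq_zero.1 h9).resolve_left hc
  refine ⟨fun z => Λ (1, z), hΛf.hloc 1, ⟨Λ, hΛf, ?_, ?_⟩, ?_⟩
  · intro t ht z
    simp only [hΛ]
    rw [Real.smoothTransition.zero_of_nonpos ht]
    simp
  · intro t ht z
    simp only [hΛ]
    rw [Real.smoothTransition.one_of_one_le ht, Real.smoothTransition.one_of_one_le le_rfl]
  · intro z _ hz1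
    simp only [hΛ]
    rw [Real.smoothTransition.one_of_one_le le_rfl, hz1]
    simp

end Pool.Agent.Lib.P28c
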