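import Pool.Agent.Lib.P28c.Defs

set_option autoImplicit false

/-!
# Lifts: composition, inverses, isotopies

PROOF SKETCH. `conn_symm`: `Λ (1 - t, z)`. `conn_comp_right`: `Λ (t, Θ z)`; `conn_comp_left`: `Θ (Λ (t, z))` (chain rule; `HLoc.ne`, `Fam.hloc`); a `Fam` needs
smoothness on `univ ×ˢ {0}ᶜ`, homogeneity and injectivity of the derivative. `conn_inj`: `Fam.injective`. `hloc_inv`: `HLoc.exists_inverse`; the inverse has injective derivative because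
`g (f z) = z`, `f (g z) = z` (differentiate at `g z ≠ 0`). `factor`: `Ψ = g ∘ Φ₃`, `g` the inverse of `G` (`HLoc.comp`-type lemma: there is `Pool.Agent.Lib.P28e.HLoc.comp`
or similar used in `GoodAll.lean`).
`final_iso`: let `N` be the inverse of `G ∘ Ψ`; `Conn Φ (G ∘ Ψ)` gives `Conn (Φ ∘ N) id`, hence by symmetry a family from `id` to `Φ ∘ N`; `Fam.isotopic` applies with `F`, since for
`z ≠ 0`, `F (pt z) = F (pt (G (Ψ (N z)))) = pt (Φ (N z))`.
-/

open MeasureTheory Set Metric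
open scoped ENNReal ContDiff

namespace Pool.Agent.Lib.P28c

open Pool.Agent.P28b04d Pool.Agent.Lib.P28e

variable {n : ℕ}

theorem conn_symm {Φ Ψ : W n → W n} (h : Conn Φ Ψ) : Conn Ψ Φ := by
  obtain ⟨Λ, f, s, e⟩ := h
  refine ⟨fun q => Λ (1 - q.1, q.2), ⟨?_, ?_, ?_⟩, ?_, ?_⟩
  · rintro ⟨t, z⟩ ⟨-, hz⟩
    have h1 : ContDiffAt ℝ ∞ (fun q : ℝ × (Fin (n + 1) → ℂ) => (1 - q.1, q.2)) (t, z) := by
      fun_prop
    exact ((f.contDiffAt (1 - t) hz).comp (t, z) h1).contDiffWithinAt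
  · intro t c z
    exact f.hom (1 - t) c z
  · intro t z hz v hv
    exact f.inj (1 - t) z hz v hv
  · intro t ht z
    exact e (1 - t) (by linarith) z
  · intro t ht z
    exact s (1 - t) (by linarith) z

theorem conn_comp_right {Φ Ψ Θ : W n → W n} (h : Conn Φ Ψ) (hΘ : HLoc Θ) :
    Conn (fun z => Φ (Θ z)) (fun z => Ψ (Θ z)) := by
  obtain ⟨Λ, f, s, e⟩ := h
  refine ⟨fun q => Λ (q.1, Θ q.2), ⟨?_, ?_, ?_⟩, ?_, ?_⟩
  · rintro ⟨t, z⟩ ⟨-, hz⟩
    have h0 : ContDiffAt ℝ ∞ (fun q : ℝ × (Fin (n + 1) → ℂ) => Θ q.2) (t, z) :=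
      (hΘ.contDiffAt hz).comp (t, z) contDiffAt_snd
    have h1 : ContDiffAt ℝ ∞ (fun q : ℝ × (Fin (n + 1) → ℂ) => (q.1, Θ q.2)) (t, z) :=
      contDiffAt_fst.prodMk h0
    exact ((f.contDiffAt t (hΘ.ne hz)).comp (t, z) h1).contDiffWithinAt
  · intro t c z
    simp only
    rw [hΘ.hom, f.hom]
  · intro t z hz v hv
    exact ((f.hloc t).comp hΘ).inj z hz v hv
  · intro t ht z
    exact s t ht (Θ z)
  · intro t ht z
    exact e t ht (Θ z)

theorem conn_comp_left {Φ Ψ Θ : W n → W n} (h : Conn Φ Ψ) (hΘ : HLoc Θ) :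
    Conn (fun z => Θ (Φ z)) (fun z => Θ (Ψ z)) := by
  obtain ⟨Λ, f, s, e⟩ := h
  refine ⟨fun q => Θ (Λ q), ⟨?_, ?_, ?_⟩, ?_, ?_⟩
  · rintro ⟨t, z⟩ ⟨-, hz⟩
    have h0 : Λ (t, z) ≠ 0 := (f.hloc t).ne hz
    exact ((hΘ.contDiffAt h0).comp (t, z) (f.contDiffAt t hz)).contDiffWithinAt
  · intro t c z
    rw [f.hom, hΘ.hom]
  · intro t z hz v hv
    exact (hΘ.comp (f.hloc t)).inj z hz v hv
  · intro t ht z
    simp only
    rw [s t ht z]
  · intro t ht z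
    simp only
    rw [e t ht z]

theorem conn_inj {Φ Ψ : W n → W n} (h : Conn Φ Ψ) (hi : Function.Injective Φ) :
    Function.Injective Ψ := by
  obtain ⟨Λ, f, s, e⟩ := h
  have h0 : (fun z => Λ (0, z)) = Φ := funext fun z => s 0 le_rfl z
  have h1 : (fun z => Λ (1, z)) = Ψ := funext fun z => e 1 le_rfl z
  have := f.injective (t0 := 0) (by rw [h0]; exact hi) 1
  rwa [h1] at this

theorem hloc_inv {G : W n → W n} (h : HLoc G) (hi : Function.Injective G) :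
    ∃ g : W n → W n, HLoc g ∧ Function.Injective g ∧ (∀ z, g (G z) = z) ∧ ∀ z, G (g z) = z := by
  obtain ⟨g, g1, g2, g3, g4, g5⟩ := h.exists_inverse hi
  refine ⟨g, ⟨g1, g2, ?_⟩, ?_, g4, g5⟩
  · intro z hz v hv
    have hgd : ContDiffAt ℝ ∞ g z := g1.contDiffAt (isOpen_compl_singleton.mem_nhds hz)
    have hc : fderiv ℝ (G ∘ g) z = (fderiv ℝ G (g z)).comp (fderiv ℝ g z) :=
      fderiv_comp z ((h.contDiffAt (g3 z hz)).differentiableAt (by simp))
        (hgd.differentiableAt (by simp))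
    have hid : G ∘ g = id := funext g5
    rw [hid] at hc
    have h2 := congrArg (fun L => L v) hc
    simp only [fderiv_id, ContinuousLinearMap.comp_apply, hv, map_zero] at h2
    simpa using h2
  · intro z w hzw
    rw [← g5 z, ← g5 w, hzw]

theorem factor {G Φ₃ : W n → W n} (h : HLoc G) (hi : Function.Injective G) (h3 : HLoc Φ₃)
    (hi3 : Function.Injective Φ₃) : ∃ Ψ : W n → W n, HLoc Ψ ∧ Function.Injective Ψ ∧
      (∀ z, G (Ψ z) = Φ₃ z) ∧ ∀ z, Φ₃ z = G z → Ψ z = z := by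
  obtain ⟨g, g1, g2, g3, g4⟩ := hloc_inv h hi
  refine ⟨g ∘ Φ₃, g1.comp h3, g2.comp hi3, ?_, ?_⟩
  · intro z
    exact g4 _
  · intro z hz
    simp only [Function.comp_apply]
    rw [hz, g3]

theorem final_iso {Φ G Ψ : W n → W n} (hG : HLoc G) (hGi : Function.Injective G) (hΨ : HLoc Ψ)
    (hΨi : Function.Injective Ψ) (hc : Conn Φ (fun z => G (Ψ z))) (F : Mat n → Mat n)
    (hF : ∀ z : W n, z ≠ 0 → F (pt (G (Ψ z))) = pt (Φ z)) : IsotopicToId n F := by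
  obtain ⟨N, N1, -, N3, N4⟩ := hloc_inv (hG.comp hΨ) (hGi.comp hΨi)
  have h1 := conn_symm (conn_comp_right hc N1)
  obtain ⟨Λ, f, s, e⟩ := h1
  apply f.isotopic
  · intro z
    rw [s 0 le_rfl z]
    exact N4 z
  · intro z hz
    rw [e 1 le_rfl z, ← hF (N z) (N1.ne hz)]
    congr 2
    exact (N4 z).symm

end Pool.Agent.Lib.P28c
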