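import Pool.Agent.Lib.P28c.Match
import Pool.Agent.Lib.P28c.Interp
import Pool.Agent.Lib.P28c.TopC

set_option autoImplicit false

/-!
# The data of a lift at a finite net, and comparison of two lifts with nearly equal data
-/

open MeasureTheory Set Metric
open scoped ENNReal ContDiff

namespace Pool.Agent.Lib.P28c

open Pool.Agent.P28b04d Pool.Agent.Lib.P28e

variable {n : ℕ}

/-- `A g = dΨ_g` controls `dΨ` near the points `g` of the net `G`, and these matrices are comparable. -/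
structure Dat (Ψ : W n → W n) (G : Finset (W n)) (δ Λ : ℝ) (A : W n → (EndW n)ˣ) : Prop where
  hloc : HLoc Ψ
  val : ∀ g ∈ G, (A g : EndW n) = fderiv ℝ Ψ g
  loc : ∀ g ∈ G, ∀ x : W n, ‖x - g‖ ≤ δ → ‖(↑(A g)⁻¹ : EndW n) * fderiv ℝ Ψ x - 1‖ ≤ 1 / 16
  far : ∀ g ∈ G, ∀ g' ∈ G, ‖(↑(A g)⁻¹ : EndW n) * (A g' : EndW n)‖ ≤ Λ
  farJ : ∀ g ∈ G, ‖Jm (A g)‖ ≤ Λ

/-- A complex linear equivalence as a lift. -/
theorem hloc_lin (T : W n ≃ₗ[ℂ] W n) (TR : EndW n) (hT : ∀ v, TR v = T v) :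
    HLoc (T : W n → W n) where
  smooth := by
    have e : (T : W n → W n) = TR := funext fun v => (hT v).symm
    rw [e]
    exact TR.contDiff.contDiffOn
  hom := fun c z => T.map_smul c z
  inj := by
    intro z _ v hv
    have e : (T : W n → W n) = TR := funext fun v => (hT v).symm
    rw [e, TR.fderiv, hT] at hv
    exact T.injective (by rw [hv, map_zero])

theorem pair {Ψ₁ Ψ₂ : W n → W n} {G : Finset (W n)} {δ Λ : ℝ} {A₁ A₂ : W n → (EndW n)ˣ}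
    (d1 : Dat Ψ₁ G δ Λ A₁) (d2 : Dat Ψ₂ G δ Λ A₂) (hG : ∀ g ∈ G, ‖g‖ = 1 / 2) {g₀ : W n}
    (hg₀ : g₀ ∈ G) {χ : W n → ℝ} {L : ℝ} (hL : 0 ≤ L) (hχ : Cut χ L)
    (hnet : ∀ z : W n, z ≠ 0 → χ z ≠ 0 → ∃ c : ℂ, c ≠ 0 ∧ ∃ g ∈ G, ‖c • z - g‖ ≤ δ)
    (hδ0 : 0 < δ) (hδ : δ * (8 * (L + 1)) ≤ 1) {η : ℝ} (hη0 : 0 ≤ η) (hΛ : 1 ≤ Λ)
    (hη : η * (Λ ^ 3 * (32 * (L + 1))) ≤ 1)
    (hJ : ‖Jm (A₁ g₀) - Jm (A₂ g₀)‖ ≤ η)
    (hR : ∀ g ∈ G, ‖(↑(A₁ g₀)⁻¹ : EndW n) * (A₁ g : EndW n) -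
      (↑(A₂ g₀)⁻¹ : EndW n) * (A₂ g : EndW n)‖ ≤ η) :
    ∃ Φ₃ : W n → W n, HLoc Φ₃ ∧ Conn Ψ₂ Φ₃ ∧ ∀ z : W n, z ≠ 0 → χ z = 1 → Φ₃ z = Ψ₁ z := by
  have hΛ0 : 0 < Λ := by linarith
  have hΛ3 : Λ ≤ Λ ^ 3 := le_self_pow₀ hΛ (by norm_num)
  have hΛ31 : 1 ≤ Λ ^ 3 := one_le_pow₀ hΛ
  have hL1 : 1 ≤ L + 1 := by linarith
  have hX : Λ * η * (32 * (L + 1)) ≤ 1 := by
    refine le_trans ?_ hη
    have : 0 ≤ η * (32 * (L + 1)) := by positivity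
    nlinarith
  have hΛη : Λ * η ≤ 1 / 32 := by
    have h1 : Λ * η * 32 ≤ Λ * η * (32 * (L + 1)) := by
      have : 0 ≤ Λ * η := by positivity
      nlinarith
    linarith
  have hδ8 : δ ≤ 1 / 8 := by
    have : δ * 8 ≤ δ * (8 * (L + 1)) := by nlinarith
    linarith
  -- the linear map
  have hmatch : ‖Jm (A₁ g₀)‖ * ‖Jm (A₁ g₀) - Jm (A₂ g₀)‖ ≤ Λ * η :=
    mul_le_mul (d1.farJ g₀ hg₀) hJ (norm_nonneg _) hΛ0.le
  obtain ⟨T, TR, hT, hTe⟩ := exists_match (A₁ g₀) (A₂ g₀) (by linarith)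
  have hTe' : ‖(↑(A₁ g₀)⁻¹ : EndW n) * TR * (A₂ g₀ : EndW n) - 1‖ ≤ Λ * η / 2 := by linarith
  set η' : ℝ := Λ * (Λ * η / 2 * Λ + η) with hη'
  have hη'1 : η' * (16 * (L + 1)) ≤ 1 := by
    have h1 : η' ≤ 2 * (Λ ^ 3 * η) := by
      have h2 : Λ * η ≤ Λ ^ 3 * η := by gcongr
      have h3 : η' = Λ ^ 3 * η / 2 + Λ * η := by rw [hη']; ring
      have h4 : 0 ≤ Λ ^ 3 * η := by positivity
      linarith
    calc η' * (16 * (L + 1)) ≤ 2 * (Λ ^ 3 * η) * (16 * (L + 1)) := by gcongr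
      _ = η * (Λ ^ 3 * (32 * (L + 1))) := by ring
      _ ≤ 1 := hη
  have hη'0 : 0 ≤ η' := by positivity
  have hη'2 : η' ≤ 1 / 16 := by nlinarith
  have htr : ∀ g ∈ G, ‖(↑(A₁ g)⁻¹ : EndW n) * TR * (A₂ g : EndW n) - 1‖ ≤ η' := fun g hg =>
    transfer hΛ0.le hTe' (d1.far g hg g₀ hg₀) (d2.far g₀ hg₀ g hg) (hR g hg)
  have hTl := hloc_lin T TR hT
  have hcT : Conn Ψ₂ (fun z => T (Ψ₂ z)) := by
    have h := conn_comp_right (Φ := (id : W n → W n)) (Ψ := (T : W n → W n)) (conn_linear T) d2.hloc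
    exact h
  have hTΨ : HLoc (fun z => T (Ψ₂ z)) := by
    obtain ⟨Λf, hf, -, h1⟩ := hcT
    have := hf.hloc 1
    have e : (fun z => Λf (1, z)) = fun z => T (Ψ₂ z) := funext fun z => h1 1 le_rfl z
    rwa [e] at this
  have hTfun : (fun z => T (Ψ₂ z)) = fun z => TR (Ψ₂ z) := funext fun z => (hT _).symm
  -- the derivative of `T ∘ Ψ₂`
  have hder : ∀ x : W n, x ≠ 0 → fderiv ℝ (fun z => T (Ψ₂ z)) x = TR * fderiv ℝ Ψ₂ x := by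
    intro x hx
    rw [hTfun]
    have h1 := (Hom46.hasFDerivAt d2.hloc hx)
    exact (TR.hasFDerivAt.comp x h1).fderiv
  have hx0 : ∀ g ∈ G, ∀ x : W n, ‖x - g‖ ≤ δ → x ≠ 0 ∧ 3 / 8 ≤ ‖x‖ := by
    intro g hg x hx
    have h1 : ‖g‖ ≤ ‖x‖ + ‖x - g‖ := by
      calc ‖g‖ = ‖x - (x - g)‖ := by rw [sub_sub_cancel]
        _ ≤ _ := norm_sub_le _ _
    rw [hG g hg] at h1
    have h2 : 3 / 8 ≤ ‖x‖ := by linarith
    refine ⟨?_, h2⟩
    rintro rfl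
    rw [norm_zero] at h2
    norm_num at h2
  have hd2 : ∀ g ∈ G, ∀ x : W n, ‖x - g‖ ≤ δ →
      ‖(↑(A₁ g)⁻¹ : EndW n) * fderiv ℝ (fun z => T (Ψ₂ z)) x - 1‖ ≤ 3 / 16 := by
    intro g hg x hx
    have h1 : (↑(A₁ g)⁻¹ : EndW n) * fderiv ℝ (fun z => T (Ψ₂ z)) x =
        ((↑(A₁ g)⁻¹ : EndW n) * TR * (A₂ g : EndW n)) *
          ((↑(A₂ g)⁻¹ : EndW n) * fderiv ℝ Ψ₂ x) := by
      rw [hder x (hx0 g hg x hx).1]
      have e : (A₂ g : EndW n) * (↑(A₂ g)⁻¹ : EndW n) = 1 := Units.mul_inv _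
      calc (↑(A₁ g)⁻¹ : EndW n) * (TR * fderiv ℝ Ψ₂ x)
          = (↑(A₁ g)⁻¹ : EndW n) * TR * (1 * fderiv ℝ Ψ₂ x) := by rw [one_mul, mul_assoc]
        _ = (↑(A₁ g)⁻¹ : EndW n) * TR * ((A₂ g : EndW n) * (↑(A₂ g)⁻¹ : EndW n) *
              fderiv ℝ Ψ₂ x) := by rw [e]
        _ = _ := by simp only [mul_assoc]
    rw [h1]
    refine (sub_one_mul (htr g hg) (d2.loc g hg x hx)).trans ?_
    linarith
  obtain ⟨Φ₃, h31, h32, h33⟩ := interp d1.hloc hTΨ hχ (fun z hz hχz => by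
    obtain ⟨c, hc, g, hg, hcg⟩ := hnet z hz hχz
    refine ⟨c, hc, A₁ g, (d1.loc g hg _ hcg).trans (by norm_num),
      (hd2 g hg _ hcg).trans (by norm_num), ?_⟩
    set x := c • z with hx
    obtain ⟨hxne, hxn⟩ := hx0 g hg x hcg
    -- the difference function
    set f : W n → W n := fun y => (↑(A₁ g)⁻¹ : EndW n) (Ψ₁ y - T (Ψ₂ y)) with hf
    have hfd : ∀ y ∈ closedBall g δ, HasFDerivWithinAt f
        ((↑(A₁ g)⁻¹ : EndW n) * fderiv ℝ Ψ₁ y -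
          (↑(A₁ g)⁻¹ : EndW n) * fderiv ℝ (fun z => T (Ψ₂ z)) y) (closedBall g δ) y := by
      intro y hy
      have hy' : ‖y - g‖ ≤ δ := by rwa [mem_closedBall, dist_eq_norm] at hy
      have hy0 := (hx0 g hg y hy').1
      have h1 := Hom46.hasFDerivAt d1.hloc hy0
      have h2 := Hom46.hasFDerivAt hTΨ hy0
      have h3 := (↑(A₁ g)⁻¹ : EndW n).hasFDerivAt.comp y (h1.sub h2)
      have e : (↑(A₁ g)⁻¹ : EndW n).comp (fderiv ℝ Ψ₁ y - fderiv ℝ (fun z => T (Ψ₂ z)) y) =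
          (↑(A₁ g)⁻¹ : EndW n) * fderiv ℝ Ψ₁ y -
            (↑(A₁ g)⁻¹ : EndW n) * fderiv ℝ (fun z => T (Ψ₂ z)) y := by
        rw [← mul_sub]
        rfl
      rw [e] at h3
      exact h3.hasFDerivWithinAt
    have hbound : ∀ y ∈ closedBall g δ, ‖(↑(A₁ g)⁻¹ : EndW n) * fderiv ℝ Ψ₁ y -
        (↑(A₁ g)⁻¹ : EndW n) * fderiv ℝ (fun z => T (Ψ₂ z)) y‖ ≤ 1 / 4 := by
      intro y hy
      have hy' : ‖y - g‖ ≤ δ := by rwa [mem_closedBall, dist_eq_norm] at hy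
      have e : (↑(A₁ g)⁻¹ : EndW n) * fderiv ℝ Ψ₁ y -
          (↑(A₁ g)⁻¹ : EndW n) * fderiv ℝ (fun z => T (Ψ₂ z)) y =
          ((↑(A₁ g)⁻¹ : EndW n) * fderiv ℝ Ψ₁ y - 1) -
          ((↑(A₁ g)⁻¹ : EndW n) * fderiv ℝ (fun z => T (Ψ₂ z)) y - 1) := by abel
      rw [e]
      refine (norm_sub_le _ _).trans ?_
      have h1 := d1.loc g hg y hy'
      have h2 := hd2 g hg y hy'
      linarith
    have hmvt := (convex_closedBall g δ).norm_image_sub_le_of_norm_hasFDerivWithin_le hfd hbound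
      (mem_closedBall_self hδ0.le) (show x ∈ closedBall g δ by
        rw [mem_closedBall, dist_eq_norm]; exact hcg)
    -- the value at `g`
    have hg0 : g ≠ 0 := (hx0 g hg g (by rw [sub_self, norm_zero]; exact hδ0.le)).1
    have hfg : ‖f g‖ ≤ η' / 2 := by
      have e1 : Ψ₁ g = (A₁ g : EndW n) g := by rw [d1.val g hg, euler d1.hloc hg0]
      have e2 : T (Ψ₂ g) = TR ((A₂ g : EndW n) g) := by
        rw [d2.val g hg, euler d2.hloc hg0, hT]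
      have e3 : f g = -(((↑(A₁ g)⁻¹ : EndW n) * TR * (A₂ g : EndW n) - 1) g) := by
        show (↑(A₁ g)⁻¹ : EndW n) (Ψ₁ g - T (Ψ₂ g)) = _
        rw [e1, e2, map_sub]
        have e4 : (↑(A₁ g)⁻¹ : EndW n) ((A₁ g : EndW n) g) = g := by
          have : ((↑(A₁ g)⁻¹ : EndW n) * (A₁ g : EndW n)) g = g := by
            rw [Units.inv_mul]; rfl
          exact this
        rw [e4]
        have e5 : ((↑(A₁ g)⁻¹ : EndW n) * TR * (A₂ g : EndW n) - 1) g =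
            (↑(A₁ g)⁻¹ : EndW n) (TR ((A₂ g : EndW n) g)) - g := rfl
        rw [e5]
        abel
      rw [e3, norm_neg]
      refine (ContinuousLinearMap.le_opNorm _ _).trans ?_
      rw [hG g hg]
      have := htr g hg
      linarith
    have hfx : ‖f x‖ ≤ η' / 2 + δ / 4 := by
      have h1 : ‖f x‖ ≤ ‖f g‖ + ‖f x - f g‖ := by
        calc ‖f x‖ = ‖f g + (f x - f g)‖ := by rw [add_sub_cancel]
          _ ≤ _ := norm_add_le _ _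
      have h2 : 1 / 4 * ‖x - g‖ ≤ 1 / 4 * δ := by gcongr
      linarith
    have hdχ : ‖fderiv ℝ χ x‖ ≤ 4 * L := by
      have h1 := hχ.der x hxne
      have h2 : ‖fderiv ℝ χ x‖ * (3 / 8) ≤ ‖fderiv ℝ χ x‖ * ‖x‖ := by gcongr
      have h3 : 0 ≤ ‖fderiv ℝ χ x‖ := norm_nonneg _
      nlinarith
    calc ‖fderiv ℝ χ x‖ * ‖f x‖ ≤ (4 * L) * (η' / 2 + δ / 4) := by gcongr
      _ = 2 * (L * η') + L * δ := by ring
      _ ≤ 1 / 4 := by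
          have h1 : L * η' * 16 ≤ 1 := by
            refine le_trans ?_ hη'1
            nlinarith
          have h2 : L * δ * 8 ≤ 1 := by
            refine le_trans ?_ hδ
            nlinarith
          linarith)
  exact ⟨Φ₃, h31, hcT.trans h32, h33⟩

end Pool.Agent.Lib.P28c
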