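import Pool.Agent.Lib.P28e.Main

set_option autoImplicit false

/-!
# Concentration of the critical energy: definitions

`W n = ℂ^(n+1)` with the maximum norm, `EndW n` its real endomorphisms, `HLoc Φ`, `Good`, `conn`, `energy`, `mulC`, `rad`
as in `Pool.Agent.Lib.P28e.Defs`. `fd` is the Frobenius distance of matrices, `PB P s` the cone over the ball of radius `s`
about the point `P` of `CP^n`, `eOn Φ P s` the energy in this ball. `VAvg Φ τ z` is the mean of `Φ` over the ball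
`closedBall z (τ z)` (maximum norm).
-/

open MeasureTheory Set Metric
open scoped ENNReal ContDiff

namespace Pool.Agent.Lib.P28c

open Pool.Agent.P28b04d Pool.Agent.Lib.P28e

/-- Matrices. -/
abbrev Mat (n : ℕ) : Type := Fin (n + 1) → Fin (n + 1) → ℂ

/-- The Frobenius distance. -/
noncomputable def fd {n : ℕ} (P Q : Mat n) : ℝ :=
  Real.sqrt (∑ i, ∑ j, Complex.normSq (P i j - Q i j))

/-- The cone over the ball of radius `s` about `P`. -/
def PB {n : ℕ} (P : Mat n) (s : ℝ) : Set (W n) := {x | fd (pt x) P < s}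

/-- The energy in the ball of radius `s` about `P`. -/
noncomputable def eOn {n : ℕ} (Φ : W n → W n) (P : Mat n) (s : ℝ) : ℝ≥0∞ :=
  ∫⁻ x in ball (0 : W n) 1 ∩ PB P s, ‖conn Φ x‖ₑ ^ (2 * n)

/-- Averages over balls of variable radius. -/
noncomputable def VAvg {n : ℕ} (Φ : W n → W n) (τ : W n → ℝ) (z : W n) : W n :=
  ((volume (closedBall (0 : W n) 1)).toReal)⁻¹ •
    ∫ η in closedBall (0 : W n) 1, Φ (z + τ z • η)

/-- Admissible radius functions. -/
structure Tau {n : ℕ} (τ : W n → ℝ) : Prop where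
  smooth : ContDiffOn ℝ ∞ τ {0}ᶜ
  hom : ∀ (c : ℂ) (z : W n), τ (c • z) = ‖c‖ * τ z
  nonneg : ∀ z, 0 ≤ τ z
  le : ∀ z, τ z ≤ ‖z‖ / 8
  der : ∀ z, z ≠ 0 → ‖fderiv ℝ τ z‖ ≤ 1

/-- Smooth cut-off functions on `CP^n`, as functions on the cone. -/
structure Cut {n : ℕ} (χ : W n → ℝ) (L : ℝ) : Prop where
  smooth : ContDiffOn ℝ ∞ χ {0}ᶜ
  hom : ∀ (c : ℂ) (z : W n), c ≠ 0 → χ (c • z) = χ z
  nonneg : ∀ z, 0 ≤ χ z
  le_one : ∀ z, χ z ≤ 1
  der : ∀ z, z ≠ 0 → ‖fderiv ℝ χ z‖ * ‖z‖ ≤ L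

/-- The complex structure seen through `M`. -/
noncomputable def Jm {n : ℕ} (M : (EndW n)ˣ) : EndW n := (↑M⁻¹ : EndW n) * mulC Complex.I * (M : EndW n)


end Pool.Agent.Lib.P28c
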