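import Pool.Agent.Lib.P28c.FarB

set_option autoImplicit false

/-!
# Comparison of the matrices of two arbitrary far points

PROOF SKETCH. Let `K = n + 1`, `ρ ≤ 1 / (8 K)`. (a) `z` and `I • z`: the segment is `(1 - t + t I) • z`, of norm `≥ ‖z‖ / √2 ≥ 1/3 ≥ 2 ρ`; `Good Φ (I • z) ρ (1/16) (U M U⁻¹)` with
`U` the unit `mulC I` (`good_mulC`), so `far_seg` gives `‖M⁻¹ U M U⁻¹‖ ≤ Λ`, hence `‖Jm M‖ ≤ Λ` (`‖U‖ = 1`).
(b) `z`, `z'` arbitrary: let `u : ℂ`, `‖u‖ = 1`, with `0 ≤ Re (∑ k, conj (z k) * (u * z' k))` (`u = conj a / ‖a‖` for `a = ∑ conj (z k) z' k ≠ 0`, else `u = 1`). Then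
`nsq ((1 - t) z + t u z') ≥ (1 - t)² nsq z + t² nsq (u z') ≥ (1/2)(1/4)` (`‖z‖ ≤ rad z`, `nsq = rad²`), so the norm is `≥ (1/√8) / K ≥ 1 / (4 K) ≥ 2 ρ`
(`rad_le`). With `Uu` the unit `mulC u`: `Good Φ (u • z') ρ (1/16) (Uu M' Uu⁻¹)`, `‖M⁻¹ Uu M' Uu⁻¹‖ ≤ Λ`. Finally `M⁻¹ M' = (M⁻¹ Uu M' Uu⁻¹) * (Uu * (M'⁻¹ Uu⁻¹ M'))`
and `M'⁻¹ Uu⁻¹ M' = (conj u).re • 1 + (conj u).im • Jm M'` (`mulC_eq`), of norm `≤ 1 + Λ`. Result with `Λ' = Λ (1 + Λ)`.
-/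

open MeasureTheory Set Metric
open scoped ENNReal ContDiff

namespace Pool.Agent.Lib.P28c

open Pool.Agent.P28b04d Pool.Agent.Lib.P28e

namespace FarAux

variable {n : ℕ} {Φ : W n → W n}

/-- the unit `mulC u` -/
noncomputable def UC (n : ℕ) (u : ℂ) (hu : u ≠ 0) : (EndW n)ˣ :=
  ⟨mulC u, mulC u⁻¹, by rw [mulC_mul, mul_inv_cancel₀ hu, mulC_one],
    by rw [mulC_mul, inv_mul_cancel₀ hu, mulC_one]⟩

/-- `Good` is compatible with multiplication by a complex number of modulus one. -/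
theorem good_rot (h : HLoc Φ) {z : W n} {ρ : ℝ} (hρz : ρ < ‖z‖)
    {ε : ℝ} {M : (EndW n)ˣ} {u : ℂ} (hu : u ≠ 0) (hu1 : ‖u‖ = 1)
    (hM : Good Φ z ρ ε M) : Good Φ (u • z) ρ ε (UC n u hu * M * (UC n u hu)⁻¹) := by
  have h1 := Hom46.ball_iff hu (measurable_fderiv_sub h
    (↑(UC n u hu * M * (UC n u hu)⁻¹)⁻¹ : EndW n)) z ρ (ENNReal.ofReal ε)
  rw [hu1, one_mul] at h1
  unfold Good at hM ⊢
  rw [h1]
  refine le_trans ?_ hM
  have hM'2 : (↑(UC n u hu * M * (UC n u hu)⁻¹)⁻¹ : EndW n) =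
      mulC u * (↑M⁻¹ : EndW n) * mulC u⁻¹ := by
    rw [mul_inv_rev, mul_inv_rev, inv_inv, ← mul_assoc]
    rfl
  have h5 : (mulC u⁻¹ : EndW n) * mulC u = 1 := by
    rw [mulC_mul, inv_mul_cancel₀ hu, mulC_one]
  have h6 : (mulC u : EndW n) * mulC u⁻¹ = 1 := by
    rw [mulC_mul, mul_inv_cancel₀ hu, mulC_one]
  apply setLIntegral_mono' measurableSet_closedBall
  intro y hy
  have hy0 : y ≠ 0 := Hom46.ne_zero_of_mem hρz hy
  have h4 : (↑(UC n u hu * M * (UC n u hu)⁻¹)⁻¹ : EndW n) * fderiv ℝ Φ (u • y) - 1 =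
      mulC u * ((↑M⁻¹ : EndW n) * fderiv ℝ Φ y - 1) * mulC u⁻¹ := by
    rw [hM'2, fderiv_mulC h hu hy0]
    calc mulC u * (↑M⁻¹ : EndW n) * mulC u⁻¹ *
          (mulC u * fderiv ℝ Φ y * mulC u⁻¹) - 1
        = mulC u * (↑M⁻¹ : EndW n) * (mulC u⁻¹ * mulC u) *
          fderiv ℝ Φ y * mulC u⁻¹ - mulC u * mulC u⁻¹ := by
          rw [h6]
          simp only [mul_assoc]
      _ = mulC u * ((↑M⁻¹ : EndW n) * fderiv ℝ Φ y - 1) * mulC u⁻¹ := by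
          rw [h5]
          simp only [mul_one, mul_sub, sub_mul, mul_assoc]
  rw [h4]
  rw [enorm_le_iff_norm_le]
  calc ‖mulC u * ((↑M⁻¹ : EndW n) * fderiv ℝ Φ y - 1) * mulC u⁻¹‖
      ≤ ‖(mulC u : EndW n)‖ * ‖(↑M⁻¹ : EndW n) * fderiv ℝ Φ y - 1‖ *
        ‖(mulC u⁻¹ : EndW n)‖ :=
        (norm_mul_le _ _).trans (mul_le_mul_of_nonneg_right (norm_mul_le _ _) (norm_nonneg _))
    _ = ‖(↑M⁻¹ : EndW n) * fderiv ℝ Φ y - 1‖ := by
        rw [norm_mulC, norm_mulC, norm_inv, hu1, inv_one, one_mul, mul_one]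

theorem hip_smul (u : ℂ) (z v : W n) : hip z (u • v) = u * hip z v := by
  unfold hip
  rw [Finset.mul_sum]
  exact Finset.sum_congr rfl fun k _ => by rw [Pi.smul_apply, smul_eq_mul]; ring

theorem exists_phase (a : ℂ) : ∃ u : ℂ, ‖u‖ = 1 ∧ 0 ≤ (u * a).re := by
  by_cases ha : a = 0
  · exact ⟨1, by simp, by simp [ha]⟩
  · have hn : (‖a‖ : ℂ) ≠ 0 := by exact_mod_cast norm_ne_zero_iff.2 ha
    refine ⟨(starRingEnd ℂ) a / ‖a‖, ?_, ?_⟩
    · rw [norm_div, RCLike.norm_conj, Complex.norm_real, norm_norm,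
        div_self (norm_ne_zero_iff.2 ha)]
    · have e : (starRingEnd ℂ) a / ‖a‖ * a = (‖a‖ : ℂ) := by
        rw [div_mul_eq_mul_div, mul_comm, Complex.mul_conj, Complex.normSq_eq_norm_sq]
        push_cast
        rw [sq, mul_div_assoc, div_self hn, mul_one]
      rw [e, Complex.ofReal_re]
      exact norm_nonneg _

theorem nsq_comb (a b : ℝ) (z w : W n) :
    nsq (a • z + b • w) = a ^ 2 * nsq z + 2 * a * b * (hip z w).re + b ^ 2 * nsq w := by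
  unfold nsq hip
  rw [Complex.re_sum, Finset.mul_sum, Finset.mul_sum, Finset.mul_sum, ← Finset.sum_add_distrib,
    ← Finset.sum_add_distrib]
  apply Finset.sum_congr rfl
  intro k _
  simp only [Pi.add_apply, Pi.smul_apply, Complex.real_smul, Complex.normSq_apply, Complex.add_re,
    Complex.add_im, Complex.mul_re, Complex.mul_im, Complex.ofReal_re, Complex.ofReal_im,
    Complex.star_def, Complex.conj_re, Complex.conj_im]
  ring

theorem nsq_ge {z : W n} (hz : ‖z‖ = 1 / 2) : 1 / 4 ≤ nsq z := by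
  have h1 := norm_le_rad z
  rw [hz] at h1
  unfold rad at h1
  have h2 := Real.sq_sqrt (nsq_nonneg z)
  nlinarith

/-- the norm is bounded below by `nsq` -/
theorem norm_ge_of_nsq {v : W n} (h : 1 / 8 ≤ nsq v) : 1 / (4 * ((n : ℝ) + 1)) ≤ ‖v‖ := by
  have h1 := rad_le v
  have h2 : 1 / 4 ≤ rad v := by
    unfold rad
    apply Real.le_sqrt_of_sq_le
    linarith
  have hn : (0 : ℝ) < (n : ℝ) + 1 := by positivity
  rw [div_le_iff₀ (by positivity)]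
  nlinarith

theorem jm_eq (u : ℂ) (M : (EndW n)ˣ) :
    (↑M⁻¹ : EndW n) * mulC u * (M : EndW n) = u.re • (1 : EndW n) + u.im • Jm M := by
  have h0 : ∀ x : W n, u • x = u.re • x + u.im • (Complex.I • x) := by
    intro x
    ext k
    simp only [Pi.add_apply, Pi.smul_apply, smul_eq_mul, Complex.real_smul]
    conv_lhs => rw [← Complex.re_add_im u]
    ring
  have h1 : ∀ v : W n, (↑M⁻¹ : EndW n) ((M : EndW n) v) = v := fun v =>
    DFunLike.congr_fun (Units.inv_mul M) v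
  ext1 v
  show (↑M⁻¹ : EndW n) (u • (M : EndW n) v) =
    u.re • v + u.im • (↑M⁻¹ : EndW n) (Complex.I • (M : EndW n) v)
  rw [h0, map_add, map_smul, map_smul, h1]

theorem norm_one_EndW : ‖(1 : EndW n)‖ = 1 := by
  rw [← mulC_one, norm_mulC, norm_one]

end FarAux

open FarAux

theorem far (n : ℕ) (hn : 1 ≤ n) {E ρ : ℝ} (hE : 0 ≤ E) (hρ : 0 < ρ)
    (hρ1 : ρ ≤ 1 / (8 * ((n : ℝ) + 1))) :
    ∃ Λ : ℝ, 1 ≤ Λ ∧ ∀ Φ : W n → W n, HLoc Φ → energy Φ ≤ ENNReal.ofReal E →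
      ∀ z z' : W n, ‖z‖ = 1 / 2 → ‖z'‖ = 1 / 2 →
      ∀ M M' : (EndW n)ˣ, Good Φ z ρ (1 / 16) M → Good Φ z' ρ (1 / 16) M' →
        ‖(↑M⁻¹ : EndW n) * (M' : EndW n)‖ ≤ Λ ∧ ‖Jm M‖ ≤ Λ := by
  have hn0 : (0 : ℝ) ≤ n := Nat.cast_nonneg n
  have hρ8 : ρ ≤ 1 / 8 := by
    refine hρ1.trans ?_
    apply one_div_le_one_div_of_le (by norm_num)
    linarith
  have h2ρ : 2 * ρ ≤ 1 / (4 * ((n : ℝ) + 1)) := by
    have e : 1 / (4 * ((n : ℝ) + 1)) = 2 * (1 / (8 * ((n : ℝ) + 1))) := by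
      field_simp
      norm_num
    rw [e]
    linarith
  obtain ⟨Λ, hΛ, hfar⟩ := far_seg n hn hE hρ hρ8
  -- part (a)
  have key : ∀ Φ : W n → W n, HLoc Φ → energy Φ ≤ ENNReal.ofReal E → ∀ z : W n, ‖z‖ = 1 / 2 →
      ∀ M : (EndW n)ˣ, Good Φ z ρ (1 / 16) M → ‖Jm M‖ ≤ Λ := by
    intro Φ h hEn z hz M hM
    have hρz : ρ < ‖z‖ := by rw [hz]; linarith
    have hg := good_rot h hρz Complex.I_ne_zero Complex.norm_I hM
    have hz' : ‖Complex.I • z‖ = 1 / 2 := by rw [norm_smul, Complex.norm_I, one_mul, hz]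
    have hseg : ∀ t ∈ Icc (0 : ℝ) 1, 2 * ρ ≤ ‖z + t • (Complex.I • z - z)‖ := by
      intro t _
      have e : z + t • (Complex.I • z - z) = (((1 - t : ℝ) : ℂ) + (t : ℂ) * Complex.I) • z := by
        ext k
        simp only [Pi.add_apply, Pi.smul_apply, Pi.sub_apply, smul_eq_mul, Complex.real_smul]
        push_cast
        ring
      rw [e, norm_smul, hz]
      have h1 : 1 / 2 ≤ ‖((1 - t : ℝ) : ℂ) + (t : ℂ) * Complex.I‖ := by
        rw [Complex.norm_add_mul_I]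
        apply Real.le_sqrt_of_sq_le
        nlinarith [sq_nonneg (2 * t - 1)]
      linarith
    have h3 := hfar Φ h hEn z (Complex.I • z) hz hz' hseg M _ hM hg
    have e : Jm M = (↑M⁻¹ : EndW n) *
        ((UC n Complex.I Complex.I_ne_zero * M * (UC n Complex.I Complex.I_ne_zero)⁻¹ :
          (EndW n)ˣ) : EndW n) * (UC n Complex.I Complex.I_ne_zero : EndW n) := by
      rw [Units.val_mul, Units.val_mul, mul_assoc, mul_assoc, Units.inv_mul, mul_one, ← mul_assoc]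
      rfl
    rw [e]
    calc _ ≤ ‖(↑M⁻¹ : EndW n) *
        ((UC n Complex.I Complex.I_ne_zero * M * (UC n Complex.I Complex.I_ne_zero)⁻¹ :
          (EndW n)ˣ) : EndW n)‖ * ‖(mulC Complex.I : EndW n)‖ := norm_mul_le _ _
      _ ≤ Λ * 1 := by
          rw [norm_mulC, Complex.norm_I]
          exact mul_le_mul_of_nonneg_right h3 zero_le_one
      _ = Λ := mul_one _
  refine ⟨Λ * (1 + Λ), by nlinarith, ?_⟩
  intro Φ h hEn z z' hz hz' M M' hM hM'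
  refine ⟨?_, (key Φ h hEn z hz M hM).trans (by nlinarith)⟩
  obtain ⟨u, hu1, hure⟩ := exists_phase (hip z z')
  have hu : u ≠ 0 := by
    rintro rfl
    simp at hu1
  have hρz' : ρ < ‖z'‖ := by rw [hz']; linarith
  have hg := good_rot h hρz' hu hu1 hM'
  have huz : ‖u • z'‖ = 1 / 2 := by rw [norm_smul, hu1, one_mul, hz']
  have hseg : ∀ t ∈ Icc (0 : ℝ) 1, 2 * ρ ≤ ‖z + t • (u • z' - z)‖ := by
    intro t ht
    refine h2ρ.trans (norm_ge_of_nsq ?_)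
    have e : z + t • (u • z' - z) = (1 - t) • z + t • (u • z') := by
      rw [smul_sub, sub_smul, one_smul]
      abel
    rw [e, nsq_comb, hip_smul]
    have h1 := nsq_ge hz
    have h2 := nsq_ge huz
    have h3 : 0 ≤ 2 * (1 - t) * t * (u * hip z z').re :=
      mul_nonneg (mul_nonneg (by linarith [ht.2]) ht.1) hure
    have h4 : (1 - t) ^ 2 * (1 / 4) ≤ (1 - t) ^ 2 * nsq z :=
      mul_le_mul_of_nonneg_left h1 (sq_nonneg _)
    have h5 : t ^ 2 * (1 / 4) ≤ t ^ 2 * nsq (u • z') :=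
      mul_le_mul_of_nonneg_left h2 (sq_nonneg _)
    nlinarith [sq_nonneg (2 * t - 1)]
  have h3 := hfar Φ h hEn z (u • z') hz huz hseg M _ hM hg
  have hJ := key Φ h hEn z' hz' M' hM'
  have hn1 : ‖u⁻¹‖ = 1 := by rw [norm_inv, hu1, inv_one]
  have e : (↑M⁻¹ : EndW n) * (M' : EndW n) = (↑M⁻¹ : EndW n) *
      ((UC n u hu * M' * (UC n u hu)⁻¹ : (EndW n)ˣ) : EndW n) * ((mulC u : EndW n) *
        ((↑M'⁻¹ : EndW n) * mulC u⁻¹ * (M' : EndW n))) := by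
    have e1 : (((UC n u hu)⁻¹ : (EndW n)ˣ) : EndW n) = mulC u⁻¹ := rfl
    have e2 : ((UC n u hu : (EndW n)ˣ) : EndW n) = mulC u := rfl
    have h5 : (mulC u⁻¹ : EndW n) * mulC u = 1 := by
      rw [mulC_mul, inv_mul_cancel₀ hu, mulC_one]
    have h6 : (mulC u : EndW n) * mulC u⁻¹ = 1 := by
      rw [mulC_mul, mul_inv_cancel₀ hu, mulC_one]
    rw [Units.val_mul, Units.val_mul, e1, e2]
    calc (↑M⁻¹ : EndW n) * (M' : EndW n)
        = (↑M⁻¹ : EndW n) * (mulC u * ((M' : EndW n) * ((mulC u⁻¹ * mulC u) * (↑M'⁻¹ : EndW n))) *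
          mulC u⁻¹) * (M' : EndW n) := by
          rw [h5, one_mul, Units.mul_inv, mul_one, h6, mul_one]
      _ = _ := by simp only [mul_assoc]
  have hJ2 : ‖(↑M'⁻¹ : EndW n) * mulC u⁻¹ * (M' : EndW n)‖ ≤ 1 + Λ := by
    rw [jm_eq u⁻¹]
    refine (norm_add_le _ _).trans ?_
    rw [norm_smul, norm_smul, norm_one_EndW, mul_one]
    have a1 : ‖(u⁻¹).re‖ ≤ 1 := by
      rw [Real.norm_eq_abs, ← hn1]; exact Complex.abs_re_le_norm _
    have a2 : ‖(u⁻¹).im‖ ≤ 1 := by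
      rw [Real.norm_eq_abs, ← hn1]; exact Complex.abs_im_le_norm _
    have a3 : ‖(u⁻¹).im‖ * ‖Jm M'‖ ≤ 1 * Λ :=
      mul_le_mul a2 hJ (norm_nonneg _) zero_le_one
    linarith
  rw [e]
  calc _ ≤ ‖(↑M⁻¹ : EndW n) * ((UC n u hu * M' * (UC n u hu)⁻¹ : (EndW n)ˣ) : EndW n)‖ *
        ‖(mulC u : EndW n) * ((↑M'⁻¹ : EndW n) * mulC u⁻¹ * (M' : EndW n))‖ := norm_mul_le _ _
    _ ≤ Λ * (1 * (1 + Λ)) := by
        refine mul_le_mul h3 ?_ (norm_nonneg _) (by linarith)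
        refine (norm_mul_le _ _).trans ?_
        rw [norm_mulC, hu1]
        exact mul_le_mul_of_nonneg_left hJ2 zero_le_one
    _ = Λ * (1 + Λ) := by rw [one_mul]

end Pool.Agent.Lib.P28c
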