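import Pool.Agent.Lib.P28c.Defs

set_option autoImplicit false

/-!
# Comparison of the derivative at two points along a segment (Gronwall)

`seg_bound`: let `g t = N * fderiv ℝ Φ (x + t • v)` on `[0, 1]` (the segment avoids `0`). Then `g' t = N * (D²Φ v) = g t * conn Φ (x + t v) v`,
so `‖g' t‖ ≤ ‖g t‖ * (‖conn Φ (x + t v)‖ * ‖v‖)`, and Gronwall's inequality with a variable coefficient (`gron`) applies.
-/

open MeasureTheory Set Metric
open scoped ENNReal ContDiff

namespace Pool.Agent.Lib.P28c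

open Pool.Agent.P28b04d Pool.Agent.Lib.P28e

variable {n : ℕ} {Φ : W n → W n}

/-- Gronwall's inequality with a continuous coefficient. -/
theorem gron {F : Type*} [NormedAddCommGroup F] [NormedSpace ℝ F] {g g' : ℝ → F} {k : ℝ → ℝ}
    (hk : Continuous k) (hg : ContinuousOn g (Icc 0 1))
    (hg' : ∀ t ∈ Ico (0 : ℝ) 1, HasDerivWithinAt g (g' t) (Ici t) t)
    (hb : ∀ t ∈ Ico (0 : ℝ) 1, ‖g' t‖ ≤ ‖g t‖ * k t) :
    ‖g 1‖ ≤ ‖g 0‖ * Real.exp (∫ t in (0 : ℝ)..1, k t) := by
  have key : ∀ δ : ℝ, 0 < δ →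
      ‖g 1‖ ≤ (‖g 0‖ + δ) * Real.exp ((∫ t in (0 : ℝ)..1, k t) + δ * 1) := by
    intro δ hδ
    have hB : ∀ t, HasDerivAt (fun t : ℝ => (‖g 0‖ + δ) * Real.exp ((∫ s in (0 : ℝ)..t, k s) + δ * t))
        ((‖g 0‖ + δ) * (Real.exp ((∫ s in (0 : ℝ)..t, k s) + δ * t) * (k t + δ))) t := by
      intro t
      have h1 : HasDerivAt (fun t : ℝ => ∫ s in (0 : ℝ)..t, k s) (k t) t :=
        (hk.integral_hasStrictDerivAt 0 t).hasDerivAt
      have h2 : HasDerivAt (fun t : ℝ => δ * t) δ t := by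
        simpa using (hasDerivAt_id t).const_mul δ
      exact ((h1.add h2).exp).const_mul _
    refine image_norm_le_of_norm_deriv_right_lt_deriv_boundary hg hg' ?_ hB ?_
      (right_mem_Icc.mpr zero_le_one)
    · simp only [intervalIntegral.integral_same, mul_zero, add_zero, Real.exp_zero, mul_one]
      linarith
    · intro t ht heq
      have h3 := hb t ht
      have h4 : 0 < (‖g 0‖ + δ) * Real.exp ((∫ s in (0 : ℝ)..t, k s) + δ * t) :=
        mul_pos (by positivity) (Real.exp_pos _)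
      rw [heq] at h3
      calc ‖g' t‖ ≤ (‖g 0‖ + δ) * Real.exp ((∫ s in (0 : ℝ)..t, k s) + δ * t) * k t := h3
        _ < (‖g 0‖ + δ) * Real.exp ((∫ s in (0 : ℝ)..t, k s) + δ * t) * (k t + δ) :=
          mul_lt_mul_of_pos_left (by linarith) h4
        _ = _ := by ring
  have hlim : Filter.Tendsto
      (fun δ : ℝ => (‖g 0‖ + δ) * Real.exp ((∫ t in (0 : ℝ)..1, k t) + δ * 1))
      (nhdsWithin 0 (Ioi 0)) (nhds ((‖g 0‖ + 0) * Real.exp ((∫ t in (0 : ℝ)..1, k t) + 0 * 1))) := by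
    refine Filter.Tendsto.mono_left ?_ nhdsWithin_le_nhds
    have hc : Continuous (fun δ : ℝ => (‖g 0‖ + δ) * Real.exp ((∫ t in (0 : ℝ)..1, k t) + δ * 1)) := by
      fun_prop
    exact hc.tendsto 0
  have hfin := ge_of_tendsto hlim (Filter.eventually_of_mem self_mem_nhdsWithin fun δ hδ => key δ hδ)
  simpa using hfin

private theorem contn {F G : Type*} [NormedAddCommGroup F] [NormedSpace ℝ F] [NormedAddCommGroup G]
    [NormedSpace ℝ G] (f : ℝ → (F →L[ℝ] G)) (hf : Continuous f) : Continuous fun t => ‖f t‖ := hf.norm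

private theorem ofn {F G : Type*} [NormedAddCommGroup F] [NormedSpace ℝ F] [NormedAddCommGroup G]
    [NormedSpace ℝ G] (A : F →L[ℝ] G) (r : ℝ) :
    ENNReal.ofReal (‖A‖ * r) = ‖A‖ₑ * ENNReal.ofReal r := by
  rw [ENNReal.ofReal_mul (norm_nonneg _), ofReal_norm]

theorem seg_bound (h : HLoc Φ) {x v : W n} (hne : ∀ t ∈ Icc (0 : ℝ) 1, x + t • v ≠ 0) {K : ℝ}
    (hK : ∫⁻ t in Icc (0 : ℝ) 1, ‖conn Φ (x + t • v)‖ₑ * ENNReal.ofReal ‖v‖ ≤ ENNReal.ofReal K)
    (hK0 : 0 ≤ K) (N : EndW n) :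
    ‖N * fderiv ℝ Φ (x + v)‖ ≤ ‖N * fderiv ℝ Φ x‖ * Real.exp K := by
  -- the coefficient, extended by constants
  set p : ℝ → ℝ := fun t => max 0 (min 1 t) with hp
  have hpc : Continuous p := by fun_prop
  have hpm : ∀ t, p t ∈ Icc (0 : ℝ) 1 := fun t =>
    ⟨le_max_left _ _, max_le zero_le_one (min_le_left _ _)⟩
  have hpe : ∀ t ∈ Icc (0 : ℝ) 1, p t = t := by
    intro t ht
    simp only [hp]
    rw [min_eq_right ht.2, max_eq_right ht.1]
  set k : ℝ → ℝ := fun t => ‖conn Φ (x + p t • v)‖ * ‖v‖ with hk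
  have hkc : Continuous k := by
    have h1 : Continuous fun t : ℝ => x + p t • v := continuous_const.add (hpc.smul continuous_const)
    have h2 : Continuous fun t : ℝ => conn Φ (x + p t • v) :=
      (continuousOn_conn h).comp_continuous h1 fun t => hne _ (hpm t)
    have h3 : Continuous fun t : ℝ => ‖conn Φ (x + p t • v)‖ := contn _ h2
    exact h3.mul continuous_const
  have hk0 : ∀ t, 0 ≤ k t := fun t => by positivity
  have hder : ∀ t ∈ Icc (0 : ℝ) 1, HasDerivAt (fun t : ℝ => N * fderiv ℝ Φ (x + t • v))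
      (N * fderiv ℝ (fderiv ℝ Φ) (x + t • v) v) t := by
    intro t ht
    have h1 := Hom46.hasFDerivAt_fderiv h (hne t ht)
    have h2 : HasDerivAt (fun t : ℝ => x + t • v) v t := by
      simpa using ((hasDerivAt_id t).smul_const v).const_add x
    have h3 : HasDerivAt (fun t : ℝ => fderiv ℝ Φ (x + t • v))
        (fderiv ℝ (fderiv ℝ Φ) (x + t • v) v) t := h1.comp_hasDerivAt t h2
    exact h3.const_mul N
  have hmain := gron (g := fun t : ℝ => N * fderiv ℝ Φ (x + t • v))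
    (g' := fun t : ℝ => N * fderiv ℝ (fderiv ℝ Φ) (x + t • v) v) (k := k) hkc
    (fun t ht => (hder t ht).continuousAt.continuousWithinAt)
    (fun t ht => (hder t (Ico_subset_Icc_self ht)).hasDerivWithinAt) ?_
  · simp only [one_smul, zero_smul, add_zero] at hmain
    refine hmain.trans (mul_le_mul_of_nonneg_left (Real.exp_le_exp.mpr ?_) (norm_nonneg _))
    rw [intervalIntegral.integral_of_le zero_le_one, ← integral_Icc_eq_integral_Ioc]
    have hint : IntegrableOn k (Icc (0 : ℝ) 1) := hkc.continuousOn.integrableOn_Icc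
    have h4 := ofReal_integral_eq_lintegral_ofReal hint (Filter.Eventually.of_forall hk0)
    have h5 : ∫⁻ t in Icc (0 : ℝ) 1, ENNReal.ofReal (k t) =
        ∫⁻ t in Icc (0 : ℝ) 1, ‖conn Φ (x + t • v)‖ₑ * ENNReal.ofReal ‖v‖ := by
      refine setLIntegral_congr_fun measurableSet_Icc fun t ht => ?_
      simp only [hk]
      rw [hpe t ht]
      exact ofn _ _
    rw [h5] at h4
    exact (ENNReal.ofReal_le_ofReal_iff hK0).mp (h4.le.trans hK)
  · intro t ht
    have ht' := Ico_subset_Icc_self ht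
    have h6 : fderiv ℝ (fderiv ℝ Φ) (x + t • v) v = fderiv ℝ Φ (x + t • v) * conn Φ (x + t • v) v := by
      rw [conn_apply, ← mul_assoc, Ring.mul_inverse_cancel _ (isUnit_fderiv h (hne t ht')), one_mul]
    have h7 : k t = ‖conn Φ (x + t • v)‖ * ‖v‖ := by
      simp only [hk]
      rw [hpe t ht']
    have h8 : N * fderiv ℝ (fderiv ℝ Φ) (x + t • v) v =
        N * fderiv ℝ Φ (x + t • v) * conn Φ (x + t • v) v := by rw [h6, mul_assoc]
    rw [h7, h8]
    refine (norm_mul_le _ _).trans (mul_le_mul_of_nonneg_left ?_ (norm_nonneg _))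
    exact ContinuousLinearMap.le_opNorm _ _

end Pool.Agent.Lib.P28c
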