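import Pool.Agent.Lib.P28c.FarA

set_option autoImplicit false

/-!
# Comparison of the matrices of two far points when the segment avoids `0`

PROOF. Let `B = closedBall (0 : W n) ρ`, `V = volume B`, `v = z' - z`, `‖v‖ ≤ 1`. For `u ∈ B`, `t ∈ [0, 1]` the point `z + u + t v` lies in
`ball 0 1` and is not `0`. Tonelli and translation invariance:
`∫_{u ∈ B} ∫_{t ∈ [0,1]} ‖conn Φ (z + u + t v)‖ ≤ ∫_{ball 0 1} ‖conn Φ‖ ≤ volume (ball 0 1) + ofReal E =: I`.
An averaging argument gives `u ∈ B` at which this inner integral is at most `K := 4 * I / V` and both matrices are within `1/4` of `dΦ`;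
`seg_bound` gives `‖M⁻¹ dΦ_{z'+u}‖ ≤ (5/4) exp K`, and `‖M⁻¹ M'‖ ≤ (5/3) exp K`.
-/

open MeasureTheory Set Metric
open scoped ENNReal ContDiff

namespace Pool.Agent.Lib.P28c

open Pool.Agent.P28b04d Pool.Agent.Lib.P28e

namespace FarBAux

variable {n : ℕ}

lemma shift (g : W n → ℝ≥0∞) (a : W n) (ρ : ℝ) :
    ∫⁻ u in closedBall (0 : W n) ρ, g (a + u) = ∫⁻ x in closedBall a ρ, g x := by
  rw [← lintegral_indicator measurableSet_closedBall, ← lintegral_indicator measurableSet_closedBall,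
    ← lintegral_add_left_eq_self (fun x => (closedBall a ρ).indicator g x) a]
  refine lintegral_congr fun u => ?_
  have e : a + u ∈ closedBall a ρ ↔ u ∈ closedBall (0 : W n) ρ := by
    simp [mem_closedBall, dist_eq_norm]
  by_cases h : u ∈ closedBall (0 : W n) ρ
  · rw [indicator_of_mem h, indicator_of_mem (e.mpr h)]
  · rw [indicator_of_notMem h, indicator_of_notMem fun h' => h (e.mp h')]

lemma le_one_add_pow (a : ℝ≥0∞) {k : ℕ} (hk : k ≠ 0) : a ≤ 1 + a ^ k := by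
  rcases le_total a 1 with h | h
  · exact h.trans le_self_add
  · exact (le_self_pow₀ h hk).trans le_add_self

lemma seg_norm {z z' : W n} (hz : ‖z‖ = 1 / 2) (hz' : ‖z'‖ = 1 / 2) {t : ℝ} (ht : t ∈ Icc (0 : ℝ) 1) :
    ‖z + t • (z' - z)‖ ≤ 1 / 2 := by
  have e : z + t • (z' - z) = (1 - t) • z + t • z' := by
    rw [smul_sub, sub_smul, one_smul]
    abel
  rw [e]
  refine (norm_add_le _ _).trans ?_
  rw [norm_smul, norm_smul, hz, hz', Real.norm_of_nonneg ht.1,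
    Real.norm_of_nonneg (by linarith [ht.2] : (0 : ℝ) ≤ 1 - t)]
  linarith

lemma mean_conn {Φ : W n → W n} (h : HLoc Φ) (hn : 1 ≤ n) {E ρ : ℝ}
    (hE : energy Φ ≤ ENNReal.ofReal E) (hρ1 : ρ ≤ 1 / 8) {z z' : W n}
    (hz : ‖z‖ = 1 / 2) (hz' : ‖z'‖ = 1 / 2) :
    ∫⁻ u in closedBall (0 : W n) ρ, ∫⁻ t in Icc (0 : ℝ) 1, ‖conn Φ (z + u + t • (z' - z))‖ₑ ≤
      volume (ball (0 : W n) 1) + ENNReal.ofReal E := by
  have hG := measurable_conn h
  have hmeas : Measurable (Function.uncurry fun (u : W n) (t : ℝ) =>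
      ‖conn Φ (z + u + t • (z' - z))‖ₑ) := by
    refine hG.comp ?_
    exact ((measurable_const.add measurable_fst).add (measurable_snd.smul measurable_const))
  rw [lintegral_lintegral_swap hmeas.aemeasurable]
  have hinner : ∀ t ∈ Icc (0 : ℝ) 1, ∫⁻ u in closedBall (0 : W n) ρ,
      ‖conn Φ (z + u + t • (z' - z))‖ₑ ≤ volume (ball (0 : W n) 1) + ENNReal.ofReal E := by
    intro t ht
    have e1 : ∫⁻ u in closedBall (0 : W n) ρ, ‖conn Φ (z + u + t • (z' - z))‖ₑ =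
        ∫⁻ x in closedBall (z + t • (z' - z)) ρ, ‖conn Φ x‖ₑ := by
      rw [← shift (fun x => ‖conn Φ x‖ₑ)]
      refine lintegral_congr fun u => ?_
      congr 2
      abel
    rw [e1]
    have hsub : closedBall (z + t • (z' - z)) ρ ⊆ ball (0 : W n) 1 := by
      intro x hx
      rw [mem_closedBall, dist_eq_norm] at hx
      rw [mem_ball_zero_iff]
      have h1 := seg_norm hz hz' ht
      have h2 : ‖x‖ ≤ ‖x - (z + t • (z' - z))‖ + ‖z + t • (z' - z)‖ := by
        have := norm_add_le (x - (z + t • (z' - z))) (z + t • (z' - z))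
        rwa [sub_add_cancel] at this
      linarith
    refine (lintegral_mono_set hsub).trans ?_
    calc ∫⁻ x in ball (0 : W n) 1, ‖conn Φ x‖ₑ
        ≤ ∫⁻ x in ball (0 : W n) 1, (1 + ‖conn Φ x‖ₑ ^ (2 * n)) :=
          lintegral_mono fun x => le_one_add_pow _ (by omega)
      _ = volume (ball (0 : W n) 1) + energy Φ := by
          rw [lintegral_add_left measurable_const]
          simp [energy]
      _ ≤ _ := by gcongr
  calc ∫⁻ t in Icc (0 : ℝ) 1, ∫⁻ u in closedBall (0 : W n) ρ, ‖conn Φ (z + u + t • (z' - z))‖ₑ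
      ≤ ∫⁻ _t in Icc (0 : ℝ) 1, (volume (ball (0 : W n) 1) + ENNReal.ofReal E) :=
        setLIntegral_mono' measurableSet_Icc hinner
    _ = _ := by
        rw [setLIntegral_const, Real.volume_Icc]
        simp

end FarBAux

open FarBAux in
theorem far_seg (n : ℕ) (hn : 1 ≤ n) {E ρ : ℝ} (hE : 0 ≤ E) (hρ : 0 < ρ) (hρ1 : ρ ≤ 1 / 8) :
    ∃ Λ : ℝ, 1 ≤ Λ ∧ ∀ Φ : W n → W n, HLoc Φ → energy Φ ≤ ENNReal.ofReal E →
      ∀ z z' : W n, ‖z‖ = 1 / 2 → ‖z'‖ = 1 / 2 →
      (∀ t ∈ Icc (0 : ℝ) 1, 2 * ρ ≤ ‖z + t • (z' - z)‖) →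
      ∀ M M' : (EndW n)ˣ, Good Φ z ρ (1 / 16) M → Good Φ z' ρ (1 / 16) M' →
        ‖(↑M⁻¹ : EndW n) * (M' : EndW n)‖ ≤ Λ := by
  -- the constants
  have hVpos : 0 < volume (closedBall (0 : W n) ρ) := measure_closedBall_pos volume 0 hρ
  have hVfin : volume (closedBall (0 : W n) ρ) ≠ ⊤ := measure_closedBall_lt_top.ne
  have hJpos : 0 < volume (ball (0 : W n) 1) := measure_ball_pos volume 0 one_pos
  have hJfin : volume (ball (0 : W n) 1) ≠ ⊤ := measure_ball_lt_top.ne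
  set V' : ℝ := (volume (closedBall (0 : W n) ρ)).toReal with hV'
  set J' : ℝ := (volume (ball (0 : W n) 1)).toReal with hJ'
  have hV0 : 0 < V' := ENNReal.toReal_pos hVpos.ne' hVfin
  have hJ0 : 0 < J' := ENNReal.toReal_pos hJpos.ne' hJfin
  have hV : volume (closedBall (0 : W n) ρ) = ENNReal.ofReal V' := (ENNReal.ofReal_toReal hVfin).symm
  have hJ : volume (ball (0 : W n) 1) = ENNReal.ofReal J' := (ENNReal.ofReal_toReal hJfin).symm
  set K : ℝ := 4 * (J' + E) / V' with hK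
  have hK0 : 0 < K := by positivity
  refine ⟨5 / 3 * Real.exp K, ?_, ?_⟩
  · have := Real.one_le_exp hK0.le
    linarith
  intro Φ hΦ hEn z z' hz hz' hseg M M' hM hM'
  -- a good translation
  obtain ⟨u, huB, hu1, hu2, hu3⟩ : ∃ u ∈ closedBall (0 : W n) ρ,
      ‖(↑M⁻¹ : EndW n) * fderiv ℝ Φ (z + u) - 1‖ ≤ 1 / 4 ∧
      ‖(↑M'⁻¹ : EndW n) * fderiv ℝ Φ (z' + u) - 1‖ ≤ 1 / 4 ∧
      ∫⁻ t in Icc (0 : ℝ) 1, ‖conn Φ (z + u + t • (z' - z))‖ₑ ≤ ENNReal.ofReal K := by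
    by_contra hcon
    push Not at hcon
    have hlow : ∀ u ∈ closedBall (0 : W n) ρ, (1 : ℝ≥0∞) ≤
        4 * ‖(↑M⁻¹ : EndW n) * fderiv ℝ Φ (z + u) - 1‖ₑ +
        (4 * ‖(↑M'⁻¹ : EndW n) * fderiv ℝ Φ (z' + u) - 1‖ₑ +
        (ENNReal.ofReal K)⁻¹ * ∫⁻ t in Icc (0 : ℝ) 1, ‖conn Φ (z + u + t • (z' - z))‖ₑ) := by
      intro u hu
      have h4 : ∀ a : ℝ, 1 / 4 < a → (1 : ℝ≥0∞) ≤ 4 * ENNReal.ofReal a := by
        intro a ha
        have : (4 : ℝ≥0∞) = ENNReal.ofReal 4 := by simp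
        rw [this, ← ENNReal.ofReal_mul (by norm_num), ← ENNReal.ofReal_one]
        exact ENNReal.ofReal_le_ofReal (by linarith)
      by_cases h1 : ‖(↑M⁻¹ : EndW n) * fderiv ℝ Φ (z + u) - 1‖ ≤ 1 / 4
      · by_cases h2 : ‖(↑M'⁻¹ : EndW n) * fderiv ℝ Φ (z' + u) - 1‖ ≤ 1 / 4
        · have h3 := hcon u hu h1 h2
          refine le_trans ?_ (le_add_self.trans le_add_self)
          calc (1 : ℝ≥0∞) = (ENNReal.ofReal K)⁻¹ * ENNReal.ofReal K :=
                (ENNReal.inv_mul_cancel (by simpa using hK0) ENNReal.ofReal_ne_top).symm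
            _ ≤ _ := by gcongr
        · refine le_trans ?_ (le_self_add.trans le_add_self)
          rw [← ofReal_norm]
          exact h4 _ (not_le.mp h2)
      · refine le_trans ?_ le_self_add
        rw [← ofReal_norm]
        exact h4 _ (not_le.mp h1)
    have hint : volume (closedBall (0 : W n) ρ) ≤ ∫⁻ u in closedBall (0 : W n) ρ,
        (4 * ‖(↑M⁻¹ : EndW n) * fderiv ℝ Φ (z + u) - 1‖ₑ +
        (4 * ‖(↑M'⁻¹ : EndW n) * fderiv ℝ Φ (z' + u) - 1‖ₑ +
        (ENNReal.ofReal K)⁻¹ * ∫⁻ t in Icc (0 : ℝ) 1, ‖conn Φ (z + u + t • (z' - z))‖ₑ)) := by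
      have := setLIntegral_mono' (μ := volume) measurableSet_closedBall hlow
      rwa [setLIntegral_const, one_mul] at this
    have hm1 : Measurable fun u : W n => ‖(↑M⁻¹ : EndW n) * fderiv ℝ Φ (z + u) - 1‖ₑ :=
      (measurable_fderiv_sub hΦ _).comp (measurable_const.add measurable_id)
    have hm2 : Measurable fun u : W n => ‖(↑M'⁻¹ : EndW n) * fderiv ℝ Φ (z' + u) - 1‖ₑ :=
      (measurable_fderiv_sub hΦ _).comp (measurable_const.add measurable_id)
    have hKinv : (ENNReal.ofReal K)⁻¹ ≠ ⊤ := by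
      simpa using hK0
    rw [lintegral_add_left (hm1.const_mul 4), lintegral_add_left (hm2.const_mul 4),
      lintegral_const_mul' _ _ (by simp : (4 : ℝ≥0∞) ≠ ⊤),
      lintegral_const_mul' _ _ (by simp : (4 : ℝ≥0∞) ≠ ⊤), lintegral_const_mul' _ _ hKinv,
      shift (fun x => ‖(↑M⁻¹ : EndW n) * fderiv ℝ Φ x - 1‖ₑ) z ρ,
      shift (fun x => ‖(↑M'⁻¹ : EndW n) * fderiv ℝ Φ x - 1‖ₑ) z' ρ] at hint
    have hv1 : volume (closedBall z ρ) = ENNReal.ofReal V' := by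
      rw [← hV, Measure.addHaar_closedBall _ _ hρ.le, Measure.addHaar_closedBall _ _ hρ.le]
    have hv2 : volume (closedBall z' ρ) = ENNReal.ofReal V' := by
      rw [← hV, Measure.addHaar_closedBall _ _ hρ.le, Measure.addHaar_closedBall _ _ hρ.le]
    have hb1 : ∫⁻ x in closedBall z ρ, ‖(↑M⁻¹ : EndW n) * fderiv ℝ Φ x - 1‖ₑ ≤
        ENNReal.ofReal (1 / 16) * ENNReal.ofReal V' := by
      rw [← hv1]
      exact hM
    have hb2 : ∫⁻ x in closedBall z' ρ, ‖(↑M'⁻¹ : EndW n) * fderiv ℝ Φ x - 1‖ₑ ≤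
        ENNReal.ofReal (1 / 16) * ENNReal.ofReal V' := by
      rw [← hv2]
      exact hM'
    have hb3 := mean_conn hΦ hn hEn hρ1 hz hz'
    rw [hJ, ← ENNReal.ofReal_add hJ0.le hE] at hb3
    have hfin : ENNReal.ofReal V' ≤ 4 * (ENNReal.ofReal (1 / 16) * ENNReal.ofReal V') +
        (4 * (ENNReal.ofReal (1 / 16) * ENNReal.ofReal V') +
        (ENNReal.ofReal K)⁻¹ * ENNReal.ofReal (J' + E)) := by
      rw [hV] at hint
      refine hint.trans ?_
      gcongr
    have e4 : (4 : ℝ≥0∞) = ENNReal.ofReal 4 := by simp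
    rw [e4, ← ENNReal.ofReal_inv_of_pos hK0, ← ENNReal.ofReal_mul (by norm_num),
      ← ENNReal.ofReal_mul (by norm_num), ← ENNReal.ofReal_mul (by positivity),
      ← ENNReal.ofReal_add (by positivity) (by positivity),
      ← ENNReal.ofReal_add (by positivity) (by positivity),
      ENNReal.ofReal_le_ofReal_iff (by positivity)] at hfin
    have hKJ : K⁻¹ * (J' + E) = V' / 4 := by
      rw [hK]
      have : J' + E ≠ 0 := by positivity
      field_simp
    rw [hKJ] at hfin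
    linarith
  -- the segment
  have hu : ‖u‖ ≤ ρ := by simpa using huB
  have hne : ∀ t ∈ Icc (0 : ℝ) 1, z + u + t • (z' - z) ≠ 0 := by
    intro t ht h0
    have h1 := hseg t ht
    have h2 : z + t • (z' - z) = -u := by
      rw [eq_neg_iff_add_eq_zero, ← h0]
      abel
    rw [h2, norm_neg] at h1
    linarith
  have hv : ‖z' - z‖ ≤ 1 := by
    refine (norm_sub_le _ _).trans ?_
    rw [hz, hz']
    norm_num
  have hsb := seg_bound hΦ (x := z + u) (v := z' - z) hne (K := K) ?_ hK0.le (↑M⁻¹ : EndW n)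
  · have e5 : z + u + (z' - z) = z' + u := by abel
    rw [e5] at hsb
    set w : EndW n := (↑M⁻¹ : EndW n) * fderiv ℝ Φ (z + u) with hw
    set w' : EndW n := (↑M'⁻¹ : EndW n) * fderiv ℝ Φ (z' + u) with hw'
    set P : EndW n := (↑M⁻¹ : EndW n) * (M' : EndW n) with hP
    have e6 : P * w' = (↑M⁻¹ : EndW n) * fderiv ℝ Φ (z' + u) := by
      rw [hP, hw', mul_assoc, ← mul_assoc (M' : EndW n), M'.mul_inv, one_mul]
    have h1 : ‖w‖ ≤ 5 / 4 := by
      have h2 : ‖w‖ ≤ ‖w - 1‖ + ‖(1 : EndW n)‖ := by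
        have := norm_add_le (w - 1) 1
        rwa [sub_add_cancel] at this
      have h3 : ‖(1 : EndW n)‖ ≤ 1 := ContinuousLinearMap.norm_id_le
      linarith
    have h2 : ‖P * w'‖ ≤ 5 / 4 * Real.exp K := by
      rw [e6]
      exact hsb.trans (mul_le_mul_of_nonneg_right h1 (Real.exp_pos _).le)
    have h3 : ‖P‖ ≤ ‖P * w'‖ + ‖P‖ * ‖w' - 1‖ := by
      have e7 : P = P * w' - P * (w' - 1) := by
        rw [mul_sub, mul_one]
        abel
      calc ‖P‖ = ‖P * w' - P * (w' - 1)‖ := by rw [← e7]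
        _ ≤ ‖P * w'‖ + ‖P * (w' - 1)‖ := norm_sub_le _ _
        _ ≤ _ := by
          have := norm_mul_le P (w' - 1)
          linarith
    have h4 : ‖P‖ * ‖w' - 1‖ ≤ ‖P‖ * (1 / 4) := mul_le_mul_of_nonneg_left hu2 (norm_nonneg _)
    linarith
  · refine le_trans ?_ hu3
    refine lintegral_mono fun t => ?_
    have h1 : ENNReal.ofReal ‖z' - z‖ ≤ 1 := by
      rw [← ENNReal.ofReal_one]
      exact ENNReal.ofReal_le_ofReal hv
    exact mul_le_of_le_one_right' h1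

end Pool.Agent.Lib.P28c
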