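import Pool.Agent.Lib.P28c.Defs

set_option autoImplicit false

/-!
# The Frobenius distance on CP^n and the cones

PROOF SKETCH. `fd P Q = ‖toLp 2 (fun p : Fin (n+1) × Fin (n+1) => P p.1 p.2 - Q p.1 p.2)‖` (`EuclideanSpace.norm_eq`,
`Fintype.sum_prod_type`), hence symmetry and triangle inequality.
`fd_pt_sq`: for `z, w ≠ 0`: `fd (pt z) (pt w) ^ 2 = 2 - 2 * normSq (hip z w) / (nsq z * nsq w)`, `hip z w = ∑ conj (z k) * w k` (expand:
`∑_ij |z_i|²|z_j|²/nsq z² = 1`, the cross term is `Re (∑_ij z_i conj z_j conj w_i w_j) = normSq (hip z w)`).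
`fd_pt_le`: `nsq z * nsq w - normSq (hip z w) ≤ nsq z * nsq (w - z)` because `nsq (w - z) = nsq w - 2 Re (hip z w) + nsq z` and
`RHS - LHS = normSq (nsq z - hip z w) ≥ 0`; so `fd² ≤ 2 nsq (w - z) / nsq w`, `nsq v = rad v ^ 2`, `‖v‖ ≤ rad v ≤ (n+1) ‖v‖`
(`norm_le_rad`, `rad_le`).
`contDiffOn_fd_sq`: composition of the polynomial `∑∑ normSq (Q i j - P i j)` with `pt` (`contDiffAt_pt`).
`measurableSet_PB`: `{x | fd (pt x) P < s}`; `pt` is measurable (coordinatewise a quotient of continuous functions), `fd` is continuous.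
`exists_net`: a finite net of the sphere `{‖z‖ = 1}`, mapped by `pt` (`fd_pt_le`, `pt_smul`).
`exists_netW`: finite `δ`-net of the sphere of radius `1/2` (compact).
-/

open MeasureTheory Set Metric
open scoped ENNReal ContDiff

namespace Pool.Agent.Lib.P28c

open Pool.Agent.P28b04d Pool.Agent.Lib.P28e

variable {n : ℕ}

namespace FdAux

theorem fd_sq (P Q : Mat n) : fd P Q ^ 2 = ∑ i, ∑ j, Complex.normSq (P i j - Q i j) :=
  Real.sq_sqrt (Finset.sum_nonneg fun _ _ => Finset.sum_nonneg fun _ _ => Complex.normSq_nonneg _)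

theorem fd_eq_norm (P Q : Mat n) : fd P Q =
    ‖(WithLp.toLp 2 (fun p : Fin (n + 1) × Fin (n + 1) => P p.1 p.2 - Q p.1 p.2) :
      EuclideanSpace ℂ (Fin (n + 1) × Fin (n + 1)))‖ := by
  rw [EuclideanSpace.norm_eq, Fintype.sum_prod_type]
  unfold fd
  simp only [Complex.normSq_eq_norm_sq]

theorem sum_normSq_pt {z : W n} (hz : z ≠ 0) : ∑ i, ∑ j, Complex.normSq (pt z i j) = 1 := by
  have hN := nsq_pos hz
  have e : ∀ i j, Complex.normSq (pt z i j) =
      Complex.normSq (z i) * Complex.normSq (z j) / (nsq z * nsq z) := by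
    intro i j
    unfold pt
    rw [Complex.normSq_div, Complex.normSq_mul, Complex.normSq_ofReal]
    congr 2
    exact Complex.normSq_conj _
  simp only [e, ← Finset.sum_div, ← Finset.mul_sum, ← Finset.sum_mul]
  have : ∑ i, Complex.normSq (z i) = nsq z := rfl
  rw [this]
  exact div_self (mul_pos hN hN).ne'

theorem sum_cross {z w : W n} (hz : z ≠ 0) (hw : w ≠ 0) :
    ∑ i, ∑ j, (pt z i j * (starRingEnd ℂ) (pt w i j)).re =
      Complex.normSq (hip z w) / (nsq z * nsq w) := by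
  have hN := nsq_pos hz
  have hM := nsq_pos hw
  have e : ∀ i j, pt z i j * (starRingEnd ℂ) (pt w i j) =
      (z i * star (w i)) * (star (z j) * w j) / ((nsq z : ℂ) * (nsq w : ℂ)) := by
    intro i j
    unfold pt
    rw [map_div₀, map_mul, Complex.conj_ofReal]
    have h1 : (starRingEnd ℂ) (w i) = star (w i) := rfl
    have h2 : (starRingEnd ℂ) (star (w j)) = w j := star_star _
    rw [h1, h2, div_mul_div_comm]
    congr 1
    ring
  have e2 : ∑ i, ∑ j, pt z i j * (starRingEnd ℂ) (pt w i j) =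
      ((Complex.normSq (hip z w) / (nsq z * nsq w) : ℝ) : ℂ) := by
    simp only [e, ← Finset.sum_div, ← Finset.mul_sum, ← Finset.sum_mul]
    have h3 : ∑ i, z i * star (w i) = star (hip z w) := by
      unfold hip
      rw [star_sum]
      refine Finset.sum_congr rfl fun i _ => ?_
      rw [star_mul', star_star]
    have h4 : ∑ j, star (z j) * w j = hip z w := rfl
    rw [h3, h4]
    push_cast
    congr 1
    rw [Complex.normSq_eq_conj_mul_self]
    rfl
  have e3 : ∑ i, ∑ j, (pt z i j * (starRingEnd ℂ) (pt w i j)).re =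
      (∑ i, ∑ j, pt z i j * (starRingEnd ℂ) (pt w i j)).re := by
    simp only [Complex.re_sum]
  rw [e3, e2, Complex.ofReal_re]

theorem fd_pt_sq {z w : W n} (hz : z ≠ 0) (hw : w ≠ 0) :
    fd (pt z) (pt w) ^ 2 = 2 - 2 * (Complex.normSq (hip z w) / (nsq z * nsq w)) := by
  rw [fd_sq]
  simp only [Complex.normSq_sub, Finset.sum_sub_distrib, Finset.sum_add_distrib,
    ← Finset.mul_sum]
  rw [sum_normSq_pt hz, sum_normSq_pt hw, sum_cross hz hw]
  ring

theorem nsq_sub (z w : W n) : nsq (w - z) = nsq w - 2 * (hip z w).re + nsq z := by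
  unfold nsq hip
  rw [Complex.re_sum]
  simp only [Pi.sub_apply, Complex.normSq_sub, Finset.sum_sub_distrib, Finset.sum_add_distrib,
    ← Finset.mul_sum]
  have : ∑ i, (w i * (starRingEnd ℂ) (z i)).re = ∑ i, (star (z i) * w i).re := by
    refine Finset.sum_congr rfl fun i _ => ?_
    rw [mul_comm]
    rfl
  rw [this]
  ring

theorem key_ineq (z w : W n) :
    nsq z * nsq w - Complex.normSq (hip z w) ≤ nsq z * nsq (w - z) := by
  rw [nsq_sub]
  have h := Complex.normSq_nonneg ((nsq z : ℂ) - hip z w)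
  rw [Complex.normSq_sub, Complex.normSq_ofReal] at h
  have h2 : ((nsq z : ℂ) * (starRingEnd ℂ) (hip z w)).re = nsq z * (hip z w).re := by
    rw [Complex.re_ofReal_mul, Complex.conj_re]
  rw [h2] at h
  nlinarith

theorem rad_sq (z : W n) : rad z ^ 2 = nsq z :=
  Real.sq_sqrt (Finset.sum_nonneg fun _ _ => Complex.normSq_nonneg _)

theorem measurable_fd_pt (P : Mat n) : Measurable (fun x : W n => fd (pt x) P) := by
  unfold fd
  have hpt : ∀ i j, Measurable (fun x : W n => pt x i j) := by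
    intro i j
    unfold pt
    have h1 : Measurable (fun x : W n => ((nsq x : ℝ) : ℂ)) :=
      (Complex.continuous_ofReal.comp contDiff_nsq.continuous).measurable
    have h2 : Measurable (fun x : W n => x i * star (x j)) := by
      apply Continuous.measurable
      fun_prop
    exact h2.div h1
  apply Measurable.sqrt
  refine Finset.measurable_sum _ fun i _ => Finset.measurable_sum _ fun j _ => ?_
  exact Complex.continuous_normSq.measurable.comp ((hpt i j).sub_const _)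

theorem sphere_net (n : ℕ) {r δ : ℝ} (hδ : 0 < δ) : ∃ N : Finset (W n), (∀ g ∈ N, ‖g‖ = r) ∧
    ∀ w : W n, ‖w‖ = r → ∃ g ∈ N, ‖w - g‖ ≤ δ := by
  have hc : IsCompact (sphere (0 : W n) r) := isCompact_sphere _ _
  obtain ⟨t, hts, htf, ht⟩ := hc.finite_cover_balls hδ
  refine ⟨htf.toFinset, fun g hg => ?_, fun w hw => ?_⟩
  · exact mem_sphere_zero_iff_norm.1 (hts (htf.mem_toFinset.1 hg))
  · have h1 := ht (mem_sphere_zero_iff_norm.2 hw)
    simp only [mem_iUnion, mem_ball, exists_prop] at h1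
    obtain ⟨g, hg, h2⟩ := h1
    exact ⟨g, htf.mem_toFinset.2 hg, by rw [← dist_eq_norm]; exact h2.le⟩

end FdAux

open FdAux

theorem fd_nonneg (P Q : Mat n) : 0 ≤ fd P Q := Real.sqrt_nonneg _

theorem fd_self (P : Mat n) : fd P P = 0 := by
  unfold fd
  simp

theorem fd_comm (P Q : Mat n) : fd P Q = fd Q P := by
  rw [fd_eq_norm, fd_eq_norm, ← norm_neg]
  congr 1
  ext p
  simp

theorem fd_triangle (P Q R : Mat n) : fd P R ≤ fd P Q + fd Q R := by
  rw [fd_eq_norm, fd_eq_norm, fd_eq_norm]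
  refine le_trans (le_of_eq ?_) (norm_add_le _ _)
  congr 1
  ext p
  simp

theorem fd_pt_le {z w : W n} (hz : z ≠ 0) (hw : w ≠ 0) :
    fd (pt z) (pt w) ≤ 2 * ((n : ℝ) + 1) * ‖z - w‖ / ‖w‖ := by
  have hw0 : 0 < ‖w‖ := norm_pos_iff.2 hw
  have hN := nsq_pos hz
  have hM := nsq_pos hw
  have h1 : fd (pt z) (pt w) ^ 2 ≤ 2 * (nsq (w - z) / nsq w) := by
    rw [fd_pt_sq hz hw]
    have h2 := key_ineq z w
    have h3 : 1 - Complex.normSq (hip z w) / (nsq z * nsq w) ≤ nsq (w - z) / nsq w := by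
      have h4 : 1 - Complex.normSq (hip z w) / (nsq z * nsq w) =
          (nsq z * nsq w - Complex.normSq (hip z w)) / (nsq z * nsq w) := by
        field_simp
      have h5 : nsq (w - z) / nsq w = (nsq z * nsq (w - z)) / (nsq z * nsq w) := by
        field_simp
      rw [h4, h5]
      exact div_le_div_of_nonneg_right h2 (by positivity)
    linarith
  have h6 : nsq (w - z) ≤ (((n : ℝ) + 1) * ‖z - w‖) ^ 2 := by
    rw [← rad_sq, norm_sub_rev z w]
    exact pow_le_pow_left₀ (Real.sqrt_nonneg _) (rad_le _) 2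
  have h7 : ‖w‖ ^ 2 ≤ nsq w := by
    rw [← rad_sq]
    exact pow_le_pow_left₀ (norm_nonneg _) (norm_le_rad _) 2
  have h8 : fd (pt z) (pt w) ^ 2 ≤ (2 * ((n : ℝ) + 1) * ‖z - w‖ / ‖w‖) ^ 2 := by
    refine h1.trans ?_
    calc 2 * (nsq (w - z) / nsq w) ≤ 2 * ((((n : ℝ) + 1) * ‖z - w‖) ^ 2 / ‖w‖ ^ 2) := by
          refine mul_le_mul_of_nonneg_left ?_ (by norm_num)
          exact div_le_div₀ (by positivity) h6 (by positivity) h7
      _ ≤ 4 * ((((n : ℝ) + 1) * ‖z - w‖) ^ 2 / ‖w‖ ^ 2) := by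
          have : 0 ≤ (((n : ℝ) + 1) * ‖z - w‖) ^ 2 / ‖w‖ ^ 2 := by positivity
          linarith
      _ = (2 * ((n : ℝ) + 1) * ‖z - w‖ / ‖w‖) ^ 2 := by
          field_simp
          ring
  exact le_of_sq_le_sq h8 (by positivity)

theorem contDiffOn_fd_sq (P : Mat n) : ContDiffOn ℝ ∞ (fun z : W n => fd (pt z) P ^ 2) {0}ᶜ := by
  intro z hz
  apply ContDiffAt.contDiffWithinAt
  have e : (fun z : W n => fd (pt z) P ^ 2) =
      (fun Q : Mat n => ∑ i, ∑ j, ((Q i j - P i j).re * (Q i j - P i j).re +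
        (Q i j - P i j).im * (Q i j - P i j).im)) ∘ pt := by
    funext z
    rw [fd_sq]
    simp only [Complex.normSq_apply, Function.comp]
  rw [e]
  have h1 : ContDiff ℝ ∞ (fun Q : Mat n => ∑ i, ∑ j, ((Q i j - P i j).re * (Q i j - P i j).re +
        (Q i j - P i j).im * (Q i j - P i j).im)) := by
    refine ContDiff.sum fun i _ => ContDiff.sum fun j _ => ?_
    have h2 : ContDiff ℝ ∞ (fun Q : Mat n => Q i j - P i j) :=
      (contDiff_apply_apply ℝ ℂ i j).sub contDiff_const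
    have h3 : ContDiff ℝ ∞ (fun Q : Mat n => (Q i j - P i j).re) :=
      Complex.reCLM.contDiff.comp h2
    have h4 : ContDiff ℝ ∞ (fun Q : Mat n => (Q i j - P i j).im) :=
      Complex.imCLM.contDiff.comp h2
    exact (h3.mul h3).add (h4.mul h4)
  exact h1.contDiffAt.comp z (contDiffAt_pt hz)

theorem measurableSet_PB (P : Mat n) (s : ℝ) : MeasurableSet (PB P s) :=
  measurableSet_lt (measurable_fd_pt P) measurable_const

theorem exists_net (n : ℕ) {t : ℝ} (ht : 0 < t) : ∃ N : Finset (Mat n), (∀ p ∈ N, p ∈ CP n) ∧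
    ∀ z : W n, z ≠ 0 → ∃ p ∈ N, fd (pt z) p ≤ t := by
  classical
  have hn : 0 < 2 * ((n : ℝ) + 1) := by positivity
  obtain ⟨N, hN1, hN2⟩ := sphere_net n (r := 1) (div_pos ht hn)
  refine ⟨N.image pt, fun p hp => ?_, fun z hz => ?_⟩
  · obtain ⟨g, hg, rfl⟩ := Finset.mem_image.1 hp
    apply pt_mem
    intro h
    have := hN1 g hg
    rw [h, norm_zero] at this
    exact zero_ne_one this
  · have hz0 : 0 < ‖z‖ := norm_pos_iff.2 hz
    have hc : ((‖z‖⁻¹ : ℝ) : ℂ) ≠ 0 := by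
      exact_mod_cast (inv_pos.2 hz0).ne'
    set y : W n := ((‖z‖⁻¹ : ℝ) : ℂ) • z with hy
    have hy1 : ‖y‖ = 1 := by
      rw [hy, norm_smul, Complex.norm_real, norm_inv, norm_norm, inv_mul_cancel₀ hz0.ne']
    have hy0 : y ≠ 0 := by
      intro h
      rw [h, norm_zero] at hy1
      exact zero_ne_one hy1
    obtain ⟨g, hg, h1⟩ := hN2 y hy1
    have hg1 := hN1 g hg
    have hg0 : g ≠ 0 := by
      intro h
      rw [h, norm_zero] at hg1
      exact zero_ne_one hg1
    refine ⟨pt g, Finset.mem_image_of_mem _ hg, ?_⟩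
    rw [← pt_smul hc z, ← hy]
    refine (fd_pt_le hy0 hg0).trans ?_
    rw [hg1, div_one]
    calc 2 * ((n : ℝ) + 1) * ‖y - g‖ ≤ 2 * ((n : ℝ) + 1) * (t / (2 * ((n : ℝ) + 1))) :=
          mul_le_mul_of_nonneg_left h1 hn.le
      _ = t := by field_simp

theorem exists_netW (n : ℕ) {δ : ℝ} (hδ : 0 < δ) : ∃ N : Finset (W n), (∀ g ∈ N, ‖g‖ = 1 / 2) ∧
    ∀ w : W n, ‖w‖ = 1 / 2 → ∃ g ∈ N, ‖w - g‖ ≤ δ :=
  sphere_net n hδ

end Pool.Agent.Lib.P28c
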