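import Pool.Agent.Lib.P28c.Defs

set_option autoImplicit false

/-!
# Finite representative systems

PROOF. The image of `S` under `D` lies in a closed ball of a finite-dimensional space, so it is totally bounded.
-/

open Set Metric

namespace Pool.Agent.Lib.P28c

theorem pack {X V : Type*} [NormedAddCommGroup V] [NormedSpace ℝ V] [FiniteDimensional ℝ V]
    (S : Set X) (D : X → V) {B η : ℝ} (hB : ∀ x ∈ S, ‖D x‖ ≤ B) (hη : 0 < η) :
    ∃ T : Set X, T ⊆ S ∧ T.Finite ∧ ∀ x ∈ S, ∃ y ∈ T, ‖D x - D y‖ ≤ η := by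
  haveI : ProperSpace V := FiniteDimensional.proper ℝ V
  have htb : TotallyBounded (D '' S) := by
    refine (isCompact_closedBall (0 : V) B).totallyBounded.subset ?_
    rintro _ ⟨x, hx, rfl⟩
    rw [mem_closedBall_zero_iff]
    exact hB x hx
  obtain ⟨t, hts, htf, ht⟩ := totallyBounded_iff_subset.mp htb _ (dist_mem_uniformity hη)
  obtain ⟨T, hTS, hTf, hTt⟩ : ∃ T : Set X, T ⊆ S ∧ T.Finite ∧ D '' T = t :=
    (exists_subset_image_finite_and).mp ⟨t, hts, htf, rfl⟩ |>.elim fun T h => ⟨T, h.1, h.2.1, h.2.2.symm⟩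
  refine ⟨T, hTS, hTf, fun x hx => ?_⟩
  have hxm := ht (mem_image_of_mem D hx)
  rw [mem_iUnion₂] at hxm
  obtain ⟨y, hy, hxy⟩ := hxm
  rw [← hTt] at hy
  obtain ⟨y', hy', rfl⟩ := hy
  refine ⟨y', hy', ?_⟩
  have : dist (D x) (D y') < η := hxy
  rw [← dist_eq_norm]
  exact this.le

end Pool.Agent.Lib.P28c
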