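import Pool.Agent.Lib.P28c.Defs

set_option autoImplicit false

/-!
# Comparison of the matrices of two near points, at comparable scales

PROOF SKETCH. Copy `ChnAux.local_step` (file `Pool/Agent/Lib/P28e/Chn.lean`): with `m = min ρ ρ'` the ball `B = closedBall z (m / 2)` is contained in
`closedBall z ρ` and in `closedBall z' ρ'` (`‖z - z'‖ ≤ m / 2`), and the volumes of these balls are at most `(2 K)^N * volume B`, `N = finrank = 2 n + 2`
(`ρ, ρ' ≤ K m`). With `δ = τ / (4 * (2 K)^N)` there is a point `x ∈ B` with `‖M⁻¹ dΦ_x - 1‖ ≤ τ` and `‖M'⁻¹ dΦ_x - 1‖ ≤ τ`; conclude with `ChnAux.alg_step`.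
-/

open MeasureTheory Set Metric
open scoped ENNReal ContDiff

namespace Pool.Agent.Lib.P28c

open Pool.Agent.P28b04d Pool.Agent.Lib.P28e

theorem near (n : ℕ) {K τ : ℝ} (hK : 1 ≤ K) (hτ : 0 < τ) (hτ2 : τ ≤ 1 / 2) : ∃ δ : ℝ, 0 < δ ∧
    ∀ Φ : W n → W n, HLoc Φ → ∀ (z z' : W n) (ρ ρ' : ℝ), 0 < ρ → 0 < ρ' → ρ ≤ K * ρ' →
      ρ' ≤ K * ρ → 2 * ‖z - z'‖ ≤ ρ → 2 * ‖z - z'‖ ≤ ρ' → ∀ M M' : (EndW n)ˣ,
      Good Φ z ρ δ M → Good Φ z' ρ' δ M' →
        ‖(↑M⁻¹ : EndW n) * (M' : EndW n) - 1‖ ≤ 4 * τ := by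
  set N := Module.finrank ℝ (W n) with hN
  have hK0 : 0 < K := by linarith
  refine ⟨τ / (4 * (2 * K) ^ N), by positivity, fun Φ hΦ z z' ρ ρ' hρ hρ' hρρ' hρ'ρ hz1 hz2 M M'
    hM hM' => ?_⟩
  set δ : ℝ := τ / (4 * (2 * K) ^ N) with hδ
  set m : ℝ := min ρ ρ' with hm
  have hm0 : 0 < m := lt_min hρ hρ'
  have hmρ : m ≤ ρ := min_le_left _ _
  have hmρ' : m ≤ ρ' := min_le_right _ _
  have hzm : 2 * ‖z - z'‖ ≤ m := le_min hz1 hz2
  have hρm : ρ ≤ K * m := by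
    rw [hm, mul_min_of_nonneg _ _ hK0.le]
    refine le_min ?_ hρρ'
    nlinarith
  have hρ'm : ρ' ≤ K * m := by
    rw [hm, mul_min_of_nonneg _ _ hK0.le]
    refine le_min hρ'ρ ?_
    nlinarith
  set r : ℝ := m / 2 with hr
  have hr0 : 0 < r := by positivity
  set B := closedBall z r with hB
  have hBB : B ⊆ closedBall z ρ := closedBall_subset_closedBall (by rw [hr]; linarith)
  have hBB' : B ⊆ closedBall z' ρ' := by
    refine closedBall_subset_closedBall' ?_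
    rw [dist_eq_norm, hr]
    linarith
  have hv1 : volume (closedBall z ρ) ≤ ENNReal.ofReal ((2 * K) ^ N) * volume B := by
    rw [← ChnAux.vol_ball z hr0.le (by positivity : (0:ℝ) ≤ 2 * K)]
    exact measure_mono (closedBall_subset_closedBall (by rw [hr]; linarith))
  have hv2 : volume (closedBall z' ρ') ≤ ENNReal.ofReal ((2 * K) ^ N) * volume B := by
    have : volume B = volume (closedBall z' r) := by
      rw [hB, Measure.addHaar_closedBall _ _ hr0.le, Measure.addHaar_closedBall _ _ hr0.le]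
    rw [this, ← ChnAux.vol_ball z' hr0.le (by positivity : (0:ℝ) ≤ 2 * K)]
    exact measure_mono (closedBall_subset_closedBall (by rw [hr]; linarith))
  have hBpos : 0 < volume B := by
    rw [hB]
    exact measure_closedBall_pos volume z hr0
  have hBfin : volume B ≠ ⊤ := by
    rw [hB]
    exact measure_closedBall_lt_top.ne
  -- a common good point
  obtain ⟨x, hxB, hx1, hx2⟩ : ∃ x ∈ B, ‖(↑M⁻¹ : EndW n) * fderiv ℝ Φ x - 1‖ ≤ τ ∧
      ‖(↑M'⁻¹ : EndW n) * fderiv ℝ Φ x - 1‖ ≤ τ := by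
    by_contra hcon
    push Not at hcon
    have hlow : ∀ x ∈ B, ENNReal.ofReal τ ≤ ‖(↑M⁻¹ : EndW n) * fderiv ℝ Φ x - 1‖ₑ +
        ‖(↑M'⁻¹ : EndW n) * fderiv ℝ Φ x - 1‖ₑ := by
      intro x hx
      by_cases h1 : ‖(↑M⁻¹ : EndW n) * fderiv ℝ Φ x - 1‖ ≤ τ
      · refine le_trans ?_ le_add_self
        rw [← ofReal_norm]
        exact ENNReal.ofReal_le_ofReal (hcon x hx h1).le
      · refine le_trans ?_ le_self_add
        rw [← ofReal_norm]
        exact ENNReal.ofReal_le_ofReal (not_le.mp h1).le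
    have hint : ENNReal.ofReal τ * volume B ≤
        ∫⁻ x in B, (‖(↑M⁻¹ : EndW n) * fderiv ℝ Φ x - 1‖ₑ +
          ‖(↑M'⁻¹ : EndW n) * fderiv ℝ Φ x - 1‖ₑ) := by
      rw [← setLIntegral_const]
      exact setLIntegral_mono' measurableSet_closedBall hlow
    rw [lintegral_add_left (measurable_fderiv_sub hΦ _)] at hint
    have hb1 : ∫⁻ x in B, ‖(↑M⁻¹ : EndW n) * fderiv ℝ Φ x - 1‖ₑ ≤
        ENNReal.ofReal (τ / 4) * volume B := by
      calc ∫⁻ x in B, ‖(↑M⁻¹ : EndW n) * fderiv ℝ Φ x - 1‖ₑ ≤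
          ∫⁻ x in closedBall z ρ, ‖(↑M⁻¹ : EndW n) * fderiv ℝ Φ x - 1‖ₑ :=
            lintegral_mono_set hBB
        _ ≤ ENNReal.ofReal δ * volume (closedBall z ρ) := hM
        _ ≤ ENNReal.ofReal δ * (ENNReal.ofReal ((2 * K) ^ N) * volume B) := mul_le_mul_right hv1 _
        _ = ENNReal.ofReal (τ / 4) * volume B := by
            rw [← mul_assoc, ← ENNReal.ofReal_mul (by positivity)]
            congr 2
            rw [hδ]
            field_simp
    have hb2 : ∫⁻ x in B, ‖(↑M'⁻¹ : EndW n) * fderiv ℝ Φ x - 1‖ₑ ≤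
        ENNReal.ofReal (τ / 4) * volume B := by
      calc ∫⁻ x in B, ‖(↑M'⁻¹ : EndW n) * fderiv ℝ Φ x - 1‖ₑ ≤
          ∫⁻ x in closedBall z' ρ', ‖(↑M'⁻¹ : EndW n) * fderiv ℝ Φ x - 1‖ₑ :=
            lintegral_mono_set hBB'
        _ ≤ ENNReal.ofReal δ * volume (closedBall z' ρ') := hM'
        _ ≤ ENNReal.ofReal δ * (ENNReal.ofReal ((2 * K) ^ N) * volume B) := mul_le_mul_right hv2 _
        _ = ENNReal.ofReal (τ / 4) * volume B := by
            rw [← mul_assoc, ← ENNReal.ofReal_mul (by positivity)]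
            congr 2
            rw [hδ]
            field_simp
    have hfin := hint.trans (add_le_add hb1 hb2)
    rw [← add_mul, ← ENNReal.ofReal_add (by positivity) (by positivity)] at hfin
    have h3 := (ENNReal.mul_le_mul_iff_left hBpos.ne' hBfin).mp hfin
    rw [ENNReal.ofReal_le_ofReal_iff (by positivity)] at h3
    linarith
  exact ChnAux.alg_step (w := (↑M⁻¹ : EndW n) * fderiv ℝ Φ x)
    (w' := (↑M'⁻¹ : EndW n) * fderiv ℝ Φ x)
    (M := (M : EndW n)) (M.inv_mul) (M.mul_inv) (M'i := (↑M'⁻¹ : EndW n)) (M'.mul_inv) rfl rfl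
    hτ2 hx1 hx2

end Pool.Agent.Lib.P28c
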