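import Pool.Agent.Lib.P28c.VC

set_option autoImplicit false

/-!
# `Φ` is connected with its averages of variable radius

PROOF. The family `(t, z) ↦ VAvg Φ (smoothTransition t * τ) z` is a `Fam`: smooth by `vavg_smooth`, homogeneous by `vavg_hom`; the derivative in `z` is
injective: for `τ z = 0` or `smoothTransition t = 0` it is `dΦ_z`, otherwise `vavg_close` with `Good` at the scale `smoothTransition t * τ z`.
-/

open MeasureTheory Set Metric
open scoped ENNReal ContDiff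

namespace Pool.Agent.Lib.P28c

open Pool.Agent.P28b04d Pool.Agent.Lib.P28e

variable {n : ℕ} {Φ : W n → W n} {τ : W n → ℝ}

theorem vavg_conn (h : HLoc Φ) (hτ : Tau τ) (hg : ∀ z : W n, z ≠ 0 → τ z = 0 ∨
    ∀ ρ : ℝ, 0 < ρ → ρ ≤ τ z → ∃ M : (EndW n)ˣ, Good Φ z ρ (1 / 8) M) :
    Conn Φ (VAvg Φ τ) := by
  refine ⟨fun p => VAvg Φ (fun z => Real.smoothTransition p.1 * τ z) p.2, ⟨?_, ?_, ?_⟩, ?_, ?_⟩
  · have h1 : ContDiffOn ℝ ∞ (fun p : ℝ × W n => (Real.smoothTransition p.1, p.2))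
        (univ ×ˢ {0}ᶜ) :=
      ((Real.smoothTransition.contDiff.comp contDiff_fst).prodMk contDiff_snd).contDiffOn
    refine (vavg_smooth h hτ).comp h1 ?_
    rintro ⟨t, z⟩ ⟨-, hz⟩
    have h2 := Real.smoothTransition.nonneg t
    have h3 := Real.smoothTransition.le_one t
    exact ⟨⟨by linarith, by linarith⟩, hz⟩
  · intro t c z
    exact vavg_hom h hτ _ c z
  · intro t z hz v hv
    set s : ℝ := Real.smoothTransition t with hs
    have hs0 : 0 ≤ s := Real.smoothTransition.nonneg t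
    have hs1 : s ≤ 1 := Real.smoothTransition.le_one t
    have hv' : fderiv ℝ (VAvg Φ (fun z => s * τ z)) z v = 0 := hv
    rcases (hτ.nonneg z).eq_or_lt with h0 | h0
    · rw [vavg_fderiv_zero h hτ hs0 hs1 hz h0.symm] at hv'
      exact h.inj z hz v hv'
    rcases hs0.eq_or_lt with h1 | h1
    · have e : VAvg Φ (fun z => s * τ z) = Φ := by
        funext w
        exact vavg_zero Φ (by rw [← h1, zero_mul])
      rw [e] at hv'
      exact h.inj z hz v hv'
    · rcases hg z hz with h2 | h2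
      · exact absurd h2 h0.ne'
      obtain ⟨M, hM⟩ := h2 (s * τ z) (mul_pos h1 h0) (by nlinarith)
      have h3 := vavg_close h hτ h1 hs1 hz h0 (by norm_num : (0 : ℝ) ≤ 1 / 8) hM
      have h4 := ContinuousLinearMap.le_opNorm ((↑M⁻¹ : EndW n) *
        fderiv ℝ (VAvg Φ (fun z => s * τ z)) z - 1) v
      have h5 : ((↑M⁻¹ : EndW n) * fderiv ℝ (VAvg Φ (fun z => s * τ z)) z - 1) v = -v := by
        show (↑M⁻¹ : EndW n) (fderiv ℝ (VAvg Φ (fun z => s * τ z)) z v) - v = -v
        rw [hv', map_zero, zero_sub]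
      rw [h5, norm_neg] at h4
      have h6 : ‖v‖ ≤ 1 / 4 * ‖v‖ :=
        h4.trans (mul_le_mul_of_nonneg_right (h3.trans (by norm_num)) (norm_nonneg _))
      have h7 : ‖v‖ = 0 := by linarith [norm_nonneg v]
      exact norm_eq_zero.1 h7
  · intro t ht z
    exact vavg_zero Φ (by rw [Real.smoothTransition.zero_of_nonpos ht, zero_mul])
  · intro t ht z
    show VAvg Φ (fun z => Real.smoothTransition t * τ z) z = VAvg Φ τ z
    rw [Real.smoothTransition.one_of_one_le ht]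
    simp only [one_mul]

theorem vavg_hloc (h : HLoc Φ) (hτ : Tau τ) (hg : ∀ z : W n, z ≠ 0 → τ z = 0 ∨
    ∀ ρ : ℝ, 0 < ρ → ρ ≤ τ z → ∃ M : (EndW n)ˣ, Good Φ z ρ (1 / 8) M) :
    HLoc (VAvg Φ τ) := by
  obtain ⟨Λ, hΛ, -, h1⟩ := vavg_conn h hτ hg
  have := hΛ.hloc 1
  have e : (fun z => Λ (1, z)) = VAvg Φ τ := funext fun z => h1 1 le_rfl z
  rwa [e] at this

end Pool.Agent.Lib.P28c
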