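import Pool.Agent.Lib.P28c.Defs

set_option autoImplicit false

/-!
# Local version of `good_e0`

PROOF SKETCH. Copy the proof of `good_e0` (file `Pool/Agent/Lib/P28e/Slice.lean`) and replace the cube `cs (n * 2) 1` by
`cs (n * 2) S`: `gap` is stated for arbitrary `S`, `comm_le` needs only the energy on `cs (n * 2) (2 * s)` with `2 * s ≤ 1`
(`cs_mono`). The only other change: `slice_energy` is not used, the hypothesis is about the slice energy itself.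
-/

open MeasureTheory Set Metric
open scoped ENNReal ContDiff

namespace Pool.Agent.Lib.P28c

open Pool.Agent.P28b04d Pool.Agent.Lib.P28e

theorem good_e0_loc (n : ℕ) (hn : 1 ≤ n) : ∀ ε : ℝ, 0 < ε → ∃ δ : ℝ, 0 < δ ∧ ∀ Φ : W n → W n,
    HLoc Φ → ∀ S : ℝ, 0 < S → S ≤ 1 →
    ∫⁻ y, al Φ y ^ ((n * 2 : ℕ) : ℝ) ∂cs (n * 2) S ≤ ENNReal.ofReal δ →
    ∀ s : ℝ, 0 < s → s ≤ 1 / 4 → 2 * s ≤ S → ∃ M : (EndW n)ˣ, Good Φ (e0 n) s ε M := by
  intro ε hε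
  obtain ⟨C2, hC2, hcv⟩ := cv_upper n
  have hd : 2 ≤ n * 2 := by omega
  have hd1 : (1 : ℝ) < ((n * 2 : ℕ) : ℝ) := by
    have : (2 : ℝ) ≤ ((n * 2 : ℕ) : ℝ) := by exact_mod_cast hd
    linarith
  set p : ℝ := Real.conjExponent ((n * 2 : ℕ) : ℝ) with hpdef
  have hp : Real.HolderConjugate ((n * 2 : ℕ) : ℝ) p := Real.HolderConjugate.conjExponent hd1
  -- choice of `κ`
  set vW : ℝ≥0∞ := volume (closedBall (0 : W n) 1) with hvW
  set vC : ℝ≥0∞ := volume (closedBall (0 : ℂ) 1) with hvC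
  have hvW0 : vW ≠ 0 := (measure_closedBall_pos volume (0 : W n) one_pos).ne'
  have hvCt : vC ≠ ⊤ := measure_closedBall_lt_top.ne
  have hKt : C2 * vC * ENNReal.ofReal (4 * 4 ^ (n * 2)) ≠ ⊤ :=
    ENNReal.mul_ne_top (ENNReal.mul_ne_top hC2 hvCt) ENNReal.ofReal_ne_top
  have hεW : ENNReal.ofReal ε * vW ≠ 0 := mul_ne_zero (by simpa using hε) hvW0
  obtain ⟨κ', hκ'0, hκ'⟩ := exists_delta hKt hεW
  set κ : ℝ := min κ' (1 / 4) with hκdef
  have hκ0 : 0 < κ := by positivity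
  have hκ4 : κ ≤ 1 / 4 := min_le_right _ _
  have hκle : C2 * vC * ENNReal.ofReal (4 * 4 ^ (n * 2)) * ENNReal.ofReal κ ≤
      ENNReal.ofReal ε * vW := by
    refine le_trans ?_ hκ'
    gcongr
    exact min_le_left _ _
  -- choice of `δ`
  set K : ℝ≥0∞ := ((n * 2 : ℕ) : ℝ≥0∞) / 2 + 1 with hK
  have hK1 : 1 ≤ K := by rw [hK]; exact le_add_self
  have hKtop : K ≠ ⊤ := by
    rw [hK]
    exact ENNReal.add_ne_top.2 ⟨ENNReal.div_ne_top (ENNReal.natCast_ne_top _) (by norm_num),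
      ENNReal.one_ne_top⟩
  have hK0 : K ≠ 0 := (lt_of_lt_of_le zero_lt_one hK1).ne'
  have ht : (ENNReal.ofReal κ / K) ^ ((n * 2 : ℕ) : ℝ) ≠ 0 := by
    have h1 : ENNReal.ofReal κ / K ≠ 0 := ENNReal.div_ne_zero.2 ⟨by simpa using hκ0, hKtop⟩
    rw [ENNReal.rpow_natCast]
    exact pow_ne_zero _ h1
  obtain ⟨δ, hδ0, hδ⟩ := exists_delta ENNReal.one_ne_top ht
  refine ⟨δ, hδ0, fun Φ h S hS0 hS1 hE s hs hs4 h2sS => ?_⟩
  have hE1 : K * (∫⁻ y, al Φ y ^ ((n * 2 : ℕ) : ℝ) ∂cs (n * 2) S) ^ (1 / ((n * 2 : ℕ) : ℝ)) ≤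
      ENNReal.ofReal κ := by
    have h1 : ∫⁻ y, al Φ y ^ ((n * 2 : ℕ) : ℝ) ∂cs (n * 2) S ≤
        (ENNReal.ofReal κ / K) ^ ((n * 2 : ℕ) : ℝ) := by
      refine le_trans ?_ hδ
      rw [one_mul]
      exact hE
    have h2 : (∫⁻ y, al Φ y ^ ((n * 2 : ℕ) : ℝ) ∂cs (n * 2) S) ^ (1 / ((n * 2 : ℕ) : ℝ)) ≤
        ENNReal.ofReal κ / K := by
      have := ENNReal.rpow_le_rpow h1 (by positivity : 0 ≤ 1 / ((n * 2 : ℕ) : ℝ))
      rwa [← ENNReal.rpow_mul, mul_one_div_cancel (by positivity), ENNReal.rpow_one] at this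
    calc K * (∫⁻ y, al Φ y ^ ((n * 2 : ℕ) : ℝ) ∂cs (n * 2) S) ^ (1 / ((n * 2 : ℕ) : ℝ))
        ≤ K * (ENNReal.ofReal κ / K) := by gcongr
      _ = ENNReal.ofReal κ := ENNReal.mul_div_cancel hK0 hKtop
  have h2s : 0 < 2 * s := by positivity
  have h2s1 : 2 * s ≤ 1 := by linarith
  obtain ⟨M, hM, hW⟩ := gap hd hp (par_uu h) (isUnit_uu h) (measurable_al h) (UU_le h) hκ0.le hκ4
    hE1 h2s h2sS
  have hE2 : (∫⁻ y, al Φ y ^ ((n * 2 : ℕ) : ℝ) ∂cs (n * 2) (2 * s)) ^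
      (1 / ((n * 2 : ℕ) : ℝ)) ≤ ENNReal.ofReal κ := by
    refine le_trans ?_ hE1
    calc (∫⁻ y, al Φ y ^ ((n * 2 : ℕ) : ℝ) ∂cs (n * 2) (2 * s)) ^ (1 / ((n * 2 : ℕ) : ℝ))
        ≤ (∫⁻ y, al Φ y ^ ((n * 2 : ℕ) : ℝ) ∂cs (n * 2) S) ^ (1 / ((n * 2 : ℕ) : ℝ)) := by
          gcongr
          exact cs_mono h2sS
      _ ≤ K * (∫⁻ y, al Φ y ^ ((n * 2 : ℕ) : ℝ) ∂cs (n * 2) S) ^ (1 / ((n * 2 : ℕ) : ℝ)) :=
          le_mul_of_one_le_left zero_le hK1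
  have hcomm := comm_le h hd hp h2s h2s1 hκ0.le hκ4 hE2 M hM hW
  refine ⟨M, ?_⟩
  unfold Good
  have hcw : Continuous fun y => (↑M⁻¹ : EndW n) * uu Φ y - 1 :=
    (continuous_const.mul (continuous_uu h)).sub continuous_const
  have hcwm : Measurable fun y => ‖(↑M⁻¹ : EndW n) * uu Φ y - 1‖ₑ := hcw.enorm.measurable
  -- the `L¹` bound on the slice
  have hL1 : ∫⁻ y, ‖(↑M⁻¹ : EndW n) * uu Φ y - 1‖ₑ ∂cs (n * 2) (2 * s) ≤
      ENNReal.ofReal (4 / 3 * κ * (4 * s) ^ (n * 2)) := by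
    have h1 := lintegral_le_Lp hd hp (fun _ : Fin (n * 2) => -(2 * s)) (2 * (2 * s)) hcwm
    refine h1.trans ?_
    calc ENNReal.ofReal (2 * (2 * s)) * (∫⁻ y, ‖(↑M⁻¹ : EndW n) * uu Φ y - 1‖ₑ ^ p
          ∂cm (fun _ : Fin (n * 2) => -(2 * s)) (2 * (2 * s))) ^ (1 / p)
        ≤ ENNReal.ofReal (2 * (2 * s)) *
          ENNReal.ofReal (4 / 3 * κ * (2 * (2 * s)) ^ (n * 2 - 1)) := by
          gcongr
          exact hW
      _ = ENNReal.ofReal (4 / 3 * κ * (4 * s) ^ (n * 2)) := by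
          rw [← ENNReal.ofReal_mul (by positivity)]
          congr 1
          have hd1 : n * 2 = (n * 2 - 1) + 1 := by omega
          have : (4 * s) ^ (n * 2) = (4 * s) ^ (n * 2 - 1) * (4 * s) := by
            conv_lhs => rw [hd1, pow_succ]
          rw [this, show 2 * (2 * s) = 4 * s by ring]
          ring
  have hinner : ∀ c ∈ closedBall (1 : ℂ) s,
      ∫⁻ y in Icc (fun _ : Fin (n * 2) => -(2 * s)) (fun _ => 2 * s),
        ‖(↑M⁻¹ : EndW n) * fderiv ℝ Φ (c • sl n y) - 1‖ₑ ≤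
      ENNReal.ofReal (4 * κ * (4 * s) ^ (n * 2)) := by
    intro c hc
    have h1 : ∫⁻ y in Icc (fun _ : Fin (n * 2) => -(2 * s)) (fun _ => 2 * s),
        ‖(↑M⁻¹ : EndW n) * fderiv ℝ Φ (c • sl n y) - 1‖ₑ ≤
        ∫⁻ y, (2 * ‖(↑M⁻¹ : EndW n) * uu Φ y - 1‖ₑ + ENNReal.ofReal κ) ∂cs (n * 2) (2 * s) := by
      rw [cs_eq]
      refine lintegral_mono fun y => ?_
      have h2 := cone_le h hκ0.le hκ4 hs hs4 hcomm hc y
      rw [← ofReal_norm, ← ofReal_norm]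
      calc ENNReal.ofReal ‖(↑M⁻¹ : EndW n) * fderiv ℝ Φ (c • sl n y) - 1‖
          ≤ ENNReal.ofReal (2 * ‖(↑M⁻¹ : EndW n) * uu Φ y - 1‖ + κ) :=
            ENNReal.ofReal_le_ofReal h2
        _ = 2 * ENNReal.ofReal ‖(↑M⁻¹ : EndW n) * uu Φ y - 1‖ + ENNReal.ofReal κ := by
            rw [ENNReal.ofReal_add (by positivity) hκ0.le, ENNReal.ofReal_mul (by norm_num)]
            simp
    refine h1.trans ?_
    rw [lintegral_add_right _ measurable_const, lintegral_const_mul _ hcwm, lintegral_const]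
    have h3 : cs (n * 2) (2 * s) univ = ENNReal.ofReal ((4 * s) ^ (n * 2)) := by
      rw [cs, cm_univ, ← ENNReal.ofReal_pow (by positivity)]
      congr 2
      ring
    rw [h3]
    calc 2 * ∫⁻ y, ‖(↑M⁻¹ : EndW n) * uu Φ y - 1‖ₑ ∂cs (n * 2) (2 * s) +
          ENNReal.ofReal κ * ENNReal.ofReal ((4 * s) ^ (n * 2))
        ≤ 2 * ENNReal.ofReal (4 / 3 * κ * (4 * s) ^ (n * 2)) +
          ENNReal.ofReal κ * ENNReal.ofReal ((4 * s) ^ (n * 2)) := by gcongr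
      _ = ENNReal.ofReal (2 * (4 / 3 * κ * (4 * s) ^ (n * 2)) + κ * (4 * s) ^ (n * 2)) := by
          rw [ENNReal.ofReal_add (by positivity) (by positivity),
            ENNReal.ofReal_mul (by norm_num : (0 : ℝ) ≤ 2), ENNReal.ofReal_mul hκ0.le]
          simp
      _ ≤ ENNReal.ofReal (4 * κ * (4 * s) ^ (n * 2)) := by
          apply ENNReal.ofReal_le_ofReal
          have : 0 < κ * (4 * s) ^ (n * 2) := by positivity
          nlinarith
  calc ∫⁻ x in closedBall (e0 n) s, ‖(↑M⁻¹ : EndW n) * fderiv ℝ Φ x - 1‖ₑ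
      ≤ C2 * ∫⁻ c in closedBall (1 : ℂ) s,
          ∫⁻ y in Icc (fun _ : Fin (n * 2) => -(2 * s)) (fun _ => 2 * s),
            ‖(↑M⁻¹ : EndW n) * fderiv ℝ Φ (c • sl n y) - 1‖ₑ :=
        hcv _ (measurable_fderiv_sub h _) s hs hs4
    _ ≤ C2 * ∫⁻ _c in closedBall (1 : ℂ) s, ENNReal.ofReal (4 * κ * (4 * s) ^ (n * 2)) := by
        gcongr C2 * ?_
        exact setLIntegral_mono' measurableSet_closedBall hinner
    _ = C2 * (ENNReal.ofReal (4 * κ * (4 * s) ^ (n * 2)) * (ENNReal.ofReal (s ^ 2) * vC)) := by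
        rw [lintegral_const, Measure.restrict_apply MeasurableSet.univ, univ_inter,
          vol_ball_C hs.le]
    _ = (C2 * vC * ENNReal.ofReal (4 * 4 ^ (n * 2)) * ENNReal.ofReal κ) *
          ENNReal.ofReal (s ^ (n * 2 + 2)) := by
        have e : ENNReal.ofReal (4 * κ * (4 * s) ^ (n * 2)) * ENNReal.ofReal (s ^ 2) =
            ENNReal.ofReal (4 * 4 ^ (n * 2)) * ENNReal.ofReal κ *
              ENNReal.ofReal (s ^ (n * 2 + 2)) := by
          rw [← ENNReal.ofReal_mul (by positivity), ← ENNReal.ofReal_mul (by positivity),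
            ← ENNReal.ofReal_mul (by positivity)]
          congr 1
          rw [mul_pow, pow_add]
          ring
        calc C2 * (ENNReal.ofReal (4 * κ * (4 * s) ^ (n * 2)) * (ENNReal.ofReal (s ^ 2) * vC))
            = C2 * vC * (ENNReal.ofReal (4 * κ * (4 * s) ^ (n * 2)) * ENNReal.ofReal (s ^ 2)) := by
              ring
          _ = _ := by rw [e]; ring
    _ ≤ (ENNReal.ofReal ε * vW) * ENNReal.ofReal (s ^ (n * 2 + 2)) := by gcongr
    _ = ENNReal.ofReal ε * volume (closedBall (e0 n) s) := by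
        rw [vol_ball_W n _ hs.le]
        ring

end Pool.Agent.Lib.P28c
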