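import Pool.Agent.Lib.P28c.LocA
import Pool.Agent.Lib.P28c.Fd

set_option autoImplicit false

/-!
# Small energy in a ball gives `Good` at its centre, at all small scales

Compare `good_all` in `Pool/Agent/Lib/P28e/GoodAll.lean` and `slice_energy` in `SliceA.lean`. Let `K = n + 1`,
`z' = z / (2 ‖z‖)`, `T` from `exists_T`: `T` complex linear, `T e0 = z'`, `‖T x‖ ≤ ‖x‖`, `‖T⁻¹ w‖ ≤ 4 ‖w‖`. Put `S = s / (12 K)`.
For `‖y‖ ≤ S` and `c ≠ 0`: `T (c • sl n y) = c • (z' + T (Lv n y))`, `‖T (Lv n y)‖ ≤ 2 S`, so by `fd_pt_le`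
`fd (pt (T (c • sl n y))) (pt z) ≤ 8 K S < s`: the point lies in `T ⁻¹' PB (pt z) s`.
The slice energy of `Φ ∘ T` on `cs (n * 2) S` is at most `C * eOn Φ (pt z) s` (`cv_lower`, `norm_conn_comp`, `cov`, `le_vf`).
`good_e0_loc` gives `Good (Φ ∘ T) e0 s' ε' M'` for `2 s' ≤ S`; `good_of_comp` with `4 ρ' = s'` gives `Good Φ z' ρ' ε M`;
scaling `z = (2 ‖z‖) • z'` (`good_smul`) gives all `ρ = 2 ‖z‖ ρ' ≤ s ‖z‖ / (48 K)`.
-/

open MeasureTheory Set Metric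
open scoped ENNReal ContDiff

namespace Pool.Agent.Lib.P28c

open Pool.Agent.P28b04d Pool.Agent.Lib.P28e

/-- The scale constant. -/
noncomputable def kap1 (n : ℕ) : ℝ := 1 / (48 * ((n : ℝ) + 1))

namespace LocBAux

open GoodAllAux

variable {n : ℕ} {Φ : W n → W n}

theorem ann_meas : MeasurableSet Ann := by
  have : Ann = {c : ℂ | 1 / 4 ≤ ‖c‖} ∩ {c : ℂ | ‖c‖ ≤ 1 / 3} := rfl
  rw [this]
  exact ((isClosed_le continuous_const continuous_norm).inter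
    (isClosed_le continuous_norm continuous_const)).measurableSet

theorem ann_top : volume Ann ≠ ⊤ := by
  have hsub : Ann ⊆ closedBall 0 1 := by
    intro c hc
    rw [mem_closedBall_zero_iff]
    exact hc.2.trans (by norm_num)
  exact ne_top_of_le_ne_top measure_closedBall_lt_top.ne (measure_mono hsub)

theorem mem_PB_sl {z' : W n} (hz' : ‖z'‖ = 1 / 2) {T : W n ≃L[ℝ] W n}
    (hTc : ∀ (c : ℂ) (x : W n), T (c • x) = c • T x) (hTe : T (e0 n) = z')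
    (hT1 : ∀ x, ‖T x‖ ≤ ‖x‖) {s : ℝ} (hs : 0 < s) {c : ℂ} (hc : c ≠ 0)
    {y : Fin (n * 2) → ℝ} (hy : ‖y‖ ≤ s / (12 * ((n : ℝ) + 1))) :
    T (c • sl n y) ∈ PB (pt z') s := by
  have hT0 : T (sl n y) ≠ 0 := fun h => sl_ne y (T.injective (by rw [h, map_zero]))
  have hz0 : z' ≠ 0 := by
    intro h
    rw [h, norm_zero] at hz'
    norm_num at hz'
  show fd (pt (T (c • sl n y))) (pt z') < s
  rw [hTc, pt_smul hc]
  have h1 := fd_pt_le hT0 hz0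
  have h2 : T (sl n y) - z' = T (Lv n y) := by
    rw [sl_eq, map_add, hTe, add_sub_cancel_left]
  have h3 : ‖T (Lv n y)‖ ≤ 2 * ‖y‖ := (hT1 _).trans (norm_Lv_le y)
  rw [h2, hz'] at h1
  refine lt_of_le_of_lt h1 ?_
  have hK : (0 : ℝ) < (n : ℝ) + 1 := by positivity
  have h4 : ((n : ℝ) + 1) * ‖T (Lv n y)‖ ≤ s / 6 := by
    calc ((n : ℝ) + 1) * ‖T (Lv n y)‖ ≤ ((n : ℝ) + 1) * (2 * (s / (12 * ((n : ℝ) + 1)))) := by
          gcongr
          exact h3.trans (by gcongr)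
      _ = s / 6 := by
          field_simp
          ring
  have h5 : 2 * ((n : ℝ) + 1) * ‖T (Lv n y)‖ / (1 / 2) = 4 * (((n : ℝ) + 1) * ‖T (Lv n y)‖) := by
    ring
  rw [h5]
  linarith

theorem energy_comp_loc (h : HLoc Φ) {T : W n ≃L[ℝ] W n} (h1 : ∀ x, ‖T x‖ ≤ ‖x‖)
    (h2 : ∀ w, ‖T.symm w‖ ≤ 4 * ‖w‖) (P : Mat n) (s : ℝ) :
    ∫⁻ x in ball (0 : W n) 1 ∩ T ⁻¹' PB P s, ‖conn (Φ ∘ T) x‖ₑ ^ (2 * n) ≤
      (4 : ℝ≥0∞) ^ (4 * n + 2) * eOn Φ P s := by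
  have hA : MeasurableSet (ball (0 : W n) 1 ∩ T ⁻¹' PB P s) :=
    measurableSet_ball.inter ((measurableSet_PB P s).preimage T.continuous.measurable)
  have hae : ∀ᵐ x ∂(volume.restrict (ball (0 : W n) 1 ∩ T ⁻¹' PB P s)), x ≠ 0 := by
    apply ae_restrict_of_ae
    exact (measure_eq_zero_iff_ae_notMem).1 (measure_singleton (0 : W n))
  have step1 : ∫⁻ x in ball (0 : W n) 1 ∩ T ⁻¹' PB P s, ‖conn (Φ ∘ T) x‖ₑ ^ (2 * n) ≤
      ∫⁻ x in ball (0 : W n) 1 ∩ T ⁻¹' PB P s,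
        (4 : ℝ≥0∞) ^ (2 * n) * ‖conn Φ (T x)‖ₑ ^ (2 * n) := by
    refine lintegral_mono_ae ?_
    filter_upwards [hae] with x hx
    rw [← mul_pow]
    refine pow_le_pow_left' ?_ _
    have := norm_conn_comp h h1 h2 hx
    rw [← ofReal_norm, ← ofReal_norm]
    have e4 : (4 : ℝ≥0∞) = ENNReal.ofReal 4 := by norm_num
    rw [e4, ← ENNReal.ofReal_mul (by norm_num)]
    exact ENNReal.ofReal_le_ofReal this
  rw [lintegral_const_mul' _ _ (by simp)] at step1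
  have step2 : vf T * ∫⁻ x in ball (0 : W n) 1 ∩ T ⁻¹' PB P s, ‖conn Φ (T x)‖ₑ ^ (2 * n) ≤
      eOn Φ P s := by
    rw [← cov T hA (fun w => ‖conn Φ w‖ₑ ^ (2 * n))]
    unfold eOn
    apply lintegral_mono_set
    rintro _ ⟨x, hx, rfl⟩
    refine ⟨?_, hx.2⟩
    have hx1 := hx.1
    rw [mem_ball_zero_iff] at hx1 ⊢
    exact (h1 x).trans_lt hx1
  have step3 : ∫⁻ x in ball (0 : W n) 1 ∩ T ⁻¹' PB P s, ‖conn Φ (T x)‖ₑ ^ (2 * n) ≤
      (4 : ℝ≥0∞) ^ (2 * n + 2) * eOn Φ P s := by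
    calc ∫⁻ x in ball (0 : W n) 1 ∩ T ⁻¹' PB P s, ‖conn Φ (T x)‖ₑ ^ (2 * n)
        = 1 * ∫⁻ x in ball (0 : W n) 1 ∩ T ⁻¹' PB P s, ‖conn Φ (T x)‖ₑ ^ (2 * n) :=
          (one_mul _).symm
      _ ≤ ((4 : ℝ≥0∞) ^ (2 * n + 2) * vf T) *
          ∫⁻ x in ball (0 : W n) 1 ∩ T ⁻¹' PB P s, ‖conn Φ (T x)‖ₑ ^ (2 * n) := by
          gcongr
          exact le_vf T h2
      _ = (4 : ℝ≥0∞) ^ (2 * n + 2) *
          (vf T * ∫⁻ x in ball (0 : W n) 1 ∩ T ⁻¹' PB P s, ‖conn Φ (T x)‖ₑ ^ (2 * n)) :=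
          mul_assoc _ _ _
      _ ≤ (4 : ℝ≥0∞) ^ (2 * n + 2) * eOn Φ P s := by gcongr
  calc ∫⁻ x in ball (0 : W n) 1 ∩ T ⁻¹' PB P s, ‖conn (Φ ∘ T) x‖ₑ ^ (2 * n)
      ≤ (4 : ℝ≥0∞) ^ (2 * n) * ((4 : ℝ≥0∞) ^ (2 * n + 2) * eOn Φ P s) :=
        step1.trans (by gcongr)
    _ = (4 : ℝ≥0∞) ^ (4 * n + 2) * eOn Φ P s := by
        rw [← mul_assoc, ← pow_add]
        congr 2
        ring

/-- The energy on the small slice is controlled by the energy in the ball. -/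
theorem slice_energy_loc (n : ℕ) : ∃ C : ℝ≥0∞, C ≠ ⊤ ∧ ∀ Φ : W n → W n, HLoc Φ →
    ∀ z' : W n, ‖z'‖ = 1 / 2 → ∀ T : W n ≃L[ℝ] W n,
    (∀ (c : ℂ) (x : W n), T (c • x) = c • T x) → T (e0 n) = z' → (∀ x, ‖T x‖ ≤ ‖x‖) →
    (∀ w, ‖T.symm w‖ ≤ 4 * ‖w‖) → ∀ s : ℝ, 0 < s → s ≤ 1 →
    ∫⁻ y, al (Φ ∘ T) y ^ ((n * 2 : ℕ) : ℝ) ∂cs (n * 2) (s / (12 * ((n : ℝ) + 1))) ≤
      C * eOn Φ (pt z') s := by
  obtain ⟨C, hC, hcv⟩ := cv_lower n
  refine ⟨2 ^ (n * 2) * ((volume Ann)⁻¹ * (C * (4 : ℝ≥0∞) ^ (4 * n + 2))), ?_, ?_⟩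
  · refine ENNReal.mul_ne_top (by simp) (ENNReal.mul_ne_top ?_ (ENNReal.mul_ne_top hC (by simp)))
    exact ENNReal.inv_ne_top.2 volume_Ann
  · intro Φ h z' hz' T hTc hTe hT1 hT2 s hs hs1
    have hΨ : HLoc (Φ ∘ T) := HLoc.comp h (hloc_T T hTc)
    set S : ℝ := s / (12 * ((n : ℝ) + 1)) with hS
    have hS0 : 0 < S := by positivity
    have hS1 : S ≤ 1 := by
      rw [hS, div_le_one (by positivity)]
      have : (0 : ℝ) ≤ (n : ℝ) := Nat.cast_nonneg n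
      linarith
    set A : Set (W n) := T ⁻¹' PB (pt z') s with hA
    have hAm : MeasurableSet A := (measurableSet_PB _ s).preimage T.continuous.measurable
    set G : W n → ℝ≥0∞ := A.indicator (fun x => ‖conn (Φ ∘ T) x‖ₑ ^ (2 * n)) with hG
    have hGm : Measurable G := ((measurable_conn hΨ).pow_const _).indicator hAm
    set E1 : ℝ≥0∞ := ∫⁻ y in Icc (fun _ : Fin (n * 2) => (-S : ℝ)) (fun _ => S),
      ‖conn (Φ ∘ T) (sl n y)‖ₑ ^ (2 * n) with hE1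
    have hsubI : Icc (fun _ : Fin (n * 2) => (-S : ℝ)) (fun _ => S) ⊆
        Icc (fun _ : Fin (n * 2) => (-1 : ℝ)) (fun _ => 1) := by
      intro y hy
      rw [mem_Icc_iff_norm _ hS0.le] at hy
      rw [mem_Icc_iff_norm _ zero_le_one]
      exact hy.trans hS1
    have h1 : volume Ann * E1 ≤ C * ∫⁻ x in ball (0 : W n) 1, G x := by
      calc volume Ann * E1 = ∫⁻ c in Ann, E1 := by
            rw [lintegral_const, Measure.restrict_apply MeasurableSet.univ, univ_inter, mul_comm]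
        _ ≤ ∫⁻ c in Ann, ∫⁻ y in Icc (fun _ : Fin (n * 2) => (-1 : ℝ)) (fun _ => 1),
              G (c • sl n y) := by
            refine setLIntegral_mono' ann_meas fun c hc => ?_
            refine le_trans ?_ (lintegral_mono_set hsubI)
            refine setLIntegral_mono' measurableSet_Icc fun y hy => ?_
            have hc0 : c ≠ 0 := by
              intro h0
              have := hc.1
              rw [h0, norm_zero] at this
              norm_num at this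
            have hmem : c • sl n y ∈ A := by
              rw [mem_Icc_iff_norm _ hS0.le] at hy
              exact mem_PB_sl hz' hTc hTe hT1 hs hc0 hy
            have h2 : ‖conn (Φ ∘ T) (sl n y)‖ ≤ ‖conn (Φ ∘ T) (c • sl n y)‖ := by
              rw [conn_smul hΨ hc0 (sl_ne y)]
              have h3 : 1 ≤ ‖c‖⁻¹ := by
                rw [one_le_inv₀ (norm_pos_iff.2 hc0)]
                exact hc.2.trans (by norm_num)
              nlinarith [norm_nonneg (conn (Φ ∘ T) (sl n y))]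
            rw [hG, indicator_of_mem hmem]
            gcongr
            rw [← ofReal_norm, ← ofReal_norm]
            exact ENNReal.ofReal_le_ofReal h2
        _ ≤ C * ∫⁻ x in ball (0 : W n) 1, G x := hcv G hGm
    have h1' : ∫⁻ x in ball (0 : W n) 1, G x ≤ (4 : ℝ≥0∞) ^ (4 * n + 2) * eOn Φ (pt z') s := by
      refine le_trans (le_of_eq ?_) (energy_comp_loc h hT1 hT2 (pt z') s)
      rw [hG, setLIntegral_indicator hAm, inter_comm]
    have h2 : E1 ≤ (volume Ann)⁻¹ * (C * ((4 : ℝ≥0∞) ^ (4 * n + 2) * eOn Φ (pt z') s)) := by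
      rw [← ENNReal.div_eq_inv_mul, ENNReal.le_div_iff_mul_le (Or.inl volume_Ann)
        (Or.inl ann_top), mul_comm]
      exact h1.trans (by gcongr)
    have h3 : ∫⁻ y, al (Φ ∘ T) y ^ ((n * 2 : ℕ) : ℝ) ∂cs (n * 2) S = 2 ^ (n * 2) * E1 := by
      rw [cs_eq, hE1, ← lintegral_const_mul']
      · refine lintegral_congr fun y => ?_
        rw [ENNReal.rpow_natCast, al, mul_pow, mul_comm 2 n]
      · simp
    rw [h3]
    calc 2 ^ (n * 2) * E1 ≤ 2 ^ (n * 2) * ((volume Ann)⁻¹ *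
          (C * ((4 : ℝ≥0∞) ^ (4 * n + 2) * eOn Φ (pt z') s))) := by gcongr
      _ = _ := by ring

end LocBAux

open LocBAux GoodAllAux

theorem local_good (n : ℕ) (hn : 1 ≤ n) : ∀ ε : ℝ, 0 < ε → ∃ δ : ℝ, 0 < δ ∧ ∀ Φ : W n → W n,
    HLoc Φ → ∀ z : W n, z ≠ 0 → ∀ s : ℝ, 0 < s → s ≤ 1 → eOn Φ (pt z) s ≤ ENNReal.ofReal δ →
    ∀ ρ : ℝ, 0 < ρ → ρ ≤ kap1 n * s * ‖z‖ → ∃ M : (EndW n)ˣ, Good Φ z ρ ε M := by
  intro ε hε
  obtain ⟨δ', hδ', hgood⟩ := good_e0_loc n hn (ε / (4 * 4 ^ (2 * n + 2))) (by positivity)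
  obtain ⟨C, hC, hsl⟩ := slice_energy_loc n
  obtain ⟨δ, hδ, hCδ⟩ := exists_delta hC (show ENNReal.ofReal δ' ≠ 0 by simpa using hδ')
  refine ⟨δ, hδ, ?_⟩
  intro Φ hΦ z hz s hs hs1 hen ρ hρ hρz
  have hnz : 0 < ‖z‖ := norm_pos_iff.2 hz
  have hK : (0 : ℝ) < (n : ℝ) + 1 := by positivity
  set z' : W n := (2 * ‖z‖)⁻¹ • z with hz'
  have hz'n : ‖z'‖ = 1 / 2 := by
    rw [hz', norm_smul, norm_inv, Real.norm_eq_abs, abs_of_pos (by positivity)]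
    field_simp
  have hpt : pt z' = pt z := by
    rw [hz', Hom46.smul_real]
    exact pt_smul (by exact_mod_cast (inv_pos.2 (by positivity : 0 < 2 * ‖z‖)).ne') z
  obtain ⟨T, hTc, hTe, hT1, hT2⟩ := exists_T hz'n
  have hΨ : HLoc (Φ ∘ T) := HLoc.comp hΦ (hloc_T T hTc)
  have hen' : ∫⁻ y, al (Φ ∘ T) y ^ ((n * 2 : ℕ) : ℝ) ∂cs (n * 2) (s / (12 * ((n : ℝ) + 1))) ≤
      ENNReal.ofReal δ' := by
    refine (hsl Φ hΦ z' hz'n T hTc hTe hT1 hT2 s hs hs1).trans ?_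
    rw [hpt]
    exact (mul_le_mul_right hen C).trans hCδ
  set ρ' : ℝ := ρ / (2 * ‖z‖) with hρ'
  have hρ'0 : 0 < ρ' := by positivity
  have hρ'2 : ρ' ≤ s / (96 * ((n : ℝ) + 1)) := by
    rw [hρ', div_le_iff₀ (by positivity)]
    refine hρz.trans (le_of_eq ?_)
    unfold kap1
    field_simp
    ring
  have h96 : s / (96 * ((n : ℝ) + 1)) ≤ 1 / 96 := by
    rw [div_le_div_iff₀ (by positivity) (by norm_num)]
    have : (0 : ℝ) ≤ (n : ℝ) := Nat.cast_nonneg n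
    nlinarith
  have hS12 : s / (12 * ((n : ℝ) + 1)) = 8 * (s / (96 * ((n : ℝ) + 1))) := by
    field_simp
    ring
  have hS1 : s / (12 * ((n : ℝ) + 1)) ≤ 1 := by
    rw [hS12]
    linarith
  obtain ⟨M', hM'⟩ := hgood (Φ ∘ T) hΨ (s / (12 * ((n : ℝ) + 1))) (by positivity) hS1 hen'
    (4 * ρ') (by positivity) (by linarith) (by rw [hS12]; linarith)
  have hg := good_of_comp hΦ hT1 hT2 hTe hρ'0 (by rw [hz'n]; linarith) (by positivity) hM'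
  have e1 : 4 * 4 ^ (2 * n + 2) * (ε / (4 * 4 ^ (2 * n + 2))) = ε := by field_simp
  rw [e1] at hg
  refine ⟨M' * T.toUnit⁻¹, ?_⟩
  have hz'0 : z' ≠ 0 := by
    intro h0
    rw [h0, norm_zero] at hz'n
    norm_num at hz'n
  have h2 := (good_smul hΦ (r := 2 * ‖z‖) (by positivity) hz'0 hρ'0
    (by rw [hz'n]; linarith)).2 hg
  have e2 : (2 * ‖z‖) • z' = z := by
    rw [hz', smul_smul, mul_inv_cancel₀ (by positivity), one_smul]
  have e3 : 2 * ‖z‖ * ρ' = ρ := by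
    rw [hρ']
    field_simp
  rw [e2, e3] at h2
  exact h2

end Pool.Agent.Lib.P28c
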