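import Pool.Agent.Lib.P28c.Key
import Pool.Agent.Lib.P28c.LocB
import Pool.Agent.Lib.P28c.Cover

set_option autoImplicit false

/-!
# Assembly: concentration and finiteness
-/

open MeasureTheory Set Metric
open scoped ENNReal ContDiff

namespace Pool.Agent.Lib.P28c

open Pool.Agent.P28b04d Pool.Agent.Lib.P28e

variable {n : ℕ}

theorem eOn_mono {Φ : W n → W n} {P Q : Mat n} {s t : ℝ} (h : fd P Q + s ≤ t) :
    eOn Φ P s ≤ eOn Φ Q t := by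
  unfold eOn
  refine lintegral_mono_set ?_
  rintro x ⟨hx, hx2⟩
  refine ⟨hx, ?_⟩
  have h1 : fd (pt x) P < s := hx2
  have h2 := fd_triangle (pt x) P Q
  show fd (pt x) Q < t
  linarith

theorem hloc_id : HLoc (fun z : W n => z) where
  smooth := contDiffOn_id
  hom := fun _ _ => rfl
  inj := by
    intro z _ v hv
    have : fderiv ℝ (fun z : W n => z) z = ContinuousLinearMap.id ℝ (W n) := fderiv_id'
    rw [this] at hv
    simpa using hv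

theorem main (n : ℕ) (hn : 1 ≤ n) : ∃ c : ℝ, 0 < c ∧ ∀ E ρ : ℝ, 0 ≤ E → 0 < ρ →
    ∃ s : ℝ, 0 < s ∧ s ≤ ρ ∧ ∃ 𝒢 : Set (W n → W n), 𝒢.Finite ∧
      (∀ G ∈ 𝒢, HLoc G ∧ Function.Injective G) ∧
      ∀ Φ : W n → W n, HLoc Φ → Function.Injective Φ → energy Φ ≤ ENNReal.ofReal E →
      ∃ (k : ℕ) (Q : Fin k → Mat n), (∀ j, Q j ∈ CP n ∧ ENNReal.ofReal c ≤ eOn Φ (Q j) s) ∧
        (∀ i j, i ≠ j → 2 * s ≤ fd (Q i) (Q j)) ∧ (k : ℝ) * c ≤ E ∧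
        ∃ G ∈ 𝒢, ∃ Ψ : W n → W n, HLoc Ψ ∧ Function.Injective Ψ ∧
          (∀ z : W n, z ≠ 0 → (∀ j, ρ ≤ fd (pt z) (Q j)) → Ψ z = z) ∧
          Conn Φ (fun z => G (Ψ z)) := by
  classical
  obtain ⟨ε, hε, hkey⟩ := key n hn
  obtain ⟨c, hc, hlg⟩ := local_good n hn ε hε
  refine ⟨c, hc, fun E ρ hE hρ => ?_⟩
  set s : ℝ := min (ρ / 3) 1 with hsdef
  have hs : 0 < s := by positivity
  have hs1 : s ≤ 1 := min_le_right _ _
  have hs3 : 3 * s ≤ ρ := by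
    have : s ≤ ρ / 3 := min_le_left _ _
    linarith
  set t₀ : ℝ := s / 16 with ht₀def
  have ht₀ : 0 < t₀ := by positivity
  have hkap : 0 < kap1 n := by unfold kap1; positivity
  set κ : ℝ := kap1 n * (s / 2) with hκdef
  have hκ : 0 < κ := by positivity
  obtain ⟨P, hPmem, hPnet⟩ := exists_net n ht₀
  have hex : ∀ I : Finset (Mat n), I ∈ P.powerset → I.Nonempty →
      ∃ 𝒢 : Set (W n → W n), 𝒢.Finite ∧ (∀ G ∈ 𝒢, HLoc G ∧ Function.Injective G) ∧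
      ∀ Φ : W n → W n, HLoc Φ → Function.Injective Φ → energy Φ ≤ ENNReal.ofReal E →
      (∀ z : W n, z ≠ 0 → (∃ p ∈ I, fd (pt z) p < 8 * t₀) → ∀ ρ : ℝ, 0 < ρ → ρ ≤ κ * ‖z‖ →
        ∃ M : (EndW n)ˣ, Good Φ z ρ ε M) →
      ∃ G ∈ 𝒢, ∃ Ψ : W n → W n, HLoc Ψ ∧ Function.Injective Ψ ∧ Conn Φ (fun z => G (Ψ z)) ∧
        ∀ z : W n, z ≠ 0 → (∃ p ∈ I, fd (pt z) p ≤ t₀) → Ψ z = z := fun I hI hne =>
    hkey hE ht₀ hκ I hne fun p hp => hPmem p (Finset.mem_powerset.1 hI hp)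
  choose! 𝒢 h𝒢fin h𝒢 h𝒢key using hex
  refine ⟨s, hs, by linarith, {fun z => z} ∪ ⋃ I ∈ P.powerset.filter (fun I => I.Nonempty), 𝒢 I, ?_, ?_, ?_⟩
  · refine (Set.finite_singleton _).union ?_
    refine Set.Finite.biUnion (Finset.finite_toSet _) fun I hI => ?_
    have := Finset.mem_filter.1 (Finset.mem_coe.1 hI)
    exact h𝒢fin I this.1 this.2
  · rintro G (hG | hG)
    · rw [Set.mem_singleton_iff] at hG
      subst hG
      exact ⟨hloc_id, fun _ _ h => h⟩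
    · simp only [Set.mem_iUnion] at hG
      obtain ⟨I, hI, hG⟩ := hG
      have := Finset.mem_filter.1 hI
      exact h𝒢 I this.1 this.2 G hG
  · intro Φ hΦ hΦi hΦE
    obtain ⟨k, Q, hQ1, hQ2, hQ3, hQ4, hQ5⟩ := cover (n := n) hE hΦE hc hs
    refine ⟨k, Q, fun j => ⟨hQ1 j, hQ3 j⟩, hQ2, hQ4, ?_⟩
    set I : Finset (Mat n) := P.filter (fun p => eOn Φ p s < ENNReal.ofReal c) with hI
    -- points far from the `Q j` are near `I`
    have hfar : ∀ z : W n, z ≠ 0 → (∀ j, ρ ≤ fd (pt z) (Q j)) → ∃ p ∈ I, fd (pt z) p ≤ t₀ := by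
      intro z hz hj
      obtain ⟨p, hp, hzp⟩ := hPnet z hz
      refine ⟨p, ?_, hzp⟩
      rw [hI, Finset.mem_filter]
      refine ⟨hp, hQ5 p (hPmem p hp) fun j => ?_⟩
      have h1 := fd_triangle (pt z) p (Q j)
      have h2 := hj j
      linarith
    by_cases hne : I.Nonempty
    · have hIP : I ∈ P.powerset := Finset.mem_powerset.2 (Finset.filter_subset _ _)
      obtain ⟨G, hG, Ψ, hΨ1, hΨ2, hΨ3, hΨ4⟩ := h𝒢key I hIP hne Φ hΦ hΦi hΦE (by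
        rintro z hz ⟨p, hp, hzp⟩ ρ' hρ' hρ'1
        refine hlg Φ hΦ z hz (s / 2) (by positivity) (by linarith) ?_ ρ' hρ' hρ'1
        refine (eOn_mono (Q := p) (t := s) ?_).trans (Finset.mem_filter.1 hp).2.le
        linarith)
      refine ⟨G, Or.inr ?_, Ψ, hΨ1, hΨ2, fun z hz hj => hΨ4 z hz (hfar z hz hj), hΨ3⟩
      simp only [Set.mem_iUnion]
      exact ⟨I, Finset.mem_filter.2 ⟨hIP, hne⟩, hG⟩
    · refine ⟨fun z => z, Or.inl rfl, Φ, hΦ, hΦi, fun z hz hj => ?_, Conn.refl hΦ⟩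
      exfalso
      obtain ⟨p, hp, _⟩ := hfar z hz hj
      exact hne ⟨p, hp⟩

end Pool.Agent.Lib.P28c
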