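import Pool.Agent.Lib.P28c.Defs

set_option autoImplicit false

/-!
# Matching two matrices by a complex linear map

PROOF SKETCH. `exists_match`: `TR = (1/2) (A B⁻¹ - I A B⁻¹ I)`, `I = mulC Complex.I`; it commutes with `I` (`I * I = -1`), so it is complex linear (see the end of the proof of
`linear_part` in `Pool/Agent/Lib/P28e/Steps.lean`). `A⁻¹ TR B = (1/2)(1 - A⁻¹ I A B⁻¹ I B) = (1/2)(1 - Jm A * Jm B)` and `Jm A * Jm A = -1`, so
`A⁻¹ TR B - 1 = (1/2)(Jm A * Jm A - Jm A * Jm B)`, norm `≤ ‖Jm A‖ ‖Jm A - Jm B‖ / 2 < 1`; hence `TR` is injective (`B v` ...), a linear equivalence.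
`transfer`: `A'⁻¹ TR B' = (A⁻¹ A')⁻¹ (A⁻¹ TR B) (B⁻¹ B')`; with `R = A⁻¹ A'`, `S = B⁻¹ B'`, `X = A⁻¹ TR B`: `R⁻¹ X S - 1 = R⁻¹ ((X - 1) S + (S - R))`,
`‖R⁻¹‖ ≤ Λ`, `‖S‖ ≤ Λ`.
`euler`: `fderiv ℝ Φ z z = Φ z` for a lift (differentiate `Φ (t • z) = t • Φ z` at `t = 1`).
-/

open MeasureTheory Set Metric
open scoped ENNReal ContDiff

namespace Pool.Agent.Lib.P28c

open Pool.Agent.P28b04d Pool.Agent.Lib.P28e

variable {n : ℕ}

namespace MatchAux

lemma alg1 {R : Type*} [Ring R] [Algebra ℝ R] {I a ai b bi : R} (hII : I * I = -1)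
    (hA1 : ai * a = 1) (hA2 : a * ai = 1) (hB1 : bi * b = 1) :
    ai * ((1 / 2 : ℝ) • (a * bi - I * a * bi * I)) * b - 1 =
      (1 / 2 : ℝ) • ((ai * I * a) * ((ai * I * a) - (bi * I * b))) := by
  have hJJ : (ai * I * a) * (ai * I * a) = -1 := by
    calc ai * I * a * (ai * I * a) = ai * I * (a * ai) * I * a := by simp only [mul_assoc]
      _ = ai * (I * I) * a := by rw [hA2]; simp only [mul_assoc, one_mul]
      _ = -(ai * a) := by rw [hII]; simp only [mul_neg, neg_mul, mul_one]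
      _ = -1 := by rw [hA1]
  have e1 : ai * (a * bi - I * a * bi * I) * b = 1 - (ai * I * a) * (bi * I * b) := by
    calc ai * (a * bi - I * a * bi * I) * b
        = (ai * a) * (bi * b) - (ai * I * a) * (bi * I * b) := by
          simp only [mul_sub, sub_mul, mul_assoc]
      _ = 1 - (ai * I * a) * (bi * I * b) := by rw [hA1, hB1, one_mul]
  rw [mul_smul_comm, smul_mul_assoc, e1, mul_sub, hJJ]
  module

lemma alg2 {R : Type*} [Ring R] [Algebra ℝ R] {I a bi : R} (hII : I * I = -1) :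
    ((1 / 2 : ℝ) • (a * bi - I * a * bi * I)) * I =
      I * ((1 / 2 : ℝ) • (a * bi - I * a * bi * I)) := by
  have e1 : (a * bi - I * a * bi * I) * I = a * bi * I + I * a * bi := by
    calc (a * bi - I * a * bi * I) * I = a * bi * I - I * a * bi * (I * I) := by
          simp only [sub_mul, mul_assoc]
      _ = a * bi * I + I * a * bi := by rw [hII, mul_neg, mul_one, sub_neg_eq_add]
  have e2 : I * (a * bi - I * a * bi * I) = a * bi * I + I * a * bi := by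
    calc I * (a * bi - I * a * bi * I) = I * a * bi - (I * I) * (a * bi * I) := by
          simp only [mul_sub, mul_assoc]
      _ = a * bi * I + I * a * bi := by
          rw [hII, neg_mul, one_mul, sub_neg_eq_add, add_comm]
  rw [smul_mul_assoc, mul_smul_comm, e1, e2]

lemma alg3 {R : Type*} [Ring R] {a ai b bi a' ai' b' T : R} (hA2 : a * ai = 1)
    (hB2 : b * bi = 1) (hA1' : ai' * a' = 1) :
    ai' * T * b' - 1 = (ai' * a) * ((ai * T * b - 1) * (bi * b') - (ai * a' - bi * b')) := by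
  have e1 : (ai' * a) * ((ai * T * b - 1) * (bi * b') - (ai * a' - bi * b')) =
      ai' * (a * ai) * T * (b * bi) * b' - ai' * (a * ai) * a' := by
    simp only [mul_sub, sub_mul, mul_assoc, one_mul]
    abel
  rw [e1, hA2, hB2, mul_one, mul_one, hA1']

end MatchAux

theorem exists_match (A B : (EndW n)ˣ) (h : ‖Jm A‖ * ‖Jm A - Jm B‖ ≤ 1) :
    ∃ (T : W n ≃ₗ[ℂ] W n) (TR : EndW n), (∀ v, TR v = T v) ∧
      ‖(↑A⁻¹ : EndW n) * TR * (B : EndW n) - 1‖ ≤ ‖Jm A‖ * ‖Jm A - Jm B‖ / 2 := by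
  obtain ⟨I, hIdef⟩ : ∃ I : EndW n, I = mulC Complex.I := ⟨_, rfl⟩
  have hII : I * I = -1 := by
    rw [hIdef, mulC_mul, Complex.I_mul_I]
    ext1 v
    rw [mulC_apply]
    show (-1 : ℂ) • v = -v
    rw [neg_smul, one_smul]
  obtain ⟨a, ha⟩ : ∃ a : EndW n, a = (A : EndW n) := ⟨_, rfl⟩
  obtain ⟨ai, hai⟩ : ∃ a : EndW n, a = (↑A⁻¹ : EndW n) := ⟨_, rfl⟩
  obtain ⟨b, hb⟩ : ∃ a : EndW n, a = (B : EndW n) := ⟨_, rfl⟩
  obtain ⟨bi, hbi⟩ : ∃ a : EndW n, a = (↑B⁻¹ : EndW n) := ⟨_, rfl⟩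
  have hA1 : ai * a = 1 := by rw [ha, hai]; exact A.inv_mul
  have hA2 : a * ai = 1 := by rw [ha, hai]; exact A.mul_inv
  have hB1 : bi * b = 1 := by rw [hb, hbi]; exact B.inv_mul
  have hB2 : b * bi = 1 := by rw [hb, hbi]; exact B.mul_inv
  have hJA : Jm A = ai * I * a := by rw [ha, hai, hIdef]; rfl
  have hJB : Jm B = bi * I * b := by rw [hb, hbi, hIdef]; rfl
  rw [← hai, ← hb]
  obtain ⟨TR, hTR⟩ : ∃ TR : EndW n, TR = (1 / 2 : ℝ) • (a * bi - I * a * bi * I) := ⟨_, rfl⟩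
  have hX : ai * TR * b - 1 = (1 / 2 : ℝ) • (Jm A * (Jm A - Jm B)) := by
    rw [hTR, hJA, hJB]
    exact MatchAux.alg1 hII hA1 hA2 hB1
  have hXn : ‖ai * TR * b - 1‖ ≤ ‖Jm A‖ * ‖Jm A - Jm B‖ / 2 := by
    rw [hX, norm_smul, Real.norm_eq_abs, abs_of_pos (by norm_num)]
    have := norm_mul_le (Jm A) (Jm A - Jm B)
    linarith
  have hcom : TR * I = I * TR := by
    rw [hTR]
    exact MatchAux.alg2 hII
  have hI : ∀ v : W n, TR (Complex.I • v) = Complex.I • TR v := by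
    intro v
    have e1 : (TR * I) v = TR (Complex.I • v) := by rw [hIdef]; rfl
    have e2 : (I * TR) v = Complex.I • TR v := by rw [hIdef]; rfl
    rw [← e1, ← e2, hcom]
  have hsm : ∀ (c : ℂ) (v : W n), TR (c • v) = c • TR v := by
    intro c v
    have e1 : ∀ u : W n, c • u = c.re • u + c.im • (Complex.I • u) := by
      intro u
      ext i
      simp only [Pi.smul_apply, Pi.add_apply, smul_eq_mul, Complex.real_smul]
      have := Complex.re_add_im c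
      linear_combination (-(u i)) * this
    rw [e1 v, map_add, map_smul, map_smul, hI, ← e1]
  let L : W n →ₗ[ℂ] W n :=
    { toFun := TR
      map_add' := map_add TR
      map_smul' := fun c v => hsm c v }
  have hLinj : Function.Injective L := by
    intro u v huv
    have h0 : TR (u - v) = 0 := by
      rw [map_sub]
      exact sub_eq_zero.2 huv
    obtain ⟨x, hx⟩ : ∃ x : W n, x = bi (u - v) := ⟨_, rfl⟩
    have hbx : b x = u - v := by
      rw [hx]
      have : (b * bi) (u - v) = u - v := by rw [hB2]; rfl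
      exact this
    have h2 := (ai * TR * b - 1).le_opNorm x
    have h1 : (ai * TR * b - 1) x = -x := by
      have : (ai * TR * b - 1) x = ai (TR (b x)) - x := rfl
      rw [this, hbx, h0, map_zero, zero_sub]
    rw [h1, norm_neg] at h2
    have h3 : ‖x‖ ≤ 1 / 2 * ‖x‖ := h2.trans (by
      have : ‖ai * TR * b - 1‖ ≤ 1 / 2 := hXn.trans (by linarith)
      exact mul_le_mul_of_nonneg_right this (norm_nonneg _))
    have h4 : x = 0 := by
      have h5 : ‖x‖ ≤ 0 := by linarith [norm_nonneg x]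
      exact norm_le_zero_iff.mp h5
    rw [h4, map_zero] at hbx
    exact (sub_eq_zero.mp hbx.symm)
  exact ⟨LinearEquiv.ofInjectiveEndo L hLinj, TR, fun v => rfl, hXn⟩

theorem transfer {A B A' B' : (EndW n)ˣ} {TR : EndW n} {Λ e η : ℝ} (hΛ : 0 ≤ Λ)
    (h1 : ‖(↑A⁻¹ : EndW n) * TR * (B : EndW n) - 1‖ ≤ e)
    (h2 : ‖(↑A'⁻¹ : EndW n) * (A : EndW n)‖ ≤ Λ) (h3 : ‖(↑B⁻¹ : EndW n) * (B' : EndW n)‖ ≤ Λ)
    (h4 : ‖(↑A⁻¹ : EndW n) * (A' : EndW n) - (↑B⁻¹ : EndW n) * (B' : EndW n)‖ ≤ η) :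
    ‖(↑A'⁻¹ : EndW n) * TR * (B' : EndW n) - 1‖ ≤ Λ * (e * Λ + η) := by
  have hA2 : (A : EndW n) * (↑A⁻¹ : EndW n) = 1 := A.mul_inv
  have hB2 : (B : EndW n) * (↑B⁻¹ : EndW n) = 1 := B.mul_inv
  have hA1' : (↑A'⁻¹ : EndW n) * (A' : EndW n) = 1 := A'.inv_mul
  have hB1 : (B : EndW n) * (↑B⁻¹ : EndW n) = 1 := B.mul_inv
  have key : (↑A'⁻¹ : EndW n) * TR * (B' : EndW n) - 1 =
      ((↑A'⁻¹ : EndW n) * (A : EndW n)) *
        (((↑A⁻¹ : EndW n) * TR * (B : EndW n) - 1) * ((↑B⁻¹ : EndW n) * (B' : EndW n)) -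
          ((↑A⁻¹ : EndW n) * (A' : EndW n) - (↑B⁻¹ : EndW n) * (B' : EndW n))) :=
     MatchAux.alg3 hA2 hB2 hA1'
  rw [key]
  have hN1 := norm_sub_le
    (((↑A⁻¹ : EndW n) * TR * (B : EndW n) - 1) * ((↑B⁻¹ : EndW n) * (B' : EndW n)))
    ((↑A⁻¹ : EndW n) * (A' : EndW n) - (↑B⁻¹ : EndW n) * (B' : EndW n))
  have hN2 : ‖((↑A⁻¹ : EndW n) * TR * (B : EndW n) - 1) * ((↑B⁻¹ : EndW n) * (B' : EndW n))‖ ≤
      e * Λ := (norm_mul_le _ _).trans (mul_le_mul h1 h3 (norm_nonneg _)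
        ((norm_nonneg _).trans h1))
  refine (norm_mul_le _ _).trans (mul_le_mul h2 ?_ (norm_nonneg _) hΛ)
  linarith

theorem euler {Φ : W n → W n} (h : HLoc Φ) {z : W n} (hz : z ≠ 0) : fderiv ℝ Φ z z = Φ z := by
  have hd : DifferentiableAt ℝ Φ z := by
    have h1 : ContDiffAt ℝ ∞ Φ z := (h.smooth z hz).contDiffAt (isOpen_compl_singleton.mem_nhds hz)
    exact h1.differentiableAt (by simp)
  have h2 : HasDerivAt (fun t : ℝ => Φ (t • z)) (fderiv ℝ Φ z z) 1 := by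
    have h3 : HasDerivAt (fun t : ℝ => t • z) z 1 := by
      simpa using (hasDerivAt_id (1 : ℝ)).smul_const z
    have h4 : HasFDerivAt Φ (fderiv ℝ Φ z) ((1 : ℝ) • z) := by
      rw [one_smul]
      exact hd.hasFDerivAt
    exact h4.comp_hasDerivAt (1 : ℝ) h3
  have h5 : HasDerivAt (fun t : ℝ => Φ (t • z)) (Φ z) 1 := by
    have h6 : (fun t : ℝ => Φ (t • z)) = fun t : ℝ => t • Φ z := by
      ext1 t
      have h7 := h.hom (t : ℂ) z
      have h8 : ((t : ℂ) • z : W n) = t • z := by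
        ext i
        simp
      have h9 : ((t : ℂ) • Φ z : W n) = t • Φ z := by
        ext i
        simp
      rw [← h8, ← h9]
      exact h7
    rw [h6]
    simpa using (hasDerivAt_id (1 : ℝ)).smul_const (Φ z)
  exact h2.unique h5

end Pool.Agent.Lib.P28c
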