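import Pool.Agent.Lib.P28c.Fd

set_option autoImplicit false

/-!
# Small balls of `CP^n` have small cones
-/

open MeasureTheory Set Metric Filter
open scoped ENNReal ContDiff Topology

namespace Pool.Agent.Lib.P28c

open Pool.Agent.P28b04d Pool.Agent.Lib.P28e

variable {n : ℕ}

theorem line_null (hn : 1 ≤ n) {q : W n} (hq : q ≠ 0) :
    volume {x : W n | x ≠ 0 ∧ fd (pt x) (pt q) = 0} = 0 := by
  classical
  set L : Submodule ℝ (W n) := (Submodule.span ℂ {q}).restrictScalars ℝ with hL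
  have hne : L ≠ ⊤ := by
    intro h
    have h1 : Submodule.span ℂ {q} = ⊤ := by
      rw [hL] at h
      simpa using h
    have h2 := finrank_span_singleton (K := ℂ) hq
    rw [h1, finrank_top] at h2
    have h3 : Module.finrank ℂ (W n) = n + 1 := by simp [W]
    omega
  refine measure_mono_null ?_ (Measure.addHaar_submodule volume L hne)
  rintro x ⟨hx, h⟩
  have h1 := FdAux.fd_pt_sq hx hq
  rw [h] at h1
  have hN := nsq_pos hx
  have hM := nsq_pos hq
  have h2 : Complex.normSq (hip x q) = nsq x * nsq q := by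
    have : Complex.normSq (hip x q) / (nsq x * nsq q) = 1 := by linarith
    rwa [div_eq_one_iff_eq (by positivity)] at this
  -- `nsq (nsq x • q - hip x q • x) = nsq x ^ 2 nsq q - nsq x |hip x q|^2 = 0`
  have h3 : nsq (((nsq x : ℝ) : ℂ) • q - hip x q • x) = 0 := by
    have e1 : nsq (((nsq x : ℝ) : ℂ) • q - hip x q • x) =
        nsq x ^ 2 * nsq q - 2 * nsq x * Complex.normSq (hip x q) +
          Complex.normSq (hip x q) * nsq x := by
      have h4 : nsq (((nsq x : ℝ) : ℂ) • q) = nsq x ^ 2 * nsq q := by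
        unfold nsq
        simp only [Pi.smul_apply, smul_eq_mul, Complex.normSq_mul, Complex.normSq_ofReal,
          ← Finset.mul_sum]
        ring
      have h5 : nsq (hip x q • x) = Complex.normSq (hip x q) * nsq x := by
        unfold nsq
        simp only [Pi.smul_apply, smul_eq_mul, Complex.normSq_mul, ← Finset.mul_sum]
      have h6 := FdAux.nsq_sub (hip x q • x) (((nsq x : ℝ) : ℂ) • q)
      rw [h6, h4, h5]
      have h7 : hip (hip x q • x) (((nsq x : ℝ) : ℂ) • q) =
          ((nsq x : ℝ) : ℂ) * ((Complex.normSq (hip x q) : ℝ) : ℂ) := by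
        have e : hip (hip x q • x) (((nsq x : ℝ) : ℂ) • q) =
            star (hip x q) * ((nsq x : ℝ) : ℂ) * hip x q := by
          unfold hip
          rw [Finset.mul_sum]
          refine Finset.sum_congr rfl fun k _ => ?_
          simp only [Pi.smul_apply, smul_eq_mul, star_mul']
          ring
        rw [e]
        have e2 : star (hip x q) * hip x q = ((Complex.normSq (hip x q) : ℝ) : ℂ) := by
          rw [mul_comm]
          exact Complex.mul_conj _
        calc star (hip x q) * ((nsq x : ℝ) : ℂ) * hip x q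
            = ((nsq x : ℝ) : ℂ) * (star (hip x q) * hip x q) := by ring
          _ = _ := by rw [e2]
      rw [h7]
      have h8 : (((nsq x : ℝ) : ℂ) * ((Complex.normSq (hip x q) : ℝ) : ℂ)).re =
          nsq x * Complex.normSq (hip x q) := by
        rw [← Complex.ofReal_mul, Complex.ofReal_re]
      rw [h8]
      ring
    rw [e1, h2]
    ring
  have h4 : ((nsq x : ℝ) : ℂ) • q - hip x q • x = 0 := by
    by_contra h5
    exact (nsq_pos h5).ne' h3
  have h5 : hip x q ≠ 0 := by
    intro h6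
    rw [h6, map_zero] at h2
    have : 0 < nsq x * nsq q := by positivity
    linarith
  have h6 : x = ((hip x q)⁻¹ * ((nsq x : ℝ) : ℂ)) • q := by
    rw [mul_smul, sub_eq_zero.1 h4, inv_smul_smul₀ h5]
  show x ∈ (Submodule.span ℂ {q})
  rw [h6]
  exact Submodule.smul_mem _ _ (Submodule.mem_span_singleton_self q)

theorem vol_one (hn : 1 ≤ n) {q : W n} (hq : q ≠ 0) {η : ℝ≥0∞} (hη : η ≠ 0) :
    ∃ s : ℝ, 0 < s ∧ volume (ball (0 : W n) 1 ∩ PB (pt q) s) ≤ η := by
  set A : ℕ → Set (W n) := fun k => ball (0 : W n) 1 ∩ PB (pt q) (1 / ((k : ℝ) + 1)) with hA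
  have hanti : Antitone A := by
    intro i j hij x hx
    have h1 : fd (pt x) (pt q) < 1 / ((j : ℝ) + 1) := hx.2
    refine ⟨hx.1, lt_of_lt_of_le h1 ?_⟩
    have : (i : ℝ) ≤ j := by exact_mod_cast hij
    exact one_div_le_one_div_of_le (by positivity) (by linarith)
  have hmeas : ∀ k, NullMeasurableSet (A k) volume := fun k =>
    (measurableSet_ball.inter (measurableSet_PB _ _)).nullMeasurableSet
  have hfin : ∃ k, volume (A k) ≠ ⊤ :=
    ⟨0, (lt_of_le_of_lt (measure_mono inter_subset_left) measure_ball_lt_top).ne⟩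
  have ht := tendsto_measure_iInter_atTop hmeas hanti hfin
  have h0 : volume (⋂ k, A k) = 0 := by
    refine measure_mono_null (t := {x : W n | x ≠ 0 ∧ fd (pt x) (pt q) = 0} ∪ {0}) ?_ ?_
    · intro x hx
      rw [mem_iInter] at hx
      by_cases hx0 : x = 0
      · right; exact hx0
      · left
        refine ⟨hx0, le_antisymm ?_ (fd_nonneg _ _)⟩
        refine le_of_forall_pos_lt_add fun e he => ?_
        obtain ⟨k, hk⟩ := exists_nat_one_div_lt he
        have h1 : fd (pt x) (pt q) < 1 / ((k : ℝ) + 1) := (hx k).2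
        linarith
    · rw [measure_union_null_iff]
      exact ⟨line_null hn hq, measure_singleton _⟩
  rw [h0] at ht
  have h1 := (ENNReal.tendsto_nhds_zero.1 ht) η (pos_iff_ne_zero.2 hη)
  obtain ⟨k, hk⟩ := h1.exists
  exact ⟨1 / ((k : ℝ) + 1), by positivity, hk⟩

theorem vol_small (n : ℕ) (hn : 1 ≤ n) {η : ℝ≥0∞} (hη : η ≠ 0) : ∃ s : ℝ, 0 < s ∧
    ∀ Q ∈ CP n, ∀ s' ≤ s, volume (ball (0 : W n) 1 ∩ PB Q s') ≤ η := by
  classical
  have h1 : ∀ q : W n, q ≠ 0 → ∃ s : ℝ, 0 < s ∧ volume (ball (0 : W n) 1 ∩ PB (pt q) s) ≤ η :=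
    fun q hq => vol_one hn hq hη
  choose! t ht0 ht using h1
  have hK : IsCompact (sphere (0 : W n) 1) := isCompact_sphere _ _
  have hne : ∀ q ∈ sphere (0 : W n) 1, q ≠ 0 := by
    intro q hq h
    rw [mem_sphere_zero_iff_norm, h, norm_zero] at hq
    exact zero_ne_one hq
  set r : W n → ℝ := fun q => t q / (4 * ((n : ℝ) + 1)) with hr
  have hr0 : ∀ q ∈ sphere (0 : W n) 1, 0 < r q := by
    intro q hq
    have := ht0 q (hne q hq)
    have h2 : (0 : ℝ) < 4 * ((n : ℝ) + 1) := by positivity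
    exact div_pos this h2
  obtain ⟨T, hTs, hT⟩ := hK.elim_nhds_subcover (fun q => ball q (r q))
    (fun q hq => ball_mem_nhds q (hr0 q hq))
  by_cases hTe : T.Nonempty
  · obtain ⟨q0, hq0, hmin⟩ := T.exists_min_image t hTe
    refine ⟨t q0 / 2, by have := ht0 q0 (hne _ (hTs _ hq0)); linarith, ?_⟩
    intro Q hQ s' hs'
    obtain ⟨z, hz, rfl⟩ := exists_pt hQ
    have hz0 : 0 < ‖z‖ := norm_pos_iff.2 hz
    have hc : ((‖z‖⁻¹ : ℝ) : ℂ) ≠ 0 := by
      exact_mod_cast (inv_pos.2 hz0).ne'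
    set y : W n := ((‖z‖⁻¹ : ℝ) : ℂ) • z with hy
    have hy1 : ‖y‖ = 1 := by
      rw [hy, norm_smul, Complex.norm_real, norm_inv, norm_norm, inv_mul_cancel₀ hz0.ne']
    have hyS : y ∈ sphere (0 : W n) 1 := mem_sphere_zero_iff_norm.2 hy1
    have h2 := hT hyS
    simp only [mem_iUnion, exists_prop] at h2
    obtain ⟨g, hg, hgy⟩ := h2
    have hgS := hTs g hg
    have hg0 := hne g hgS
    have hy0 := hne y hyS
    rw [← pt_smul hc z, ← hy]
    refine le_trans (measure_mono ?_) (ht g hg0)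
    rintro x ⟨hx1, hx2⟩
    refine ⟨hx1, ?_⟩
    have h3 : fd (pt x) (pt y) < s' := hx2
    have h4 := fd_triangle (pt x) (pt y) (pt g)
    have h5 := fd_pt_le hy0 hg0
    rw [mem_sphere_zero_iff_norm.1 hgS, div_one] at h5
    have h6 : ‖y - g‖ < r g := by rw [← dist_eq_norm]; exact hgy
    have h7 : 2 * ((n : ℝ) + 1) * ‖y - g‖ ≤ t g / 2 := by
      have h8 : (0 : ℝ) < 2 * ((n : ℝ) + 1) := by positivity
      calc 2 * ((n : ℝ) + 1) * ‖y - g‖ ≤ 2 * ((n : ℝ) + 1) * r g := by gcongr
        _ = t g / 2 := by rw [hr]; field_simp; ring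
    have h9 := hmin g hg
    show fd (pt x) (pt g) < t g
    linarith
  · exfalso
    rw [Finset.not_nonempty_iff_eq_empty] at hTe
    have hy1 : ‖(fun _ => 1 : W n)‖ = 1 := by
      rw [pi_norm_const]
      simp
    have h2 := hT (mem_sphere_zero_iff_norm.2 hy1)
    rw [hTe] at h2
    simp at h2

end Pool.Agent.Lib.P28c
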