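import Pool.Agent.Lib.P28c.Main
import Pool.Agent.Lib.P28c.Vol
import Pool.Agent.Lib.P28c.TopC
import Pool.Agent.Lib.P28e.Bound

set_option autoImplicit false

/-!
# Concentration with a pointwise bound; subcritical finiteness
-/

open MeasureTheory Set Metric
open scoped ENNReal ContDiff

namespace Pool.Agent.Lib.P28c

open Pool.Agent.P28b04d Pool.Agent.Lib.P28e

variable {n : ℕ} {Φ : W n → W n}

/-- `f ^ m ≤ K ^ m + K ^ (-(p - m)) f ^ p`. -/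
theorem young (m : ℕ) {p : ℝ} (hp : (m : ℝ) < p) {K f : ℝ≥0∞} (hK0 : K ≠ 0) (hKt : K ≠ ⊤) :
    f ^ m ≤ K ^ m + K ^ (-(p - m)) * f ^ p := by
  rcases le_total f K with h | h
  · exact le_add_right (pow_le_pow_left₀ zero_le h m)
  · refine le_add_left ?_
    rcases eq_or_ne f ⊤ with hf | hf
    · subst hf
      have hp0 : 0 < p := lt_of_le_of_lt (Nat.cast_nonneg m) hp
      rw [ENNReal.top_rpow_of_pos hp0, ENNReal.mul_top]
      · exact le_top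
      · exact (ENNReal.rpow_pos (pos_iff_ne_zero.2 hK0) hKt).ne'
    · have hf0 : f ≠ 0 := fun h0 => hK0 (le_antisymm (h0 ▸ h) zero_le)
      have e1 : f ^ p = f ^ (p - m) * f ^ m := by
        rw [← ENNReal.rpow_natCast, ← ENNReal.rpow_add _ _ hf0 hf, sub_add_cancel]
      have e2 : K ^ (-(p - m)) * K ^ (p - m) = 1 := by
        rw [← ENNReal.rpow_add _ _ hK0 hKt, neg_add_cancel, ENNReal.rpow_zero]
      calc f ^ m = K ^ (-(p - m)) * K ^ (p - m) * f ^ m := by rw [e2, one_mul]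
        _ ≤ K ^ (-(p - m)) * f ^ (p - m) * f ^ m := by
          gcongr
        _ = K ^ (-(p - m)) * f ^ p := by rw [e1, mul_assoc]

theorem eOn_le (m : ℕ) {p : ℝ} (hp : (m : ℝ) < p) {K : ℝ≥0∞} (hK0 : K ≠ 0) (hKt : K ≠ ⊤)
    (h : HLoc Φ) {B : ℝ≥0∞} (hB : ∫⁻ x in ball (0 : W n) 1, ‖conn Φ x‖ₑ ^ p ≤ B) {A : Set (W n)}
    (hA : A ⊆ ball (0 : W n) 1) :
    ∫⁻ x in A, ‖conn Φ x‖ₑ ^ m ≤ K ^ m * volume A + K ^ (-(p - m)) * B := by
  calc ∫⁻ x in A, ‖conn Φ x‖ₑ ^ m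
      ≤ ∫⁻ x in A, (K ^ m + K ^ (-(p - m)) * ‖conn Φ x‖ₑ ^ p) :=
        lintegral_mono fun x => young m hp hK0 hKt
    _ = K ^ m * volume A + K ^ (-(p - m)) * ∫⁻ x in A, ‖conn Φ x‖ₑ ^ p := by
        rw [lintegral_add_left measurable_const, setLIntegral_const,
          lintegral_const_mul _ ((measurable_conn h).pow_const p)]
    _ ≤ _ := by
        gcongr
        exact (lintegral_mono_set hA).trans hB

/-- Subcritical finiteness: for `p > 2 n` only finitely many classes with `∫ |conn|^p ≤ B`. -/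
theorem subcritical (n : ℕ) (hn : 1 ≤ n) (p B : ℝ) (hp : 2 * (n : ℝ) < p) :
    ∃ 𝒢 : Set (W n → W n), 𝒢.Finite ∧ (∀ G ∈ 𝒢, HLoc G ∧ Function.Injective G) ∧
      ∀ Φ : W n → W n, HLoc Φ → Function.Injective Φ →
        ∫⁻ x in ball (0 : W n) 1, ‖conn Φ x‖ₑ ^ p ≤ ENNReal.ofReal B → ∃ G ∈ 𝒢, Conn Φ G := by
  classical
  obtain ⟨c, hc, H⟩ := main n hn
  have hp' : ((2 * n : ℕ) : ℝ) < p := by push_cast; exact hp
  set d : ℝ := p - ((2 * n : ℕ) : ℝ) with hd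
  have hd0 : 0 < d := by linarith
  set β : ℝ := max B 1 with hβ
  have hβ1 : 1 ≤ β := le_max_right _ _
  -- choice of `K`
  set k : ℝ := (c / 4 / β) ^ (-(1 / d)) with hk
  have hk0 : 0 < k := by positivity
  have hkd : k ^ (-d) * β = c / 4 := by
    rw [hk, ← Real.rpow_mul (by positivity)]
    have : -(1 / d) * -d = 1 := by field_simp
    rw [this, Real.rpow_one]
    field_simp
  set K : ℝ≥0∞ := ENNReal.ofReal k with hK
  have hK0 : K ≠ 0 := by simpa [hK] using hk0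
  have hKt : K ≠ ⊤ := ENNReal.ofReal_ne_top
  have hKd : K ^ (-d) * ENNReal.ofReal B ≤ ENNReal.ofReal (c / 4) := by
    rw [hK, ENNReal.ofReal_rpow_of_pos hk0, ← ENNReal.ofReal_mul (by positivity), ← hkd]
    exact ENNReal.ofReal_le_ofReal (by gcongr; exact le_max_left _ _)
  have hKm0 : K ^ (2 * n) ≠ 0 := pow_ne_zero _ hK0
  have hKmt : K ^ (2 * n) ≠ ⊤ := ENNReal.pow_ne_top hKt
  -- the total energy
  set e0 : ℝ≥0∞ := K ^ (2 * n) * volume (ball (0 : W n) 1) + ENNReal.ofReal (c / 4) with he0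
  have he0t : e0 ≠ ⊤ := ENNReal.add_ne_top.2
    ⟨ENNReal.mul_ne_top hKmt measure_ball_lt_top.ne, ENNReal.ofReal_ne_top⟩
  -- small balls
  set η : ℝ≥0∞ := ENNReal.ofReal (c / 4) / K ^ (2 * n) with hη
  have hη0 : η ≠ 0 := by
    refine ENNReal.div_ne_zero.2 ⟨?_, hKmt⟩
    have : 0 < c / 4 := by positivity
    simpa using this
  obtain ⟨ρ, hρ, hvol⟩ := vol_small n hn hη0
  obtain ⟨s, hs, hsρ, 𝒢, h𝒢1, h𝒢2, h𝒢3⟩ := H e0.toReal ρ ENNReal.toReal_nonneg hρ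
  refine ⟨𝒢, h𝒢1, h𝒢2, fun Φ hΦ hΦi hB => ?_⟩
  have hE : energy Φ ≤ ENNReal.ofReal e0.toReal := by
    rw [ENNReal.ofReal_toReal he0t]
    refine (eOn_le (2 * n) hp' hK0 hKt hΦ hB subset_rfl).trans ?_
    rw [he0]
    gcongr
  obtain ⟨j, Q, hQ, -, -, G, hG, Ψ, hΨ, hΨi, hΨz, hconn⟩ := h𝒢3 Φ hΦ hΦi hE
  refine ⟨G, hG, ?_⟩
  have hj : ∀ i : Fin j, False := by
    intro i
    obtain ⟨hi1, hi2⟩ := hQ i
    have h1 : eOn Φ (Q i) s ≤ K ^ (2 * n) * η + K ^ (-d) * ENNReal.ofReal B := by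
      refine (eOn_le (2 * n) hp' hK0 hKt hΦ hB inter_subset_left).trans ?_
      gcongr
      exact hvol (Q i) hi1 s hsρ
    have h2 : K ^ (2 * n) * η = ENNReal.ofReal (c / 4) := ENNReal.mul_div_cancel hKm0 hKmt
    have h3 : ENNReal.ofReal c ≤ ENNReal.ofReal (c / 2) := by
      calc ENNReal.ofReal c ≤ K ^ (2 * n) * η + K ^ (-d) * ENNReal.ofReal B := hi2.trans h1
        _ ≤ ENNReal.ofReal (c / 4) + ENNReal.ofReal (c / 4) := by rw [h2]; gcongr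
        _ = ENNReal.ofReal (c / 2) := by
          rw [← ENNReal.ofReal_add (by positivity) (by positivity)]
          congr 1
          ring
    have h4 := (ENNReal.ofReal_le_ofReal_iff (by positivity)).1 h3
    linarith
  have hid : Ψ = fun z => z := by
    funext z
    by_cases hz : z = 0
    · subst hz
      have := hΨ.hom 0 (0 : W n)
      rwa [zero_smul, zero_smul] at this
    · exact hΨz z hz fun i => (hj i).elim
  rw [hid] at hconn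
  exact hconn

/-- Concentration and finiteness in terms of a pointwise bound of the connection form. -/
theorem main_a (n : ℕ) (hn : 1 ≤ n) :
    (∃ c : ℝ, 0 < c ∧ ∀ E ρ : ℝ, 0 ≤ E → 0 < ρ → ∃ s : ℝ, 0 < s ∧ s ≤ ρ ∧
      ∃ 𝒢 : Set (W n → W n), 𝒢.Finite ∧ (∀ G ∈ 𝒢, HLoc G ∧ Function.Injective G) ∧
      ∀ (Φ : W n → W n) (a : W n → ℝ), HLoc Φ → Function.Injective Φ → ConnLe Φ a →
      ∫⁻ x in ball (0 : W n) 1, ENNReal.ofReal (a x) ^ (2 * n) ≤ ENNReal.ofReal E →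
      ∃ (k : ℕ) (Q : Fin k → Mat n), (k : ℝ) * c ≤ E ∧
        (∀ j, Q j ∈ CP n ∧ ENNReal.ofReal c ≤
          ∫⁻ x in ball (0 : W n) 1 ∩ {x | fd (pt x) (Q j) < s}, ENNReal.ofReal (a x) ^ (2 * n)) ∧
        (∀ i j, i ≠ j → 2 * s ≤ fd (Q i) (Q j)) ∧
        ∃ G ∈ 𝒢, ∃ Ψ : W n → W n, HLoc Ψ ∧ Function.Injective Ψ ∧
          (∀ z : W n, z ≠ 0 → (∀ j, ρ ≤ fd (pt z) (Q j)) → Ψ z = z) ∧
          ∀ F : Mat n → Mat n, (∀ z : W n, z ≠ 0 → F (pt (G (Ψ z))) = pt (Φ z)) →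
            IsotopicToId n F) ∧
    (∀ p B : ℝ, 2 * (n : ℝ) < p →
      ∃ 𝒢 : Set (W n → W n), 𝒢.Finite ∧ (∀ G ∈ 𝒢, HLoc G ∧ Function.Injective G) ∧
      ∀ (Φ : W n → W n) (a : W n → ℝ), HLoc Φ → Function.Injective Φ → ConnLe Φ a →
      ∫⁻ x in ball (0 : W n) 1, ENNReal.ofReal (a x) ^ p ≤ ENNReal.ofReal B →
      ∃ G ∈ 𝒢, ∀ F : Mat n → Mat n, (∀ z : W n, z ≠ 0 → F (pt (G z)) = pt (Φ z)) →
        IsotopicToId n F) := by
  have hmono : ∀ (Φ : W n → W n) (a : W n → ℝ) (S : Set (W n)) (q : ℝ), 0 ≤ q → HLoc Φ →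
      ConnLe Φ a → ∫⁻ x in S, ‖conn Φ x‖ₑ ^ q ≤ ∫⁻ x in S, ENNReal.ofReal (a x) ^ q := by
    intro Φ a S q hq h ha
    refine lintegral_mono_ae ?_
    have h0 : ∀ᵐ x : W n ∂(volume.restrict S), x ≠ 0 :=
      ae_restrict_of_ae (Measure.ae_ne volume (0 : W n))
    filter_upwards [h0] with x hx
    refine ENNReal.rpow_le_rpow ?_ hq
    rw [← ofReal_norm]
    exact ENNReal.ofReal_le_ofReal (norm_conn_le h ha hx)
  refine ⟨?_, ?_⟩
  · obtain ⟨c, hc, H⟩ := main n hn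
    refine ⟨c, hc, fun E ρ hE hρ => ?_⟩
    obtain ⟨s, hs, hsρ, 𝒢, h𝒢1, h𝒢2, h𝒢3⟩ := H E ρ hE hρ
    refine ⟨s, hs, hsρ, 𝒢, h𝒢1, h𝒢2, fun Φ a hΦ hΦi ha hEa => ?_⟩
    have hm : ∀ S : Set (W n), ∫⁻ x in S, ‖conn Φ x‖ₑ ^ (2 * n) ≤
        ∫⁻ x in S, ENNReal.ofReal (a x) ^ (2 * n) := by
      intro S
      have := hmono Φ a S ((2 * n : ℕ) : ℝ) (Nat.cast_nonneg _) hΦ ha
      simpa only [ENNReal.rpow_natCast] using this
    obtain ⟨k, Q, hQ1, hQ2, hQ3, G, hG, Ψ, hΨ, hΨi, hΨz, hconn⟩ :=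
      h𝒢3 Φ hΦ hΦi ((hm _).trans hEa)
    exact ⟨k, Q, hQ3, fun j => ⟨(hQ1 j).1, (hQ1 j).2.trans (hm _)⟩, hQ2, G, hG, Ψ, hΨ, hΨi, hΨz,
      fun F hF => final_iso (h𝒢2 G hG).1 (h𝒢2 G hG).2 hΨ hΨi hconn F hF⟩
  · intro p B hp
    obtain ⟨𝒢, h𝒢1, h𝒢2, h𝒢3⟩ := subcritical n hn p B hp
    refine ⟨𝒢, h𝒢1, h𝒢2, fun Φ a hΦ hΦi ha hB => ?_⟩
    have hp0 : 0 ≤ p := by
      have : (0 : ℝ) ≤ n := Nat.cast_nonneg n
      linarith
    obtain ⟨G, hG, hconn⟩ := h𝒢3 Φ hΦ hΦi ((hmono Φ a _ p hp0 hΦ ha).trans hB)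
    exact ⟨G, hG, fun F hF => final_iso (h𝒢2 G hG).1 (h𝒢2 G hG).2 hloc_id (fun _ _ h => h)
      (by simpa using hconn) F (by simpa using hF)⟩

end Pool.Agent.Lib.P28c
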