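import Pool.Agent.Lib.P28c.VS

set_option autoImplicit false

/-!
# Averages of variable radius: the derivative

For `σ = t τ` (`0 ≤ t ≤ 1`, `τ` admissible),
`fderiv (VAvg Φ σ) z v = V⁻¹ ∫_{‖η‖ ≤ 1} dΦ_{z + σ(z) η} (v + (dσ_z v) • η) dη`, `|dσ_z v| ≤ ‖v‖`.
`vavg_close`: `M⁻¹ (fderiv (VAvg Φ σ) z v) - v = V⁻¹ ∫ (M⁻¹ dΦ_{z + σ η} - 1) (v + (dσ v) η) dη` (the mean of `η` is `0`), norm at most
`ε (‖v‖ + ‖v‖)`, by `mean_le` with `ρ = σ z`.
`vavg_fderiv_zero`: if `τ z = 0` the integrand is `dΦ_z (v + (dσ_z v) η)` and the mean of `η` vanishes, so the derivative is `dΦ_z v`.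
-/

open MeasureTheory Set Metric
open scoped ENNReal ContDiff

namespace Pool.Agent.Lib.P28c

open Pool.Agent.P28b04d Pool.Agent.Lib.P28e

variable {n : ℕ} {Φ : W n → W n} {τ : W n → ℝ}

namespace VCAux

open Close46

theorem smooth_joint (h : HLoc Φ) (hτ : Tau τ) {t : ℝ} (ht : |t| < 2) :
    ContDiffOn ℝ ∞ (fun q : W n × W n => Φ (q.1 + (t * τ q.1) • q.2))
      (({0}ᶜ : Set (W n)) ×ˢ ball (0 : W n) 2) := by
  have hr : ContDiffOn ℝ ∞ (fun q : W n × W n => τ q.1)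
      (({0}ᶜ : Set (W n)) ×ˢ ball (0 : W n) 2) :=
    hτ.smooth.comp contDiff_fst.contDiffOn (fun q hq => hq.1)
  have h0 : ContDiffOn ℝ ∞ (fun q : W n × W n => q.1 + (t * τ q.1) • q.2)
      (({0}ᶜ : Set (W n)) ×ˢ ball (0 : W n) 2) :=
    contDiff_fst.contDiffOn.add ((contDiffOn_const.mul hr).smul contDiff_snd.contDiffOn)
  apply h.smooth.comp h0
  rintro ⟨z, η⟩ ⟨hz, hη⟩
  rw [mem_ball_zero_iff] at hη
  exact vne_zero_of_mem hτ ht hz hη

theorem fderiv_slice (h : HLoc Φ) (hτ : Tau τ) {z : W n} (hz : z ≠ 0) {t : ℝ} (ht : |t| < 2)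
    {η : W n} (hη : ‖η‖ < 2) (v : W n) :
    (fderiv ℝ (fun q : W n × W n => Φ (q.1 + (t * τ q.1) • q.2)) (z, η)).comp
      (ContinuousLinearMap.inl ℝ (W n) (W n)) v =
    fderiv ℝ Φ (z + (t * τ z) • η) (v + (t * fderiv ℝ τ z v) • η) := by
  have hopen : IsOpen (({0}ᶜ : Set (W n)) ×ˢ ball (0 : W n) 2) :=
    isOpen_compl_singleton.prod isOpen_ball
  have hmem : (z, η) ∈ (({0}ᶜ : Set (W n)) ×ˢ ball (0 : W n) 2) := ⟨hz, by simpa using hη⟩
  have h2 : HasFDerivAt (fun q : W n × W n => Φ (q.1 + (t * τ q.1) • q.2))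
      (fderiv ℝ (fun q : W n × W n => Φ (q.1 + (t * τ q.1) • q.2)) (z, η)) (z, η) :=
    (((smooth_joint h hτ ht).differentiableOn (by simp)).differentiableAt
      (hopen.mem_nhds hmem)).hasFDerivAt
  have h3 : HasFDerivAt (fun z => Φ (z + (t * τ z) • η))
      ((fderiv ℝ (fun q : W n × W n => Φ (q.1 + (t * τ q.1) • q.2)) (z, η)).comp
        (ContinuousLinearMap.inl ℝ (W n) (W n))) z :=
    HasFDerivAt.comp (g := fun q : W n × W n => Φ (q.1 + (t * τ q.1) • q.2))
      (f := fun z => (z, η)) z h2 (hasFDerivAt_prodMk_left z η)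
  have h4 : HasFDerivAt τ (fderiv ℝ τ z) z :=
    ((hτ.smooth.differentiableOn (by simp)).differentiableAt
      (isOpen_compl_singleton.mem_nhds hz)).hasFDerivAt
  have h5 : HasFDerivAt (fun z : W n => z + (t * τ z) • η)
      (ContinuousLinearMap.id ℝ (W n) + (t • fderiv ℝ τ z).smulRight η) z :=
    (hasFDerivAt_id z).add ((h4.const_mul t).smul_const η)
  have h6 := Hom46.hasFDerivAt h (vne_zero_of_mem hτ ht hz hη)
  have h7 : HasFDerivAt (fun z => Φ (z + (t * τ z) • η))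
      ((fderiv ℝ Φ (z + (t * τ z) • η)).comp (ContinuousLinearMap.id ℝ (W n) +
        (t • fderiv ℝ τ z).smulRight η)) z := h6.comp z h5
  rw [h3.unique h7]
  simp

theorem cont_fderiv (h : HLoc Φ) (hτ : Tau τ) {z : W n} (hz : z ≠ 0) {t : ℝ} (ht : |t| < 2) :
    ContinuousOn (fun η : W n => fderiv ℝ Φ (z + (t * τ z) • η)) (closedBall (0 : W n) 1) := by
  apply (continuousOn_fderiv h).comp (by fun_prop)
  intro η hη
  have := (closedBall_subset_ball (x := (0 : W n)) (by norm_num : (1 : ℝ) < 2)) hη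
  rw [mem_ball_zero_iff] at this
  exact vne_zero_of_mem hτ ht hz this

/-- the derivative of the average -/
theorem fderiv_vavg (h : HLoc Φ) (hτ : Tau τ) {z : W n} (hz : z ≠ 0) {t : ℝ} (ht : |t| < 2)
    (v : W n) :
    fderiv ℝ (VAvg Φ (fun z => t * τ z)) z v =
      ((volume (closedBall (0 : W n) 1)).toReal)⁻¹ • ∫ η in closedBall (0 : W n) 1,
        fderiv ℝ Φ (z + (t * τ z) • η) (v + (t * fderiv ℝ τ z v) • η) := by
  have hKO : closedBall (0 : W n) 1 ⊆ ball (0 : W n) 2 := closedBall_subset_ball (by norm_num)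
  have hKc : IsCompact (closedBall (0 : W n) 1) := isCompact_closedBall 0 1
  obtain ⟨hint, hder⟩ := hasFDerivAt_param (volume : Measure (W n)) isOpen_compl_singleton
    isOpen_ball hKc hKO (smooth_joint h hτ ht) (show z ∈ ({0}ᶜ : Set (W n)) from hz)
  have hAvg : HasFDerivAt (VAvg Φ (fun z => t * τ z))
      (((volume (closedBall (0 : W n) 1)).toReal)⁻¹ • ∫ η in closedBall (0 : W n) 1,
      (fderiv ℝ (fun q : W n × W n => Φ (q.1 + (t * τ q.1) • q.2)) (z, η)).comp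
        (ContinuousLinearMap.inl ℝ (W n) (W n))) z :=
    hder.const_smul ((volume (closedBall (0 : W n) 1)).toReal)⁻¹
  rw [hAvg.fderiv]
  show ((volume (closedBall (0 : W n) 1)).toReal)⁻¹ • (∫ η in closedBall (0 : W n) 1,
    (fderiv ℝ (fun q : W n × W n => Φ (q.1 + (t * τ q.1) • q.2))
    (z, η)).comp (ContinuousLinearMap.inl ℝ (W n) (W n))) v = _
  rw [ContinuousLinearMap.integral_apply hint]
  congr 1
  apply setIntegral_congr_fun measurableSet_closedBall
  intro η hη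
  have := hKO hη
  rw [mem_ball_zero_iff] at this
  exact fderiv_slice h hτ hz ht this v

theorem integral_affine (v : W n) (t : ℝ) :
    ∫ η in closedBall (0 : W n) 1, (v + t • η) =
      (volume (closedBall (0 : W n) 1)).toReal • v := by
  have hKc : IsCompact (closedBall (0 : W n) 1) := isCompact_closedBall 0 1
  have hVne : volume (closedBall (0 : W n) 1) ≠ ⊤ := measure_closedBall_lt_top.ne
  have hint5 : IntegrableOn (fun η : W n => t • η) (closedBall (0 : W n) 1) :=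
    ContinuousOn.integrableOn_compact hKc (by fun_prop)
  rw [integral_add (integrable_const_iff.2 (Or.inr ⟨by
    rw [Measure.restrict_apply_univ]; exact hVne.lt_top⟩)) hint5,
    integral_smul, integral_ball_id, smul_zero, add_zero, setIntegral_const]
  rfl

end VCAux

open VCAux Close46 in
theorem vavg_close (h : HLoc Φ) (hτ : Tau τ) {t : ℝ} (ht0 : 0 < t) (ht1 : t ≤ 1) {z : W n}
    (hz : z ≠ 0) (hp : 0 < τ z) {ε : ℝ} (hε : 0 ≤ ε) {M : (EndW n)ˣ}
    (hM : Good Φ z (t * τ z) ε M) :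
    ‖(↑M⁻¹ : EndW n) * fderiv ℝ (VAvg Φ (fun z => t * τ z)) z - 1‖ ≤ 2 * ε := by
  have hs2 : |t| < 2 := by
    rw [abs_of_pos ht0]
    linarith
  have hρ : 0 < t * τ z := mul_pos ht0 hp
  set ρ := t * τ z with hρdef
  set K : Set (W n) := closedBall (0 : W n) 1 with hK
  set V : ℝ := (volume K).toReal with hV
  have hVne : volume K ≠ ⊤ := measure_closedBall_lt_top.ne
  have hVpos : 0 < V := ENNReal.toReal_pos (measure_closedBall_pos volume 0 one_pos).ne' hVne
  have hKc : IsCompact K := isCompact_closedBall 0 1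
  -- the mean of the error
  have hcf : ContinuousOn (fun η : W n => fderiv ℝ Φ (z + ρ • η)) K := cont_fderiv h hτ hz hs2
  have hcont : ContinuousOn (fun η : W n => (↑M⁻¹ : EndW n) * fderiv ℝ Φ (z + ρ • η) - 1) K :=
    (continuousOn_const.mul hcf).sub continuousOn_const
  have hmean : ∫ η in K, ‖(↑M⁻¹ : EndW n) * fderiv ℝ Φ (z + ρ • η) - 1‖ ≤ ε * V := by
    have h1 := mean_le h hρ hM
    rw [← ENNReal.ofReal_le_ofReal_iff (by positivity),
      ofReal_integral_norm_eq_lintegral_enorm (hcont.integrableOn_compact hKc),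
      ENNReal.ofReal_mul hε, ENNReal.ofReal_toReal hVne]
    exact h1
  refine ContinuousLinearMap.opNorm_le_bound _ (by positivity) fun v => ?_
  set s : ℝ := t * fderiv ℝ τ z v with hs
  have htv : |s| ≤ ‖v‖ := by
    rw [hs, abs_mul, abs_of_pos ht0]
    have h1 : |fderiv ℝ τ z v| ≤ ‖v‖ := by
      rw [← Real.norm_eq_abs]
      refine ((fderiv ℝ τ z).le_opNorm v).trans ?_
      calc ‖fderiv ℝ τ z‖ * ‖v‖ ≤ 1 * ‖v‖ :=
            mul_le_mul_of_nonneg_right (hτ.der z hz) (norm_nonneg _)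
        _ = ‖v‖ := one_mul _
    calc t * |fderiv ℝ τ z v| ≤ 1 * ‖v‖ := mul_le_mul ht1 h1 (abs_nonneg _) (by norm_num)
      _ = ‖v‖ := one_mul _
  have hcont2 : ContinuousOn (fun η : W n =>
      ((↑M⁻¹ : EndW n) * fderiv ℝ Φ (z + ρ • η) - 1) (v + s • η)) K :=
    hcont.clm_apply (by fun_prop)
  have hval : ((↑M⁻¹ : EndW n) * fderiv ℝ (VAvg Φ (fun z => t * τ z)) z - 1) v =
      V⁻¹ • ∫ η in K, ((↑M⁻¹ : EndW n) * fderiv ℝ Φ (z + ρ • η) - 1) (v + s • η) := by
    have h1 : fderiv ℝ (VAvg Φ (fun z => t * τ z)) z v =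
        V⁻¹ • ∫ η in K, fderiv ℝ Φ (z + ρ • η) (v + s • η) := fderiv_vavg h hτ hz hs2 v
    have hcont3 : ContinuousOn (fun η : W n => fderiv ℝ Φ (z + ρ • η) (v + s • η)) K :=
      hcf.clm_apply (by fun_prop)
    have hint3 : IntegrableOn (fun η : W n => fderiv ℝ Φ (z + ρ • η) (v + s • η)) K :=
      hcont3.integrableOn_compact hKc
    have hint4 : IntegrableOn (fun η : W n => v + s • η) K :=
      ContinuousOn.integrableOn_compact hKc (by fun_prop)
    have h2 : ∫ η in K, (v + s • η) = V • v := integral_affine v s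
    have h3 : ∫ η in K, ((↑M⁻¹ : EndW n) * fderiv ℝ Φ (z + ρ • η) - 1) (v + s • η) =
        (↑M⁻¹ : EndW n) (∫ η in K, fderiv ℝ Φ (z + ρ • η) (v + s • η)) -
          ∫ η in K, (v + s • η) := by
      rw [← ContinuousLinearMap.integral_comp_comm _ hint3,
        ← integral_sub ((↑M⁻¹ : EndW n).integrable_comp hint3) hint4]
      rfl
    rw [h3, h2, smul_sub, smul_smul, inv_mul_cancel₀ hVpos.ne', one_smul, ← map_smul, ← h1]
    rfl
  rw [hval, norm_smul, norm_inv, Real.norm_eq_abs, abs_of_pos hVpos]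
  have hle : ‖∫ η in K, ((↑M⁻¹ : EndW n) * fderiv ℝ Φ (z + ρ • η) - 1) (v + s • η)‖ ≤
      ε * V * (‖v‖ + ‖v‖) := by
    calc ‖∫ η in K, ((↑M⁻¹ : EndW n) * fderiv ℝ Φ (z + ρ • η) - 1) (v + s • η)‖
        ≤ ∫ η in K, ‖((↑M⁻¹ : EndW n) * fderiv ℝ Φ (z + ρ • η) - 1) (v + s • η)‖ :=
          norm_integral_le_integral_norm _
      _ ≤ ∫ η in K, ‖(↑M⁻¹ : EndW n) * fderiv ℝ Φ (z + ρ • η) - 1‖ * (‖v‖ + ‖v‖) := by
          apply setIntegral_mono_on (hcont2.integrableOn_compact hKc).norm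
            ((hcont.integrableOn_compact hKc).norm.mul_const _) measurableSet_closedBall
          intro η hη
          refine (ContinuousLinearMap.le_opNorm _ _).trans ?_
          apply mul_le_mul_of_nonneg_left _ (norm_nonneg _)
          refine (norm_add_le _ _).trans ?_
          have hη1 : ‖η‖ ≤ 1 := by simpa [hK] using hη
          rw [norm_smul, Real.norm_eq_abs]
          have : |s| * ‖η‖ ≤ ‖v‖ * 1 := mul_le_mul htv hη1 (norm_nonneg _) (norm_nonneg _)
          linarith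
      _ = (∫ η in K, ‖(↑M⁻¹ : EndW n) * fderiv ℝ Φ (z + ρ • η) - 1‖) * (‖v‖ + ‖v‖) :=
          integral_mul_const _ _
      _ ≤ ε * V * (‖v‖ + ‖v‖) := mul_le_mul_of_nonneg_right hmean (by positivity)
  calc V⁻¹ * ‖∫ η in K, ((↑M⁻¹ : EndW n) * fderiv ℝ Φ (z + ρ • η) - 1) (v + s • η)‖
      ≤ V⁻¹ * (ε * V * (‖v‖ + ‖v‖)) := mul_le_mul_of_nonneg_left hle (by positivity)
    _ = ε * (‖v‖ + ‖v‖) := by field_simp
    _ = 2 * ε * ‖v‖ := by ring

open VCAux Close46 in
theorem vavg_fderiv_zero (h : HLoc Φ) (hτ : Tau τ) {t : ℝ} (ht0 : 0 ≤ t) (ht1 : t ≤ 1) {z : W n}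
    (hz : z ≠ 0) (hp : τ z = 0) :
    fderiv ℝ (VAvg Φ (fun z => t * τ z)) z = fderiv ℝ Φ z := by
  have hs2 : |t| < 2 := by
    rw [abs_of_nonneg ht0]
    linarith
  have hVne : volume (closedBall (0 : W n) 1) ≠ ⊤ := measure_closedBall_lt_top.ne
  have hVpos : 0 < (volume (closedBall (0 : W n) 1)).toReal :=
    ENNReal.toReal_pos (measure_closedBall_pos volume 0 one_pos).ne' hVne
  have hKc : IsCompact (closedBall (0 : W n) 1) := isCompact_closedBall 0 1
  refine ContinuousLinearMap.ext fun v => ?_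
  rw [fderiv_vavg h hτ hz hs2 v]
  simp only [hp, mul_zero, zero_smul, add_zero]
  have hint4 : IntegrableOn (fun η : W n => v + (t * fderiv ℝ τ z v) • η)
      (closedBall (0 : W n) 1) := ContinuousOn.integrableOn_compact hKc (by fun_prop)
  rw [ContinuousLinearMap.integral_comp_comm _ hint4, integral_affine, map_smul, smul_smul,
    inv_mul_cancel₀ hVpos.ne', one_smul]

end Pool.Agent.Lib.P28c
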