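import Pool.Agent.Lib.P28c.Defs

set_option autoImplicit false

/-!
# Averages of variable radius: smoothness and homogeneity

PROOF SKETCH. Copy `avg_smooth`, `avg_hom`, `avg_zero` (file `Pool/Agent/Lib/P28e/AvgSmooth.lean`), with `s * rad z` replaced by `t * τ z`
(`contDiffOn_param` applies with `Ω = Ioo (-2) 2 ×ˢ {0}ᶜ`, `O = ball 0 2`, `K = closedBall 0 1`: `‖(t * τ z) • η‖ < 2 * (‖z‖ / 8) * 2 < ‖z‖`, so the
points `z + (t * τ z) • η` are not `0`). `vavg_hom`: `τ (c • z) = ‖c‖ * τ z` and the rotation `η ↦ (c / ‖c‖) • η` preserves volume and the ball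
(`AvgSmoothAux.rot_preserving`). `vavg_zero`: the integrand is the constant `Φ z`.
-/

open MeasureTheory Set Metric
open scoped ENNReal ContDiff

namespace Pool.Agent.Lib.P28c

open Pool.Agent.P28b04d Pool.Agent.Lib.P28e

variable {n : ℕ} {Φ : W n → W n} {τ : W n → ℝ}

theorem vne_zero_of_mem (hτ : Tau τ) {t : ℝ} {z η : W n} (ht : |t| < 2) (hz : z ≠ 0)
    (hη : ‖η‖ < 2) : z + (t * τ z) • η ≠ 0 := by
  intro h
  have h1 : z = -((t * τ z) • η) := eq_neg_of_add_eq_zero_left h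
  have hz' : 0 < ‖z‖ := norm_pos_iff.2 hz
  have hr0 : 0 ≤ τ z := hτ.nonneg z
  have h2 : ‖z‖ = |t| * τ z * ‖η‖ := by
    have h2 : ‖z‖ = ‖(t * τ z) • η‖ := by
      conv_lhs => rw [h1]
      rw [norm_neg]
    rw [h2, norm_smul, Real.norm_eq_abs, abs_mul, abs_of_nonneg hr0]
  have h4 : |t| * τ z ≤ 2 * (‖z‖ / 8) := mul_le_mul ht.le (hτ.le z) hr0 (by norm_num)
  have h7 : |t| * τ z * ‖η‖ ≤ 2 * (‖z‖ / 8) * 2 :=
    mul_le_mul h4 hη.le (norm_nonneg _) (by positivity)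
  linarith

theorem vavg_smooth (h : HLoc Φ) (hτ : Tau τ) :
    ContDiffOn ℝ ∞ (fun p : ℝ × W n => VAvg Φ (fun z => p.1 * τ z) p.2)
      (Ioo (-2 : ℝ) 2 ×ˢ {0}ᶜ) := by
  unfold VAvg
  apply ContDiffOn.const_smul
  have hΨ : ContDiffOn ℝ ∞ (fun q : (ℝ × W n) × W n => Φ (q.1.2 + (q.1.1 * τ q.1.2) • q.2))
      ((Ioo (-2 : ℝ) 2 ×ˢ {0}ᶜ) ×ˢ ball (0 : W n) 2) := by
    have hr : ContDiffOn ℝ ∞ (fun q : (ℝ × W n) × W n => τ q.1.2)
        ((Ioo (-2 : ℝ) 2 ×ˢ {0}ᶜ) ×ˢ ball (0 : W n) 2) :=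
      hτ.smooth.comp (contDiff_snd.comp contDiff_fst).contDiffOn (fun q hq => hq.1.2)
    have h0 : ContDiffOn ℝ ∞ (fun q : (ℝ × W n) × W n => q.1.2 + (q.1.1 * τ q.1.2) • q.2)
        ((Ioo (-2 : ℝ) 2 ×ˢ {0}ᶜ) ×ˢ ball (0 : W n) 2) :=
      (contDiff_snd.comp contDiff_fst).contDiffOn.add
        (((contDiff_fst.comp contDiff_fst).contDiffOn.mul hr).smul contDiff_snd.contDiffOn)
    apply h.smooth.comp h0
    rintro ⟨⟨s, z⟩, η⟩ ⟨⟨hs, hz⟩, hη⟩
    rw [mem_ball_zero_iff] at hη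
    exact vne_zero_of_mem hτ (abs_lt.2 hs) hz hη
  exact contDiffOn_param (E := ℝ × W n) volume
    (isOpen_Ioo.prod isOpen_compl_singleton) isOpen_ball (isCompact_closedBall 0 1)
    (closedBall_subset_ball (by norm_num)) hΨ

theorem vavg_hom (h : HLoc Φ) (hτ : Tau τ) (t : ℝ) (c : ℂ) (z : W n) :
    VAvg Φ (fun z => t * τ z) (c • z) = c • VAvg Φ (fun z => t * τ z) z := by
  have hΦ0 : Φ 0 = 0 := by
    have := h.hom 0 0
    simpa using this
  rcases eq_or_ne c 0 with rfl | hc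
  · rw [zero_smul, zero_smul]
    unfold VAvg
    have : τ (0 : W n) = 0 := by
      have := hτ.hom 0 (0 : W n)
      simpa using this
    simp [this, hΦ0]
  have hc' : ‖c‖ ≠ 0 := norm_ne_zero_iff.2 hc
  set u : ℂ := c / ‖c‖ with hu
  have hu1 : ‖u‖ = 1 := by
    rw [hu, norm_div, Complex.norm_real, norm_norm, div_self hc']
  have hcu : c = (‖c‖ : ℂ) * u := by
    rw [hu, mul_div_cancel₀]
    exact_mod_cast hc'
  have hu0 : u ≠ 0 := by
    intro h0; rw [h0, norm_zero] at hu1; exact zero_ne_one hu1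
  unfold VAvg
  rw [smul_comm c, ← integral_smul (c := c)]
  congr 1
  have hpre : (fun η : W n => u • η) ⁻¹' closedBall 0 1 = closedBall 0 1 := by
    ext η
    simp [norm_smul, hu1]
  have h1 := (AvgSmoothAux.rot_preserving (n := n) u hu1).setIntegral_preimage_emb
    (measurableEmbedding_const_smul₀ hu0)
    (fun η => Φ (c • z + (t * τ (c • z)) • η)) (closedBall 0 1)
  rw [hpre] at h1
  rw [← h1]
  apply setIntegral_congr_fun measurableSet_closedBall
  intro η _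
  show Φ (c • z + (t * τ (c • z)) • u • η) = c • Φ (z + (t * τ z) • η)
  rw [← h.hom, smul_add, hτ.hom]
  congr 2
  funext k
  simp only [Pi.smul_apply, smul_eq_mul, Complex.real_smul]
  push_cast
  conv_rhs => rw [hcu]
  ring

theorem vavg_zero (Φ : W n → W n) {σ : W n → ℝ} {z : W n} (hz : σ z = 0) : VAvg Φ σ z = Φ z := by
  unfold VAvg
  simp only [hz, zero_smul, add_zero]
  rw [setIntegral_const, smul_smul, Measure.real, inv_mul_cancel₀, one_smul]
  rw [ENNReal.toReal_ne_zero]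
  exact ⟨(measure_closedBall_pos volume 0 one_pos).ne', measure_closedBall_lt_top.ne⟩

end Pool.Agent.Lib.P28c
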